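import Pool.Agent.H28BS.Golay

/-! All pairs of representations of `2g` as a sum of two squares are realised at `1` and `-1` by Golay pairs
of length `g`, when `g = 4 * 2 ^ a * 10 ^ b * 26 ^ c`. -/

namespace Pool.Agent.H28BS

open Finset

/-- there is a Golay pair of length `g` with the given values at `1` and `-1` -/
def Val (g : ℕ) (p q p' q' : ℤ) : Prop :=
  ∃ P Q : ℕ → ℤ, GP g P Q ∧ ev P g (1 : ℤ) = p ∧ ev Q g (1 : ℤ) = q ∧
    ev P g (-1 : ℤ) = p' ∧ ev Q g (-1 : ℤ) = q'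

theorem Val.neg_snd {g : ℕ} {p q p' q' : ℤ} (h : Val g p q p' q') : Val g p (-q) p' (-q') := by
  obtain ⟨P, Q, h0, h1, h2, h3, h4⟩ := h
  exact ⟨P, fun i => -Q i, h0.neg_snd, h1, by rw [ev_neg_fun, h2], h3, by rw [ev_neg_fun, h4]⟩

theorem Val.rev_snd {g : ℕ} (hg : g % 2 = 0) (hg0 : 0 < g) {p q p' q' : ℤ} (h : Val g p q p' q') :
    Val g p q p' (-q') := by
  obtain ⟨P, Q, h0, h1, h2, h3, h4⟩ := h
  refine ⟨P, fun i => Q (g - 1 - i), h0.rev_snd, h1, ?_, h3, ?_⟩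
  · rw [ev_rev Q g 1 1 (by norm_num), h2]; simp
  · rw [ev_rev Q g (-1) (-1) (by norm_num), h4]
    have : Odd (g - 1) := by rw [Nat.odd_iff]; omega
    rw [this.neg_one_pow]; ring

theorem GP.swap {g : ℕ} {P Q : ℕ → ℤ} (h : GP g P Q) : GP g Q P := by
  obtain ⟨h1, h2, h3⟩ := h
  exact ⟨h2, h1, fun R _ u v huv => by rw [add_comm]; exact h3 R u v huv⟩

theorem Val.swap {g : ℕ} {p q p' q' : ℤ} (h : Val g p q p' q') : Val g q p q' p' := by
  obtain ⟨P, Q, h0, h1, h2, h3, h4⟩ := h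
  exact ⟨Q, P, h0.swap, h2, h1, h4, h3⟩

/-- all signs are possible -/
theorem Val.signs {g : ℕ} (hg : g % 2 = 0) (hg0 : 0 < g) {p q p' q' : ℤ} (h : Val g p q p' q')
    {P Q P' Q' : ℤ} (h1 : P = p ∨ P = -p) (h2 : Q = q ∨ Q = -q) (h3 : P' = p' ∨ P' = -p')
    (h4 : Q' = q' ∨ Q' = -q') : Val g P Q P' Q' := by
  have key : ∀ {a b a' b' : ℤ}, Val g a b a' b' → ∀ {B B' : ℤ}, (B = b ∨ B = -b) →
      (B' = b' ∨ B' = -b') → Val g a B a' B' := by
    intro a b a' b' h B B' hB hB'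
    rcases hB with rfl | rfl
    · rcases hB' with rfl | rfl
      · exact h
      · exact h.rev_snd hg hg0
    · rcases hB' with rfl | rfl
      · have := (h.neg_snd).rev_snd hg hg0
        rwa [neg_neg] at this
      · exact h.neg_snd
  exact (key (key h h2 h4).swap h1 h3).swap

/-- all pairs of representations are realised -/
def AllPairs (g : ℕ) : Prop :=
  ∀ p q p' q' : ℤ, p ^ 2 + q ^ 2 = 2 * g → p' ^ 2 + q' ^ 2 = 2 * g → Val g p q p' q'

theorem sq_eq_eight {p q : ℤ} (h : p ^ 2 + q ^ 2 = 8) : (p = 2 ∨ p = -2) ∧ (q = 2 ∨ q = -2) := by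
  have h1 : p ≤ 2 := by nlinarith
  have h2 : -2 ≤ p := by nlinarith
  have h3 : q ≤ 2 := by nlinarith
  have h4 : -2 ≤ q := by nlinarith
  interval_cases p <;> interval_cases q <;> simp_all

theorem allPairs_four : AllPairs 4 := by
  intro p q p' q' h h'
  have h1 : p ^ 2 + q ^ 2 = 8 := by rw [h]; norm_num
  have h2 : p' ^ 2 + q' ^ 2 = 8 := by rw [h']; norm_num
  obtain ⟨a1, a2⟩ := sq_eq_eight h1
  obtain ⟨a3, a4⟩ := sq_eq_eight h2
  have h0 : Val 4 2 2 2 (-2) := ⟨_, _, gp_four, by decide, by decide, by decide, by decide⟩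
  exact h0.signs (by norm_num) (by norm_num) a1 a2 a3 (by rcases a4 with h | h <;> simp [h])

/-- one step: multiplication of the length by `k = e ^ 2 + 1` -/
theorem allPairs_step {m k : ℕ} (hm : m % 2 = 0) (hm0 : 0 < m) (e : ℤ) (hk : (k : ℤ) = e ^ 2 + 1)
    {C D : ℕ → ℤ} (hCD : GP k C D) (hC : ev C k (1 : ℤ) = e + 1) (hD : ev D k (1 : ℤ) = e - 1)
    (hdiv : ∀ p q : ℤ, p ^ 2 + q ^ 2 = 2 * ((m * k : ℕ) : ℤ) →
      ((k : ℤ) ∣ e * p - q ∧ (k : ℤ) ∣ e * q + p) ∨ ((k : ℤ) ∣ e * p + q ∧ (k : ℤ) ∣ e * q - p))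
    (h : AllPairs m) : AllPairs (m * k) := by
  have hk0 : (0 : ℤ) < k := by rw [hk]; positivity
  -- the product construction on values
  have hmul : ∀ r t r' t' : ℤ, Val m r t r' t' →
      Val (m * k) (e * r + t) (e * t - r) (e * r' - t') (e * t' + r') := by
    intro r t r' t' hv
    obtain ⟨A, B, hAB, h1, h2, h3, h4⟩ := hv
    obtain ⟨F, G, hFG, hval⟩ := GP.mul hm0 hAB hCD
    have hE : Even m := Nat.even_iff.mpr hm
    have hO : Odd (m - 1) := by rw [Nat.odd_iff]; omega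
    obtain ⟨x1, x2⟩ := hval 1 (by norm_num)
    obtain ⟨y1, y2⟩ := hval (-1) (by norm_num)
    rw [one_pow, one_pow, hC, hD, h1, h2] at x1 x2
    rw [hE.neg_one_pow, hO.neg_one_pow, hC, hD, h3, h4] at y1 y2
    exact ⟨F, G, hFG, by linarith, by linarith, by linarith, by linarith⟩
  -- solving for the factors
  have hsolve : ∀ p q : ℤ, p ^ 2 + q ^ 2 = 2 * ((m * k : ℕ) : ℤ) → ∃ r t : ℤ, r ^ 2 + t ^ 2 = 2 * m ∧
      ((p = e * r + t ∧ q = e * t - r) ∨ (p = e * r - t ∧ q = e * t + r)) := by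
    intro p q hpq
    have hfin : ∀ r t : ℤ, ((p = e * r + t ∧ q = e * t - r) ∨ (p = e * r - t ∧ q = e * t + r)) →
        r ^ 2 + t ^ 2 = 2 * m := by
      intro r t hrt
      have h1 : p ^ 2 + q ^ 2 = k * (r ^ 2 + t ^ 2) := by
        rcases hrt with ⟨h1, h2⟩ | ⟨h1, h2⟩ <;> rw [h1, h2, hk] <;> ring
      rw [hpq] at h1
      push_cast at h1
      have h2 : (k : ℤ) * (r ^ 2 + t ^ 2) = k * (2 * m) := by linarith
      exact mul_left_cancel₀ hk0.ne' h2
    rcases hdiv p q hpq with ⟨⟨r, hr⟩, ⟨t, ht⟩⟩ | ⟨⟨r, hr⟩, ⟨t, ht⟩⟩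
    · have h1 : p = e * r + t := by
        have : (k : ℤ) * p = k * (e * r + t) := by
          have e1 : (k : ℤ) * (e * r + t) = e * (k * r) + k * t := by ring
          rw [e1, ← hr, ← ht, hk]; ring
        exact mul_left_cancel₀ hk0.ne' this
      have h2 : q = e * t - r := by
        have : (k : ℤ) * q = k * (e * t - r) := by
          have e1 : (k : ℤ) * (e * t - r) = e * (k * t) - k * r := by ring
          rw [e1, ← hr, ← ht, hk]; ring
        exact mul_left_cancel₀ hk0.ne' this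
      exact ⟨r, t, hfin r t (Or.inl ⟨h1, h2⟩), Or.inl ⟨h1, h2⟩⟩
    · have h1 : p = e * r - t := by
        have : (k : ℤ) * p = k * (e * r - t) := by
          have e1 : (k : ℤ) * (e * r - t) = e * (k * r) - k * t := by ring
          rw [e1, ← hr, ← ht, hk]; ring
        exact mul_left_cancel₀ hk0.ne' this
      have h2 : q = e * t + r := by
        have : (k : ℤ) * q = k * (e * t + r) := by
          have e1 : (k : ℤ) * (e * t + r) = e * (k * t) + k * r := by ring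
          rw [e1, ← hr, ← ht, hk]; ring
        exact mul_left_cancel₀ hk0.ne' this
      exact ⟨r, t, hfin r t (Or.inr ⟨h1, h2⟩), Or.inr ⟨h1, h2⟩⟩
  have hmk : (m * k) % 2 = 0 := by rw [Nat.mul_mod, hm]; simp
  have hmk0 : 0 < m * k := by
    have : 0 < k := by exact_mod_cast hk0
    positivity
  intro p q p' q' hp hp'
  obtain ⟨r, t, hrt, h1⟩ := hsolve p q hp
  obtain ⟨r', t', hrt', h2⟩ := hsolve p' q' hp'
  -- the four cases
  rcases h1 with ⟨rfl, rfl⟩ | ⟨rfl, rfl⟩ <;> rcases h2 with ⟨rfl, rfl⟩ | ⟨rfl, rfl⟩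
  · -- (+,+): use (r,t;r',-t')
    have h3 := hmul r t r' (-t') (h r t r' (-t') hrt (by rw [neg_sq]; exact hrt'))
    refine h3.signs hmk hmk0 (Or.inl rfl) (Or.inl rfl) (Or.inl (by ring)) (Or.inr (by ring))
  · -- (+,-): direct
    have h3 := hmul r t r' t' (h r t r' t' hrt hrt')
    exact h3
  · -- (-,+): use (r,-t;r',-t')
    have h3 := hmul r (-t) r' (-t') (h r (-t) r' (-t') (by rw [neg_sq]; exact hrt)
      (by rw [neg_sq]; exact hrt'))
    refine h3.signs hmk hmk0 (Or.inl (by ring)) (Or.inr (by ring)) (Or.inl (by ring)) (Or.inr (by ring))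
  · -- (-,-): use (r,-t;r',t')
    have h3 := hmul r (-t) r' t' (h r (-t) r' t' (by rw [neg_sq]; exact hrt) hrt')
    refine h3.signs hmk hmk0 (Or.inl (by ring)) (Or.inr (by ring)) (Or.inl (by ring)) (Or.inl (by ring))

theorem div_two (m : ℕ) (p q : ℤ) (h : p ^ 2 + q ^ 2 = 2 * ((m * 2 : ℕ) : ℤ)) :
    (((2 : ℕ) : ℤ) ∣ 1 * p - q ∧ ((2 : ℕ) : ℤ) ∣ 1 * q + p) ∨
      (((2 : ℕ) : ℤ) ∣ 1 * p + q ∧ ((2 : ℕ) : ℤ) ∣ 1 * q - p) := by
  have h1 : (p + q) % 2 = 0 := by
    have h2 : (p ^ 2 + q ^ 2) % 2 = 0 := by rw [h]; omega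
    have hp : p % 2 = 0 ∨ p % 2 = 1 := by omega
    have hq : q % 2 = 0 ∨ q % 2 = 1 := by omega
    rcases hp with hp | hp <;> rcases hq with hq | hq <;>
      simp [pow_two, Int.add_emod, Int.mul_emod, hp, hq] at h2 ⊢
  left
  constructor <;> push_cast <;> omega

theorem div_prime (l : ℕ) (hl : Nat.Prime l) (hl2 : l ≠ 2) (e : ℤ) (he : e % 2 = 1)
    (hle : (2 * (l : ℤ)) = e ^ 2 + 1) (m : ℕ)
    (p q : ℤ) (h : p ^ 2 + q ^ 2 = 2 * ((m * (2 * l) : ℕ) : ℤ)) :
    (((2 * l : ℕ) : ℤ) ∣ e * p - q ∧ ((2 * l : ℕ) : ℤ) ∣ e * q + p) ∨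
      (((2 * l : ℕ) : ℤ) ∣ e * p + q ∧ ((2 * l : ℕ) : ℤ) ∣ e * q - p) := by
  have hpar : (p + q) % 2 = 0 := by
    have h2 : (p ^ 2 + q ^ 2) % 2 = 0 := by rw [h]; omega
    have hp : p % 2 = 0 ∨ p % 2 = 1 := by omega
    have hq : q % 2 = 0 ∨ q % 2 = 1 := by omega
    rcases hp with hp | hp <;> rcases hq with hq | hq <;>
      simp [pow_two, Int.add_emod, Int.mul_emod, hp, hq] at h2 ⊢
  have hcop : IsCoprime (2 : ℤ) (l : ℤ) := by
    have : Nat.Coprime 2 l := (Nat.coprime_primes Nat.prime_two hl).mpr (Ne.symm hl2)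
    exact_mod_cast Nat.isCoprime_iff_coprime.mpr this
  have hcomb : ∀ x : ℤ, (2 : ℤ) ∣ x → (l : ℤ) ∣ x → ((2 * l : ℕ) : ℤ) ∣ x := by
    intro x h1 h2
    push_cast
    exact hcop.mul_dvd h1 h2
  have hl' : Prime (l : ℤ) := Nat.prime_iff_prime_int.mp hl
  have hprod : (l : ℤ) ∣ (e * p - q) * (e * p + q) := by
    have h1 : (e * p - q) * (e * p + q) = l * (2 * p ^ 2 - 4 * m) := by
      have : (e * p - q) * (e * p + q) = (e ^ 2 + 1) * p ^ 2 - (p ^ 2 + q ^ 2) := by ring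
      rw [this, h, ← hle]; push_cast; ring
    rw [h1]; exact dvd_mul_right _ _
  obtain ⟨e', he'⟩ : ∃ e' : ℤ, e = 2 * e' + 1 := ⟨e / 2, by omega⟩
  rcases hl'.dvd_or_dvd hprod with h1 | h1
  · left
    refine ⟨hcomb _ ?_ h1, hcomb _ ?_ ?_⟩
    · have : e * p - q = 2 * (e' * p) + (p - q) := by rw [he']; ring
      rw [this]; exact dvd_add (dvd_mul_right _ _) (by omega)
    · have : e * q + p = 2 * (e' * q) + (q + p) := by rw [he']; ring
      rw [this]; exact dvd_add (dvd_mul_right _ _) (by omega)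
    · have : e * q + p = l * (2 * p) - e * (e * p - q) := by
        have : (l : ℤ) * (2 * p) = (2 * l) * p := by ring
        rw [this, hle]; ring
      rw [this]; exact dvd_sub (dvd_mul_right _ _) (Dvd.dvd.mul_left h1 e)
  · right
    refine ⟨hcomb _ ?_ h1, hcomb _ ?_ ?_⟩
    · have : e * p + q = 2 * (e' * p) + (p + q) := by rw [he']; ring
      rw [this]; exact dvd_add (dvd_mul_right _ _) (by omega)
    · have : e * q - p = 2 * (e' * q) + (q - p) := by rw [he']; ring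
      rw [this]; exact dvd_add (dvd_mul_right _ _) (by omega)
    · have : e * q - p = e * (e * p + q) - l * (2 * p) := by
        have : (l : ℤ) * (2 * p) = (2 * l) * p := by ring
        rw [this, hle]; ring
      rw [this]; exact dvd_sub (Dvd.dvd.mul_left h1 e) (dvd_mul_right _ _)

theorem AllPairs.mul_two {m : ℕ} (hm : m % 2 = 0) (hm0 : 0 < m) (h : AllPairs m) :
    AllPairs (m * 2) :=
  allPairs_step hm hm0 1 (by norm_num) gp_two (by decide) (by decide) (div_two m) h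

theorem AllPairs.mul_ten {m : ℕ} (hm : m % 2 = 0) (hm0 : 0 < m) (h : AllPairs m) :
    AllPairs (m * 10) :=
  allPairs_step hm hm0 3 (by norm_num) gp_ten (by decide) (by decide)
    (div_prime 5 (by norm_num) (by norm_num) 3 (by norm_num) (by norm_num) m) h

theorem AllPairs.mul_26 {m : ℕ} (hm : m % 2 = 0) (hm0 : 0 < m) (h : AllPairs m) :
    AllPairs (m * 26) :=
  allPairs_step hm hm0 5 (by norm_num) gp_26 (by decide) (by decide)
    (div_prime 13 (by norm_num) (by norm_num) 5 (by norm_num) (by norm_num) m) h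

theorem allPairs (a b c : ℕ) : AllPairs (4 * 2 ^ a * 10 ^ b * 26 ^ c) := by
  have hev : ∀ x : ℕ, (4 * x) % 2 = 0 := fun x => by omega
  induction c with
  | succ c ih =>
    have h1 : 4 * 2 ^ a * 10 ^ b * 26 ^ (c + 1) = 4 * 2 ^ a * 10 ^ b * 26 ^ c * 26 := by ring
    rw [h1]
    refine ih.mul_26 ?_ (by positivity)
    have : 4 * 2 ^ a * 10 ^ b * 26 ^ c = 4 * (2 ^ a * 10 ^ b * 26 ^ c) := by ring
    rw [this]; exact hev _
  | zero =>
    rw [pow_zero, mul_one]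
    induction b with
    | succ b ih =>
      have h1 : 4 * 2 ^ a * 10 ^ (b + 1) = 4 * 2 ^ a * 10 ^ b * 10 := by ring
      rw [h1]
      refine ih.mul_ten ?_ (by positivity)
      have : 4 * 2 ^ a * 10 ^ b = 4 * (2 ^ a * 10 ^ b) := by ring
      rw [this]; exact hev _
    | zero =>
      rw [pow_zero, mul_one]
      induction a with
      | succ a ih =>
        have h1 : 4 * 2 ^ (a + 1) = 4 * 2 ^ a * 2 := by ring
        rw [h1]
        exact ih.mul_two (hev _) (by positivity)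
      | zero => exact allPairs_four

end Pool.Agent.H28BS
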