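import Pool.Agent.H28BS.Defs

/-! From the norm identity in all commutative rings to vanishing autocorrelations, and back. -/

namespace Pool.Agent.H28BS

open Finset LaurentPolynomial

/-- evaluation of the first `n` terms of a sequence at `u` -/
def ev {R : Type} [CommRing R] (a : ℕ → ℤ) (n : ℕ) (u : R) : R :=
  ∑ i ∈ range n, (a i : R) * u ^ i

theorem ev_one (a : ℕ → ℤ) (n : ℕ) : ev a n (1 : ℤ) = ∑ i ∈ range n, a i := by
  unfold ev; simp

theorem ev_neg_one (a : ℕ → ℤ) (n : ℕ) : ev a n (-1 : ℤ) = ∑ i ∈ range n, (-1 : ℤ) ^ i * a i := by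
  unfold ev; refine Finset.sum_congr rfl (fun i _ => ?_); simp [mul_comm]

theorem ev_congr {R : Type} [CommRing R] {a b : ℕ → ℤ} {n : ℕ} (h : ∀ i, i < n → a i = b i) (u : R) :
    ev a n u = ev b n u := by
  unfold ev
  exact Finset.sum_congr rfl (fun i hi => by rw [h i (Finset.mem_range.mp hi)])

theorem ev_add {R : Type} [CommRing R] (a b : ℕ → ℤ) (n : ℕ) (u : R) :
    ev (fun i => a i + b i) n u = ev a n u + ev b n u := by
  unfold ev
  rw [← Finset.sum_add_distrib]
  exact Finset.sum_congr rfl (fun i _ => by push_cast; ring)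

theorem ev_sub {R : Type} [CommRing R] (a b : ℕ → ℤ) (n : ℕ) (u : R) :
    ev (fun i => a i - b i) n u = ev a n u - ev b n u := by
  unfold ev
  rw [← Finset.sum_sub_distrib]
  exact Finset.sum_congr rfl (fun i _ => by push_cast; ring)

theorem ev_smul {R : Type} [CommRing R] (c : ℤ) (a : ℕ → ℤ) (n : ℕ) (u : R) :
    ev (fun i => c * a i) n u = c * ev a n u := by
  unfold ev
  rw [Finset.mul_sum]
  exact Finset.sum_congr rfl (fun i _ => by push_cast; ring)

theorem ev_zero {R : Type} [CommRing R] (n : ℕ) (u : R) : ev (fun _ => 0) n u = 0 := by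
  unfold ev; simp

theorem ev_split {R : Type} [CommRing R] (a : ℕ → ℤ) (m k : ℕ) (u : R) :
    ev a (m + k) u = ev a m u + u ^ m * ev (fun i => a (m + i)) k u := by
  unfold ev
  rw [Finset.sum_range_add, Finset.mul_sum]
  congr 1
  exact Finset.sum_congr rfl (fun i _ => by rw [pow_add]; ring)

/-- evaluation cell by cell -/
theorem ev_cells {R : Type} [CommRing R] (f : ℕ → ℤ) (U s : ℕ) (u : R) :
    ev f (U * s) u = ∑ i ∈ range s, (u ^ U) ^ i * ev (fun r => f (U * i + r)) U u := by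
  induction s with
  | zero => simp [ev]
  | succ s ih =>
    rw [Nat.mul_succ, ev_split, ih, Finset.sum_range_succ, pow_mul]

theorem ev_rev {R : Type} [CommRing R] (b : ℕ → ℤ) (g : ℕ) (u v : R) (huv : u * v = 1) :
    ev (fun i => b (g - 1 - i)) g u = u ^ (g - 1) * ev b g v := by
  unfold ev
  rw [← Finset.sum_range_reflect, Finset.mul_sum]
  refine Finset.sum_congr rfl (fun i hi => ?_)
  rw [Finset.mem_range] at hi
  have h1 : g - 1 - (g - 1 - i) = i := by omega
  have h2 : g - 1 = (g - 1 - i) + i := by omega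
  simp only [h1]
  calc (b i : R) * u ^ (g - 1 - i) = (b i : R) * u ^ (g - 1 - i) * (u * v) ^ i := by
        rw [huv]; simp
    _ = (u ^ (g - 1 - i) * u ^ i) * ((b i : R) * v ^ i) := by rw [mul_pow]; ring
    _ = u ^ (g - 1) * ((b i : R) * v ^ i) := by rw [← pow_add, ← h2]

theorem intCast_eq_single (x : ℤ) : ((x : ℤ) : ℤ[T;T⁻¹]) = AddMonoidAlgebra.single 0 x := by
  rw [← eq_intCast (C : ℤ →+* ℤ[T;T⁻¹]) x]; rfl

theorem term_eq (x : ℤ) (e : ℤ) (i : ℕ) :
    ((x : ℤ) : ℤ[T;T⁻¹]) * (T e) ^ i = AddMonoidAlgebra.single ((i : ℤ) * e) x := by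
  rw [intCast_eq_single, T_pow]
  unfold T
  rw [AddMonoidAlgebra.single_mul_single]
  simp

/-- the coefficient of `T^j` in `a(T) a(T⁻¹)` is the autocorrelation at `j` -/
theorem coeff_pair (a : ℕ → ℤ) (n j : ℕ) (ha : ∀ i, n ≤ i → a i = 0) :
    (ev a n (T 1 : ℤ[T;T⁻¹]) * ev a n (T (-1) : ℤ[T;T⁻¹])).coeff (j : ℤ) =
      ∑ i ∈ range n, a i * a (i + j) := by
  unfold ev
  rw [Finset.sum_mul_sum]
  simp only [term_eq, AddMonoidAlgebra.single_mul_single]
  rw [Finset.sum_comm, AddMonoidAlgebra.coeff_sum, Finsupp.finsetSum_apply]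
  refine Finset.sum_congr rfl (fun k _ => ?_)
  rw [AddMonoidAlgebra.coeff_sum, Finsupp.finsetSum_apply]
  simp only [AddMonoidAlgebra.coeff_single, Finsupp.single_apply]
  have h : ∀ i : ℕ, ((i : ℤ) * 1 + (k : ℤ) * (-1) = (j : ℤ)) ↔ i = k + j := by
    intro i; constructor <;> intro h <;> omega
  simp only [h]
  rw [Finset.sum_ite_eq' (range n) (k + j) (fun i => a i * a k)]
  by_cases hk : k + j ∈ range n
  · rw [if_pos hk, mul_comm]
  · rw [if_neg hk, ha (k + j) (by simpa using hk), mul_zero]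

theorem coeff_intCast (c : ℤ) (j : ℕ) (hj : 1 ≤ j) : ((c : ℤ) : ℤ[T;T⁻¹]).coeff (j : ℤ) = 0 := by
  rw [intCast_eq_single, AddMonoidAlgebra.coeff_single, Finsupp.single_apply, if_neg]
  omega

/-- The norm identity in `ℤ[T;T⁻¹]` gives the vanishing of all autocorrelation sums. -/
theorem auto_of_norm (n : ℕ) (A B C D : ℕ → ℤ) (c : ℤ)
    (hA : ∀ i, n + 1 ≤ i → A i = 0) (hB : ∀ i, n + 1 ≤ i → B i = 0)
    (hC : ∀ i, n ≤ i → C i = 0) (hD : ∀ i, n ≤ i → D i = 0)
    (h : ∀ (R : Type) [CommRing R] (u v : R), u * v = 1 →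
      ev A (n + 1) u * ev A (n + 1) v + ev B (n + 1) u * ev B (n + 1) v +
        ev C n u * ev C n v + ev D n u * ev D n v = (c : R)) (j : ℕ) (hj : 1 ≤ j) :
    (∑ i ∈ range (n + 1), (A i * A (i + j) + B i * B (i + j))) +
      (∑ i ∈ range n, (C i * C (i + j) + D i * D (i + j))) = 0 := by
  have h1 := h ℤ[T;T⁻¹] (T 1) (T (-1)) (by rw [← T_add]; simp)
  have h2 := congrArg (fun x : ℤ[T;T⁻¹] => x.coeff (j : ℤ)) h1
  simp only [AddMonoidAlgebra.coeff_add, Finsupp.add_apply, coeff_pair _ _ _ hA, coeff_pair _ _ _ hB,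
    coeff_pair _ _ _ hC, coeff_pair _ _ _ hD, coeff_intCast c j hj] at h2
  rw [Finset.sum_add_distrib, Finset.sum_add_distrib]
  linarith

theorem sum_sum_split {M : Type} [AddCommMonoid M] (t : ℕ → ℕ → M) (n : ℕ) :
    ∑ i ∈ range n, ∑ k ∈ range n, t i k = ∑ k ∈ range n, t k k +
      ∑ k ∈ range n, ∑ j ∈ range (n - 1 - k), (t (k + (j + 1)) k + t k (k + (j + 1))) := by
  induction n with
  | zero => simp
  | succ n ih =>
    have e1 : ∑ i ∈ range (n + 1), ∑ k ∈ range (n + 1), t i k =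
        (∑ i ∈ range n, ∑ k ∈ range n, t i k) + (∑ k ∈ range n, (t n k + t k n)) + t n n := by
      rw [Finset.sum_range_succ]
      have : ∀ i ∈ range n, ∑ k ∈ range (n + 1), t i k = ∑ k ∈ range n, t i k + t i n :=
        fun i _ => Finset.sum_range_succ _ _
      rw [Finset.sum_congr rfl this, Finset.sum_add_distrib, Finset.sum_range_succ,
        Finset.sum_add_distrib]
      abel
    have e2 : ∑ k ∈ range (n + 1), ∑ j ∈ range (n + 1 - 1 - k),
          (t (k + (j + 1)) k + t k (k + (j + 1))) =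
        (∑ k ∈ range n, ∑ j ∈ range (n - 1 - k), (t (k + (j + 1)) k + t k (k + (j + 1)))) +
          ∑ k ∈ range n, (t n k + t k n) := by
      rw [Finset.sum_range_succ]
      have h0 : n + 1 - 1 - n = 0 := by omega
      rw [h0, Finset.sum_range_zero, add_zero, ← Finset.sum_add_distrib]
      refine Finset.sum_congr rfl (fun k hk => ?_)
      rw [Finset.mem_range] at hk
      have h1 : n + 1 - 1 - k = (n - 1 - k) + 1 := by omega
      rw [h1, Finset.sum_range_succ]
      have h2 : k + (n - 1 - k + 1) = n := by omega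
      rw [h2]
    rw [e1, e2, ih, Finset.sum_range_succ]
    abel

/-- the norm of a sequence in terms of its autocorrelations -/
theorem ev_mul_ev {R : Type} [CommRing R] (a : ℕ → ℤ) (n : ℕ) (u v : R) (huv : u * v = 1)
    (ha : ∀ i, n ≤ i → a i = 0) :
    ev a n u * ev a n v = ((∑ i ∈ range n, a i * a i : ℤ) : R) +
      ∑ j ∈ range n, ((∑ i ∈ range n, a i * a (i + (j + 1)) : ℤ) : R) * (u ^ (j + 1) + v ^ (j + 1)) := by
  unfold ev
  rw [Finset.sum_mul_sum, sum_sum_split]
  have hpow : ∀ i : ℕ, u ^ i * v ^ i = 1 := fun i => by rw [← mul_pow, huv, one_pow]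
  congr 1
  · push_cast
    refine Finset.sum_congr rfl (fun i _ => ?_)
    linear_combination (a i : R) * a i * hpow i
  · have e1 : ∀ k ∈ range n, ∑ j ∈ range (n - 1 - k),
        ((a (k + (j + 1)) : R) * u ^ (k + (j + 1)) * (a k * v ^ k) +
          a k * u ^ k * (a (k + (j + 1)) * v ^ (k + (j + 1)))) =
        ∑ j ∈ range n, ((a k * a (k + (j + 1)) : ℤ) : R) * (u ^ (j + 1) + v ^ (j + 1)) := by
      intro k hk
      rw [Finset.mem_range] at hk
      have hsub : range (n - 1 - k) ⊆ range n := Finset.range_subset_range.mpr (by omega)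
      rw [← Finset.sum_subset hsub]
      · refine Finset.sum_congr rfl (fun j _ => ?_)
        push_cast
        rw [pow_add u k (j + 1), pow_add v k (j + 1)]
        linear_combination (a k : R) * a (k + (j + 1)) * (u ^ (j + 1) + v ^ (j + 1)) * hpow k
      · intro j _ hj2
        rw [Finset.mem_range] at hj2
        rw [ha (k + (j + 1)) (by omega)]
        simp
    rw [Finset.sum_congr rfl e1, Finset.sum_comm]
    refine Finset.sum_congr rfl (fun j _ => ?_)
    push_cast
    rw [Finset.sum_mul]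

/-- A Golay pair satisfies the norm identity in every commutative ring. -/
theorem norm_of_golay (g : ℕ) (P Q : ℕ → ℤ)
    (hP : ∀ i, i < g → (P i = 1 ∨ P i = -1)) (hP0 : ∀ i, g ≤ i → P i = 0)
    (hQ : ∀ i, i < g → (Q i = 1 ∨ Q i = -1)) (hQ0 : ∀ i, g ≤ i → Q i = 0)
    (h : ∀ j : ℕ, 1 ≤ j → ∑ i ∈ range g, (P i * P (i + j) + Q i * Q (i + j)) = 0)
    {R : Type} [CommRing R] (u v : R) (huv : u * v = 1) :
    ev P g u * ev P g v + ev Q g u * ev Q g v = 2 * g := by
  rw [ev_mul_ev P g u v huv hP0, ev_mul_ev Q g u v huv hQ0]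
  have h1 : ∀ a : ℕ → ℤ, (∀ i, i < g → (a i = 1 ∨ a i = -1)) → ∑ i ∈ range g, a i * a i = (g : ℤ) := by
    intro a ha
    have : ∀ i ∈ range g, a i * a i = 1 := by
      intro i hi
      rcases ha i (Finset.mem_range.mp hi) with h | h <;> rw [h] <;> norm_num
    rw [Finset.sum_congr rfl this]; simp
  rw [h1 P hP, h1 Q hQ]
  have h2 : ∑ j ∈ range g, ((∑ i ∈ range g, P i * P (i + (j + 1)) : ℤ) : R) *
        (u ^ (j + 1) + v ^ (j + 1)) +
      ∑ j ∈ range g, ((∑ i ∈ range g, Q i * Q (i + (j + 1)) : ℤ) : R) *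
        (u ^ (j + 1) + v ^ (j + 1)) = 0 := by
    rw [← Finset.sum_add_distrib]
    refine Finset.sum_eq_zero (fun j _ => ?_)
    have h3 := h (j + 1) (by omega)
    rw [Finset.sum_add_distrib] at h3
    have h4 : ((∑ i ∈ range g, P i * P (i + (j + 1)) : ℤ) : R) +
        ((∑ i ∈ range g, Q i * Q (i + (j + 1)) : ℤ) : R) = 0 := by
      rw [← Int.cast_add, h3, Int.cast_zero]
    linear_combination (u ^ (j + 1) + v ^ (j + 1)) * h4
  rw [Int.cast_natCast]
  linear_combination h2

end Pool.Agent.H28BS
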