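import Pool.Agent.H28BS.CliqueZero

/-! Complete bipartite pieces of `Γ_n`, `n = 2sg + s + g` with `s ∈ {2, 10, 26}` and `4 ∣ g`. -/

namespace Pool.Agent.H28BS

open Finset

theorem val_two : Val 2 2 0 0 2 := ⟨_, _, gp_two, by decide, by decide, by decide, by decide⟩
theorem val_ten : Val 10 4 2 (-2) (-4) := ⟨_, _, gp_ten, by decide, by decide, by decide, by decide⟩
theorem val_26 : Val 26 6 4 (-4) (-6) := ⟨_, _, gp_26, by decide, by decide, by decide, by decide⟩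

/-- the values used on the two sides -/
theorem val_pairs {s : ℕ} (hs : s = 2 ∨ s = 10 ∨ s = 26) :
    ∃ f h f' h' : ℤ, Val s f h f' (-h') ∧ f ^ 2 + h ^ 2 = 2 * s ∧ f' ^ 2 + h' ^ 2 = 2 * s ∧
      f % 4 = 2 ∧ h % 4 = 0 ∧ f' % 4 = 0 ∧ h' % 4 = 2 ∧ h' ^ 2 ≠ 0 := by
  rcases hs with rfl | rfl | rfl
  · refine ⟨2, 0, 0, 2, ?_, by norm_num, by norm_num, by norm_num, by norm_num, by norm_num, by norm_num,
      by norm_num⟩
    exact val_two.signs (by norm_num) (by norm_num) (by norm_num) (by norm_num) (by norm_num)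
      (by norm_num)
  · refine ⟨2, 4, 4, 2, ?_, by norm_num, by norm_num, by norm_num, by norm_num, by norm_num, by norm_num,
      by norm_num⟩
    exact val_ten.swap.signs (by norm_num) (by norm_num) (by norm_num) (by norm_num) (by norm_num)
      (by norm_num)
  · refine ⟨6, 4, 4, 6, ?_, by norm_num, by norm_num, by norm_num, by norm_num, by norm_num, by norm_num,
      by norm_num⟩
    exact val_26.signs (by norm_num) (by norm_num) (by norm_num) (by norm_num) (by norm_num)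
      (by norm_num)

/-- counting distinct vertices for a fixed second representation -/
theorem fixed_count {n s g : ℕ} (hn : n = 2 * s * g + s + g) (hg4 : g % 4 = 0) {f h : ℤ}
    (h2 : f ^ 2 + h ^ 2 = 2 * s) (hf : f % 2 = 0) (hh : h % 2 = 0) (T : Finset (ℤ × ℤ))
    (hT : ∀ x ∈ T, x.1 ^ 2 + x.2 ^ 2 = 2 * g) (N : ℕ)
    (hN : ∀ x0 : ℤ × ℤ, ∀ E : Finset (ℤ × ℤ), (∀ x ∈ E, x.1 ^ 2 + x.2 ^ 2 = 2 * g ∧ x.1 * f = x0.1 * f ∧
      hX x.1 x.2 f h ^ 2 = hX x0.1 x0.2 f h ^ 2 ∧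
      (hZ x.1 x.2 h * hW x.2 f h) ^ 2 = (hZ x0.1 x0.2 h * hW x0.2 f h) ^ 2) → E.card ≤ N) :
    ∃ S : Finset (Vertex n), T.card ≤ N * S.card ∧
      ∀ v ∈ S, ∃ p q : ℤ, ∃ h1 : p ^ 2 + q ^ 2 = 2 * g, v = vg hn p q f h h1 h2 := by
  classical
  let F : {x // x ∈ T} → Vertex n := fun x => vg hn x.1.1 x.1.2 f h (hT x.1 x.2) h2
  refine ⟨Finset.univ.image F, ?_, ?_⟩
  · have h0 : (Finset.univ : Finset {x // x ∈ T}).card = T.card := by
      rw [Finset.card_univ, Fintype.card_coe]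
    rw [← h0]
    refine Finset.card_le_mul_card_image _ N ?_
    intro v hv
    rw [Finset.mem_image] at hv
    obtain ⟨e0, _, rfl⟩ := hv
    have hmap : ((Finset.univ.filter (fun x => F x = F e0)).map
        (Function.Embedding.subtype (fun e => e ∈ T))).card ≤ N := by
      refine hN e0.1 _ ?_
      intro e he
      rw [Finset.mem_map] at he
      obtain ⟨x, hx, rfl⟩ := he
      rw [Finset.mem_filter] at hx
      obtain ⟨_, hx⟩ := hx
      have p1 := even_of_norm hg4 (hT x.1 x.2)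
      have p3 := even_of_norm hg4 (hT e0.1 e0.2)
      obtain ⟨k1, k2, k3⟩ := vg_inv hn (hT x.1 x.2) h2 (hT e0.1 e0.2) h2
        p1.1 p1.2 hf hh p3.1 p3.2 hf hh hx
      exact ⟨hT x.1 x.2, k2, k1, k3⟩
    rw [Finset.card_map] at hmap
    exact hmap
  · intro v hv
    rw [Finset.mem_image] at hv
    obtain ⟨x, _, rfl⟩ := hv
    exact ⟨x.1.1, x.1.2, hT x.1 x.2, rfl⟩

/-- for `f ≠ 0` the fibres have at most two elements -/
theorem fib_two {g : ℕ} {f h : ℤ} (hf : f ≠ 0) (x0 : ℤ × ℤ) (E : Finset (ℤ × ℤ))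
    (hE : ∀ x ∈ E, x.1 ^ 2 + x.2 ^ 2 = 2 * g ∧ x.1 * f = x0.1 * f ∧
      hX x.1 x.2 f h ^ 2 = hX x0.1 x0.2 f h ^ 2 ∧
      (hZ x.1 x.2 h * hW x.2 f h) ^ 2 = (hZ x0.1 x0.2 h * hW x0.2 f h) ^ 2) : E.card ≤ 2 := by
  classical
  rcases E.eq_empty_or_nonempty with h0 | ⟨e0, he0⟩
  · rw [h0]; simp
  · have hsub : E ⊆ {e0, (e0.1, - e0.2)} := by
      intro e he
      obtain ⟨a1, a2, a3, a4⟩ := hE e he
      obtain ⟨b1, b2, b3, b4⟩ := hE e0 he0
      have hp : e.1 = e0.1 := mul_right_cancel₀ hf (by rw [a2, b2])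
      have hq : e.2 ^ 2 = e0.2 ^ 2 := by rw [hp] at a1; linarith
      rw [Finset.mem_insert, Finset.mem_singleton]
      rcases sq_eq_sq_iff_eq_or_eq_neg.mp hq with u | u
      · left; exact Prod.ext hp u
      · right; exact Prod.ext hp u
    exact le_trans (Finset.card_le_card hsub) (Finset.card_le_two)

/-- for `f = 0`, `h ≠ 0` the fibres have at most four elements -/
theorem fib_four {g : ℕ} {h : ℤ} (hh : h ≠ 0) (x0 : ℤ × ℤ) (E : Finset (ℤ × ℤ))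
    (hE : ∀ x ∈ E, x.1 ^ 2 + x.2 ^ 2 = 2 * g ∧ x.1 * 0 = x0.1 * 0 ∧
      hX x.1 x.2 0 h ^ 2 = hX x0.1 x0.2 0 h ^ 2 ∧
      (hZ x.1 x.2 h * hW x.2 0 h) ^ 2 = (hZ x0.1 x0.2 h * hW x0.2 0 h) ^ 2) : E.card ≤ 4 := by
  classical
  have hpos : h ^ 2 + 1 ≠ 0 := by positivity
  have hinj : ∀ x y : ℤ × ℤ, hX x.1 x.2 0 h = hX y.1 y.2 0 h → hZ x.1 x.2 h = hZ y.1 y.2 h → x = y := by
    intro x y e1 e2
    unfold hX at e1
    unfold hZ at e2
    have e3 : (h ^ 2 + 1) * x.1 = (h ^ 2 + 1) * y.1 := by linear_combination e1 - h * e2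
    have e4 : (h ^ 2 + 1) * x.2 = (h ^ 2 + 1) * y.2 := by linear_combination h * e1 + e2
    exact Prod.ext (mul_left_cancel₀ hpos e3) (mul_left_cancel₀ hpos e4)
  have hmaps : ∀ e ∈ E, (hX e.1 e.2 0 h, hZ e.1 e.2 h) ∈
      (({hX x0.1 x0.2 0 h, -hX x0.1 x0.2 0 h} : Finset ℤ) ×ˢ
        ({hZ x0.1 x0.2 h, -hZ x0.1 x0.2 h} : Finset ℤ)) := by
    intro e he
    obtain ⟨a1, a2, a3, a4⟩ := hE e he
    rw [Finset.mem_product]
    constructor
    · rw [Finset.mem_insert, Finset.mem_singleton]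
      exact sq_eq_sq_iff_eq_or_eq_neg.mp a3
    · rw [Finset.mem_insert, Finset.mem_singleton]
      refine sq_eq_sq_iff_eq_or_eq_neg.mp ?_
      have hw : ∀ q : ℤ, hW q 0 h = h := by intro q; unfold hW; ring
      rw [hw, hw, mul_pow, mul_pow] at a4
      exact mul_right_cancel₀ (pow_ne_zero 2 hh) a4
  have hc := Finset.card_le_mul_card_image_of_maps_to hmaps 1 (by
    rintro ⟨x, m⟩ _
    rw [Finset.card_le_one]
    intro y hy z hz
    rw [Finset.mem_filter, Prod.mk.injEq] at hy hz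
    exact hinj y z (by rw [hy.2.1, hz.2.1]) (by rw [hy.2.2, hz.2.2]))
  have h2 : (({hX x0.1 x0.2 0 h, -hX x0.1 x0.2 0 h} : Finset ℤ) ×ˢ
        ({hZ x0.1 x0.2 h, -hZ x0.1 x0.2 h} : Finset ℤ)).card ≤ 4 := by
    rw [Finset.card_product]
    have i1 : ({hX x0.1 x0.2 0 h, -hX x0.1 x0.2 0 h} : Finset ℤ).card ≤ 2 := Finset.card_le_two
    have i2 : ({hZ x0.1 x0.2 h, -hZ x0.1 x0.2 h} : Finset ℤ).card ≤ 2 := Finset.card_le_two
    nlinarith
  omega

theorem Adj.symm {n : ℕ} {x y : Vertex n} (h : Adj n x y) : Adj n y x := by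
  obtain ⟨A, B, C, D, h1, h2⟩ := h
  exact ⟨A, B, C, D, h1, h2.symm⟩

theorem biclique (a b c : ℕ) {s g n : ℕ} (hs : s = 2 ∨ s = 10 ∨ s = 26)
    (hg : g = 4 * 2 ^ a * 10 ^ b * 26 ^ c) (hn : n = 2 * s * g + s + g) :
    ∃ S0 S1 : Finset (Vertex n), (b + 1) * (c + 1) ≤ S0.card ∧ (b + 1) * (c + 1) ≤ S1.card ∧
      3 * ((b + 1) * (c + 1)) ≤ S0.card + S1.card ∧
      (∀ x ∈ S0, ¬ ∃ r ∈ x.1, r % 4 = 2) ∧ (∀ x ∈ S1, ∃ r ∈ x.1, r % 4 = 2) ∧
      ∀ x ∈ S0, ∀ y ∈ S1, Adj n x y := by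
  classical
  have hg4 : g % 4 = 0 := by rw [hg]; exact (shape_mod a b c).1
  have hg0 : 1 ≤ g := by have : 0 < g := by rw [hg]; positivity
                         omega
  have hs2 : s % 2 = 0 := by rcases hs with rfl | rfl | rfl <;> norm_num
  have hs0 : 1 ≤ s := by rcases hs with rfl | rfl | rfl <;> norm_num
  have hAg : AllPairs g := by rw [hg]; exact allPairs a b c
  obtain ⟨f, h, f', h', hv, e1, e2, m1, m2, m3, m4, m5⟩ := val_pairs hs
  obtain ⟨T, hT, hTn⟩ := reps_exist a b c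
  rw [← hg] at hTn
  obtain ⟨U, hU, hU'⟩ := fixed_count hn hg4 e1 (by omega) (by omega) T hTn 2
    (fun x0 E hE => fib_two (by omega) x0 E hE)
  have hV0 : ∃ S : Finset (Vertex n), T.card ≤ 4 * S.card ∧
      ∀ v ∈ S, ∃ p q : ℤ, ∃ h1 : p ^ 2 + q ^ 2 = 2 * g, v = vg hn p q f' h' h1 e2 := by
    by_cases hf' : f' = 0
    · subst hf'
      exact fixed_count hn hg4 e2 (by omega) (by omega) T hTn 4
        (fun x0 E hE => fib_four (by omega) x0 E hE)
    · obtain ⟨S, hS1, hS2⟩ := fixed_count hn hg4 e2 (by omega) (by omega) T hTn 2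
        (fun x0 E hE => fib_two hf' x0 E hE)
      exact ⟨S, by omega, hS2⟩
  obtain ⟨V, hV, hV'⟩ := hV0
  have hTc : T.card = 4 * ((b + 1) * (c + 1)) := by rw [hT]; ring
  rw [hTc] at hU hV
  have hadj : ∀ x ∈ U, ∀ y ∈ V, Adj n x y := by
    intro x hx y hy
    obtain ⟨p, q, k1, rfl⟩ := hU' x hx
    obtain ⟨p', q', k2, rfl⟩ := hV' y hy
    exact vg_adj hn hs0 hg0 hs2 (by omega) _ _ _ _ (hAg _ _ _ _ k1 k2) hv
  have tU : ∀ x ∈ U, ((∃ r ∈ x.1, r % 4 = 2) ↔ a + b + c = 0) := by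
    intro x hx
    obtain ⟨p, q, k1, rfl⟩ := hU' x hx
    have p1 := even_of_norm hg4 k1
    rw [vg_type hn _ _ p1.1 p1.2 (by omega) (by omega), ← mod_four_of_shape hg k1]
    constructor <;> intro k <;> omega
  have tV : ∀ x ∈ V, ((∃ r ∈ x.1, r % 4 = 2) ↔ ¬ a + b + c = 0) := by
    intro x hx
    obtain ⟨p, q, k1, rfl⟩ := hV' x hx
    have p1 := even_of_norm hg4 k1
    have p2 := p1.2
    rw [vg_type hn _ _ p1.1 p1.2 (by omega) (by omega), ← mod_four_of_shape hg k1]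
    constructor <;> intro k <;> omega
  by_cases hz : a + b + c = 0
  · refine ⟨V, U, by omega, by omega, by omega, ?_, ?_, ?_⟩
    · intro x hx k; exact (tV x hx).mp k hz
    · intro x hx; exact (tU x hx).mpr hz
    · intro x hx y hy; exact (hadj y hy x hx).symm
  · refine ⟨U, V, by omega, by omega, by omega, ?_, ?_, hadj⟩
    · intro x hx k; exact hz ((tU x hx).mp k)
    · intro x hx; exact (tV x hx).mpr hz

end Pool.Agent.H28BS
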