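import Mathlib

/-! Many representations of `8 * 2 ^ a * 10 ^ b * 26 ^ c` as a sum of two squares. -/

namespace Pool.Agent.H28BS

open Finset

/-- multiplication by `e - i` -/
def Lp (e : ℤ) (x : ℤ × ℤ) : ℤ × ℤ := (e * x.1 + x.2, e * x.2 - x.1)
/-- multiplication by `e + i` -/
def Lm (e : ℤ) (x : ℤ × ℤ) : ℤ × ℤ := (e * x.1 - x.2, e * x.2 + x.1)
/-- the norm -/
def nrm (x : ℤ × ℤ) : ℤ := x.1 ^ 2 + x.2 ^ 2

theorem nrm_Lp (e : ℤ) (x : ℤ × ℤ) : nrm (Lp e x) = (e ^ 2 + 1) * nrm x := by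
  simp only [nrm, Lp]; ring

theorem nrm_Lm (e : ℤ) (x : ℤ × ℤ) : nrm (Lm e x) = (e ^ 2 + 1) * nrm x := by
  simp only [nrm, Lm]; ring

theorem Lp_inj (e : ℤ) : Function.Injective (Lp e) := by
  intro x y h
  simp only [Lp, Prod.mk.injEq] at h
  obtain ⟨h1, h2⟩ := h
  have hpos : e ^ 2 + 1 ≠ 0 := by positivity
  have e1 : (e ^ 2 + 1) * x.1 = (e ^ 2 + 1) * y.1 := by linear_combination e * h1 - h2
  have e2 : (e ^ 2 + 1) * x.2 = (e ^ 2 + 1) * y.2 := by linear_combination e * h2 + h1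
  exact Prod.ext (mul_left_cancel₀ hpos e1) (mul_left_cancel₀ hpos e2)

theorem Lm_inj (e : ℤ) : Function.Injective (Lm e) := by
  intro x y h
  simp only [Lm, Prod.mk.injEq] at h
  obtain ⟨h1, h2⟩ := h
  have hpos : e ^ 2 + 1 ≠ 0 := by positivity
  have e1 : (e ^ 2 + 1) * x.1 = (e ^ 2 + 1) * y.1 := by linear_combination e * h1 + h2
  have e2 : (e ^ 2 + 1) * x.2 = (e ^ 2 + 1) * y.2 := by linear_combination e * h2 - h1
  exact Prod.ext (mul_left_cancel₀ hpos e1) (mul_left_cancel₀ hpos e2)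

theorem nrm_Lm_iter (e : ℤ) (x : ℤ × ℤ) (b : ℕ) : nrm ((Lm e)^[b] x) = (e ^ 2 + 1) ^ b * nrm x := by
  induction b with
  | zero => simp
  | succ b ih => rw [Function.iterate_succ_apply', nrm_Lm, ih]; ring

/-- images under `Lp e` satisfy `l ∣ q - e p` -/
theorem Lp_class {l e : ℤ} (h : l ∣ e ^ 2 + 1) (x : ℤ × ℤ) : l ∣ (Lp e x).2 - e * (Lp e x).1 := by
  have : (Lp e x).2 - e * (Lp e x).1 = (e ^ 2 + 1) * (-x.1) := by simp only [Lp]; ring
  rw [this]; exact Dvd.dvd.mul_right h _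

/-- iterated images under `Lm e` of pairs with norm prime to `l` satisfy `l ∣ q + e p` and `¬ l ∣ p` -/
theorem Lm_class {l e : ℤ} (hl : Prime l) (h : l ∣ e ^ 2 + 1) (h2e : ¬ l ∣ 2 * e) (x : ℤ × ℤ)
    (hx : ¬ l ∣ nrm x) (b : ℕ) :
    l ∣ ((Lm e)^[b + 1] x).2 + e * ((Lm e)^[b + 1] x).1 ∧ ¬ l ∣ ((Lm e)^[b + 1] x).1 := by
  have hA : ∀ y : ℤ × ℤ, l ∣ (Lm e y).2 + e * (Lm e y).1 := by
    intro y
    have : (Lm e y).2 + e * (Lm e y).1 = (e ^ 2 + 1) * y.1 := by simp only [Lm]; ring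
    rw [this]; exact Dvd.dvd.mul_right h _
  induction b with
  | zero =>
    rw [Function.iterate_one]
    refine ⟨hA x, fun hdiv => hx ?_⟩
    -- l ∣ e x1 - x2  implies  l ∣ norm
    have h1 : nrm x = (e ^ 2 + 1) * x.1 ^ 2 - (e * x.1 - x.2) * (e * x.1 + x.2) := by
      simp only [nrm]; ring
    rw [h1]
    exact dvd_sub (Dvd.dvd.mul_right h _) (Dvd.dvd.mul_right hdiv _)
  | succ b ih =>
    rw [Function.iterate_succ_apply']
    refine ⟨hA _, fun hdiv => ?_⟩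
    obtain ⟨ih1, ih2⟩ := ih
    set y := (Lm e)^[b + 1] x
    -- l ∣ e y1 - y2 and l ∣ y2 + e y1 gives l ∣ 2 e y1
    have h1 : l ∣ 2 * e * y.1 := by
      have h2 : 2 * e * y.1 = (Lm e y).1 + (y.2 + e * y.1) := by simp only [Lm]; ring
      rw [h2]; exact dvd_add hdiv ih1
    rcases hl.dvd_or_dvd h1 with h3 | h3
    · exact h2e h3
    · exact ih2 h3

/-- the recursive sets of representations -/
def Tset (e : ℤ) (T0 : Finset (ℤ × ℤ)) : ℕ → Finset (ℤ × ℤ)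
  | 0 => T0
  | b + 1 => (Tset e T0 b).image (Lp e) ∪ T0.image ((Lm e)^[b + 1])

theorem Tset_spec {l e : ℤ} (hl : Prime l) (h : l ∣ e ^ 2 + 1) (h2e : ¬ l ∣ 2 * e)
    (T0 : Finset (ℤ × ℤ)) (N : ℤ) (hN : ∀ x ∈ T0, nrm x = N) (hlN : ¬ l ∣ N) (b : ℕ) :
    (Tset e T0 b).card = (b + 1) * T0.card ∧ ∀ x ∈ Tset e T0 b, nrm x = (e ^ 2 + 1) ^ b * N := by
  induction b with
  | zero => simpa [Tset] using hN
  | succ b ih =>
    obtain ⟨ih1, ih2⟩ := ih
    constructor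
    · rw [Tset, Finset.card_union_of_disjoint, Finset.card_image_of_injective _ (Lp_inj e),
        Finset.card_image_of_injective _ ((Lm_inj e).iterate _), ih1]
      · ring
      · rw [Finset.disjoint_left]
        intro y hy1 hy2
        rw [Finset.mem_image] at hy1 hy2
        obtain ⟨x1, _, rfl⟩ := hy1
        obtain ⟨x2, hx2, hxy⟩ := hy2
        have h1 := Lp_class h x1
        have h2 := Lm_class hl h h2e x2 (by rw [hN x2 hx2]; exact hlN) b
        rw [hxy] at h2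
        obtain ⟨h3, h4⟩ := h2
        have h5 : l ∣ 2 * e * (Lp e x1).1 := by
          have : 2 * e * (Lp e x1).1 = ((Lp e x1).2 + e * (Lp e x1).1) -
              ((Lp e x1).2 - e * (Lp e x1).1) := by ring
          rw [this]; exact dvd_sub h3 h1
        rcases hl.dvd_or_dvd h5 with h6 | h6
        · exact h2e h6
        · exact h4 h6
    · intro x hx
      rw [Tset, Finset.mem_union, Finset.mem_image, Finset.mem_image] at hx
      rcases hx with ⟨y, hy, rfl⟩ | ⟨y, hy, rfl⟩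
      · rw [nrm_Lp, ih2 y hy]; ring
      · rw [nrm_Lm_iter, hN y hy]

/-- the four representations of `8 * 2 ^ a` -/
def T00 : ℕ → Finset (ℤ × ℤ)
  | 0 => {(2, 2), (2, -2), (-2, 2), (-2, -2)}
  | a + 1 => (T00 a).image (Lp 1)

theorem T00_spec (a : ℕ) : (T00 a).card = 4 ∧ ∀ x ∈ T00 a, nrm x = 8 * 2 ^ a := by
  induction a with
  | zero =>
    refine ⟨by decide, fun x hx => ?_⟩
    simp only [T00, Finset.mem_insert, Finset.mem_singleton] at hx
    rcases hx with rfl | rfl | rfl | rfl <;> norm_num [nrm]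
  | succ a ih =>
    refine ⟨by rw [T00, Finset.card_image_of_injective _ (Lp_inj 1)]; exact ih.1, fun x hx => ?_⟩
    rw [T00, Finset.mem_image] at hx
    obtain ⟨y, hy, rfl⟩ := hx
    rw [nrm_Lp, ih.2 y hy]; ring

/-- There are at least `4 (b+1) (c+1)` representations of `8 * 2 ^ a * 10 ^ b * 26 ^ c`. -/
theorem reps_exist (a b c : ℕ) : ∃ T : Finset (ℤ × ℤ), T.card = 4 * (b + 1) * (c + 1) ∧
    ∀ x ∈ T, x.1 ^ 2 + x.2 ^ 2 = 2 * ((4 * 2 ^ a * 10 ^ b * 26 ^ c : ℕ) : ℤ) := by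
  have p13 : Prime (13 : ℤ) := by norm_num [← Nat.prime_iff_prime_int]
  have p5 : Prime (5 : ℤ) := by norm_num [← Nat.prime_iff_prime_int]
  have n13 : ¬ (13 : ℤ) ∣ 8 * 2 ^ a := by
    intro h
    have e : (2 : ℤ) ^ (a + 3) = 8 * 2 ^ a := by ring
    have : (13 : ℤ) ∣ 2 ^ (a + 3) := by rw [e]; exact h
    exact absurd (p13.dvd_of_dvd_pow this) (by norm_num)
  obtain ⟨h1, h2⟩ := T00_spec a
  obtain ⟨h3, h4⟩ := Tset_spec (e := 5) p13 (by norm_num) (by norm_num) (T00 a) _ h2 n13 c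
  have n5 : ¬ (5 : ℤ) ∣ (5 ^ 2 + 1) ^ c * (8 * 2 ^ a) := by
    intro h
    rcases p5.dvd_or_dvd h with h | h
    · exact absurd (p5.dvd_of_dvd_pow h) (by norm_num)
    · have e : (2 : ℤ) ^ (a + 3) = 8 * 2 ^ a := by ring
      have : (5 : ℤ) ∣ 2 ^ (a + 3) := by rw [e]; exact h
      exact absurd (p5.dvd_of_dvd_pow this) (by norm_num)
  obtain ⟨h5, h6⟩ := Tset_spec (e := 3) p5 (by norm_num) (by norm_num) (Tset 5 (T00 a) c) _ h4 n5 b
  refine ⟨Tset 3 (Tset 5 (T00 a) c) b, ?_, ?_⟩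
  · rw [h5, h3, h1]; ring
  · intro x hx
    have := h6 x hx
    simp only [nrm] at this
    rw [this]; push_cast; ring

end Pool.Agent.H28BS
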