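import Pool.Agent.H28BS.Exist
import Pool.Agent.H28BS.Reps

/-! Tools for the cliques: values of the composed base sequences, and invariants of vertices. -/

namespace Pool.Agent.H28BS

open Finset

theorem base_of_vals {s g n : ℕ} (hn : n = 2 * s * g + s + g) (hs1 : 1 ≤ s) (hg1 : 1 ≤ g)
    {p q p' q' f h f' h' : ℤ} (hPQ : Val g p q p' q') (hFG : Val s f h f' h') :
    ∃ A B C D : ℕ → ℤ, IsBase n A B C D ∧
      ev A (n + 1) (1 : ℤ) = (q * h + f + p) + (1 - p * f) ∧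
      ev B (n + 1) (1 : ℤ) = (q * h + f + p) - (1 - p * f) ∧
      ev C n (1 : ℤ) = (q - h * p) + (h - q * f) ∧
      ev D n (1 : ℤ) = (q - h * p) - (h - q * f) ∧
      ev A (n + 1) (-1 : ℤ) =
        ((-1) ^ (s - 1) * q' * h' + (-1) ^ g * f' + (-1) ^ s * p') + ((-1) ^ (s + g) - p' * f') ∧
      ev B (n + 1) (-1 : ℤ) =
        ((-1) ^ (s - 1) * q' * h' + (-1) ^ g * f' + (-1) ^ s * p') - ((-1) ^ (s + g) - p' * f') ∧
      ev C n (-1 : ℤ) = (q' + h' * p') + (h' - (-1) ^ (s + g - 1) * q' * f') ∧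
      ev D n (-1 : ℤ) = (q' + h' * p') - (h' - (-1) ^ (s + g - 1) * q' * f') := by
  subst hn
  obtain ⟨P, Q, ⟨hP, hQ, hPQ'⟩, h1, h2, h3, h4⟩ := hPQ
  obtain ⟨F, G, ⟨hF, hG, hFG'⟩, h5, h6, h7, h8⟩ := hFG
  obtain ⟨A, B, C, D, hb, hv⟩ := compose s g hs1 hg1 P Q F G hP hQ hF hG hPQ' hFG'
  obtain ⟨x1, x2, x3, x4⟩ := hv 1 (by norm_num)
  obtain ⟨y1, y2, y3, y4⟩ := hv (-1) (by norm_num)
  rw [h1, h2, h5, h6] at x1 x2 x3 x4
  rw [h3, h4, h7, h8] at y1 y2 y3 y4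
  simp only [one_pow, one_mul] at x1 x2 x3 x4
  refine ⟨A, B, C, D, hb, ?_, ?_, ?_, ?_, y1, y2, ?_, ?_⟩
  · rw [x1]
  · rw [x2]
  · rw [x3]
  · rw [x4]
  · rw [y3]; ring
  · rw [y4]; ring

/-- the odd and the even part of a vertex are determined -/
theorem inv_of_eq {a b c d a' b' c' d' : ℤ} (ha : a % 2 = 1) (hb : b % 2 = 1) (hc : c % 2 = 0)
    (hd : d % 2 = 0) (ha' : a' % 2 = 1) (hb' : b' % 2 = 1) (hc' : c' % 2 = 0) (hd' : d' % 2 = 0)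
    (h : ({a.natAbs, b.natAbs, c.natAbs, d.natAbs} : Multiset ℕ) =
      {a'.natAbs, b'.natAbs, c'.natAbs, d'.natAbs}) :
    a ^ 2 + b ^ 2 = a' ^ 2 + b' ^ 2 ∧ (a * b) ^ 2 = (a' * b') ^ 2 ∧
      c ^ 2 + d ^ 2 = c' ^ 2 + d' ^ 2 ∧ (c * d) ^ 2 = (c' * d') ^ 2 := by
  have ra : a.natAbs % 2 = 1 := by omega
  have rb : b.natAbs % 2 = 1 := by omega
  have rc : ¬ c.natAbs % 2 = 1 := by omega
  have rd : ¬ d.natAbs % 2 = 1 := by omega
  have ra' : a'.natAbs % 2 = 1 := by omega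
  have rb' : b'.natAbs % 2 = 1 := by omega
  have rc' : ¬ c'.natAbs % 2 = 1 := by omega
  have rd' : ¬ d'.natAbs % 2 = 1 := by omega
  have s1 := congrArg (fun M : Multiset ℕ =>
    (M.map (fun x : ℕ => if x % 2 = 1 then ((x : ℤ)) ^ 2 else 0)).sum) h
  have s2 := congrArg (fun M : Multiset ℕ =>
    (M.map (fun x : ℕ => if x % 2 = 1 then ((x : ℤ)) ^ 2 else 1)).prod) h
  have s3 := congrArg (fun M : Multiset ℕ =>
    (M.map (fun x : ℕ => if x % 2 = 1 then 0 else ((x : ℤ)) ^ 2)).sum) h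
  have s4 := congrArg (fun M : Multiset ℕ =>
    (M.map (fun x : ℕ => if x % 2 = 1 then 1 else ((x : ℤ)) ^ 2)).prod) h
  simp only [Multiset.insert_eq_cons, Multiset.map_cons, Multiset.sum_cons, Multiset.prod_cons,
    Multiset.map_singleton, Multiset.sum_singleton, Multiset.prod_singleton, if_pos ra, if_pos rb,
    if_neg rc, if_neg rd, if_pos ra', if_pos rb', if_neg rc', if_neg rd', Int.natCast_natAbs,
    sq_abs, add_zero, mul_one, zero_add, one_mul] at s1 s2 s3 s4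
  refine ⟨s1, ?_, s3, ?_⟩
  · rw [mul_pow, mul_pow]; exact s2
  · rw [mul_pow, mul_pow]; exact s4

/-- from the invariants to the squares of the half sums -/
theorem half_sums {X Y X' Y' : ℤ} (h1 : (X + Y) ^ 2 + (X - Y) ^ 2 = (X' + Y') ^ 2 + (X' - Y') ^ 2)
    (h2 : ((X + Y) * (X - Y)) ^ 2 = ((X' + Y') * (X' - Y')) ^ 2) :
    (X ^ 2 = X' ^ 2 ∧ Y ^ 2 = Y' ^ 2) ∨ (X ^ 2 = Y' ^ 2 ∧ Y ^ 2 = X' ^ 2) := by
  have h3 : X ^ 2 + Y ^ 2 = X' ^ 2 + Y' ^ 2 := by linarith [h1]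
  have h4 : (X ^ 2 - Y ^ 2) ^ 2 = (X' ^ 2 - Y' ^ 2) ^ 2 := by linear_combination h2
  rcases sq_eq_sq_iff_eq_or_eq_neg.mp h4 with h5 | h5
  · left; constructor <;> linarith
  · right; constructor <;> linarith

theorem even_of_norm {p q : ℤ} {g : ℕ} (hg : g % 4 = 0) (h : p ^ 2 + q ^ 2 = 2 * g) :
    p % 2 = 0 ∧ q % 2 = 0 := by
  have h1 : (p ^ 2 + q ^ 2) % 4 = 0 := by omega
  have hp : p % 4 = 0 ∨ p % 4 = 1 ∨ p % 4 = 2 ∨ p % 4 = 3 := by omega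
  have hq : q % 4 = 0 ∨ q % 4 = 1 ∨ q % 4 = 2 ∨ q % 4 = 3 := by omega
  rcases hp with hp | hp | hp | hp <;> rcases hq with hq | hq | hq | hq <;>
    simp [pow_two, Int.add_emod, Int.mul_emod, hp, hq] at h1 <;> omega

theorem four_of_norm {p q : ℤ} {g : ℕ} (hg : g % 8 = 0) (h : p ^ 2 + q ^ 2 = 2 * g) :
    p % 4 = 0 ∧ q % 4 = 0 := by
  obtain ⟨h1, h2⟩ := even_of_norm (by omega) h
  obtain ⟨x, rfl⟩ : ∃ x, p = 2 * x := ⟨p / 2, by omega⟩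
  obtain ⟨y, rfl⟩ : ∃ y, q = 2 * y := ⟨q / 2, by omega⟩
  have h3 : (x ^ 2 + y ^ 2) % 4 = 0 := by
    have : 4 * (x ^ 2 + y ^ 2) = 2 * (g : ℤ) := by rw [← h]; ring
    omega
  have hp : x % 4 = 0 ∨ x % 4 = 1 ∨ x % 4 = 2 ∨ x % 4 = 3 := by omega
  have hq : y % 4 = 0 ∨ y % 4 = 1 ∨ y % 4 = 2 ∨ y % 4 = 3 := by omega
  rcases hp with hp | hp | hp | hp <;> rcases hq with hq | hq | hq | hq <;>
    simp [pow_two, Int.add_emod, Int.mul_emod, hp, hq] at h3 <;> omega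

theorem vtx_swap12 {n : ℕ} {a b c d : ℤ} (h : a ^ 2 + b ^ 2 + c ^ 2 + d ^ 2 = 4 * n + 2)
    (h' : b ^ 2 + a ^ 2 + c ^ 2 + d ^ 2 = 4 * n + 2) : vtx n a b c d h = vtx n b a c d h' := by
  apply Subtype.ext
  change ({a.natAbs, b.natAbs, c.natAbs, d.natAbs} : Multiset ℕ) =
    {b.natAbs, a.natAbs, c.natAbs, d.natAbs}
  exact Multiset.cons_swap _ _ _

theorem vtx_swap34 {n : ℕ} {a b c d : ℤ} (h : a ^ 2 + b ^ 2 + c ^ 2 + d ^ 2 = 4 * n + 2)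
    (h' : a ^ 2 + b ^ 2 + d ^ 2 + c ^ 2 = 4 * n + 2) : vtx n a b c d h = vtx n a b d c h' := by
  apply Subtype.ext
  change ({a.natAbs, b.natAbs, c.natAbs, d.natAbs} : Multiset ℕ) =
    {a.natAbs, b.natAbs, d.natAbs, c.natAbs}
  have : ({c.natAbs, d.natAbs} : Multiset ℕ) = {d.natAbs, c.natAbs} := Multiset.pair_comm _ _
  simp only [Multiset.insert_eq_cons] at this ⊢
  rw [this]

end Pool.Agent.H28BS
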