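import Pool.Agent.H28BS.Clique

/-! The looped cliques in `Γ_n`, `n = 3g + 1`. -/

namespace Pool.Agent.H28BS

open Finset

theorem val_one : Val 1 1 1 1 1 := ⟨_, _, gp_one, by decide, by decide, by decide, by decide⟩

theorem v1_norm {n g : ℕ} (hn : n = 3 * g + 1) {p q : ℤ} (h : p ^ 2 + q ^ 2 = 2 * g) :
    (q + 2) ^ 2 + (q + 2 * p) ^ 2 + (1 - p) ^ 2 + (2 * q - p - 1) ^ 2 = 4 * n + 2 := by
  have : (n : ℤ) = 3 * g + 1 := by rw [hn]; push_cast; ring
  rw [this]
  linear_combination 6 * h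

/-- the vertex attached to a representation `p² + q² = 2g` -/
def v1 {n g : ℕ} (hn : n = 3 * g + 1) (p q : ℤ) (h : p ^ 2 + q ^ 2 = 2 * g) : Vertex n :=
  vtx n (q + 2) (q + 2 * p) (1 - p) (2 * q - p - 1) (v1_norm hn h)

theorem v1_adj {n g : ℕ} (hn : n = 3 * g + 1) (hg : AllPairs g) (hg0 : 1 ≤ g) (hg2 : g % 2 = 0)
    {p q p' q' : ℤ} (h : p ^ 2 + q ^ 2 = 2 * g) (h' : p' ^ 2 + q' ^ 2 = 2 * g) :
    Adj n (v1 hn p q h) (v1 hn p' q' h') := by
  have hv : Val g p q (-p') q' := hg p q (-p') q' h (by rw [neg_sq]; exact h')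
  obtain ⟨A, B, C, D, hb, a1, a2, a3, a4, b1, b2, b3, b4⟩ :=
    base_of_vals (n := n) (s := 1) (by rw [hn]; ring) le_rfl hg0 hv val_one
  have hE : ((-1 : ℤ)) ^ g = 1 := (Nat.even_iff.mpr hg2).neg_one_pow
  have hE1 : ((-1 : ℤ)) ^ (1 + g) = -1 := by rw [pow_add, hE]; norm_num
  have hE2 : ((-1 : ℤ)) ^ (1 + g - 1) = 1 := by
    have : 1 + g - 1 = g := by omega
    rw [this, hE]
  rw [hE, hE1] at b1 b2
  rw [hE2] at b3 b4
  simp only [Nat.sub_self, pow_zero, pow_one] at b1 b2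
  have hs : v1 hn p' q' h' = vtx n (q' + 2 * p') (q' + 2) (1 - p') (2 * q' - p' - 1)
      (by have := v1_norm hn h'; linarith) := vtx_swap12 _ _
  rw [hs]
  refine adj_of_base hb ?_ ?_ ?_ ?_ ?_ ?_ ?_ ?_ _ _
  · rw [a1]; ring
  · rw [a2]; ring
  · rw [a3]; ring
  · rw [a4]; ring
  · rw [b1]; ring
  · rw [b2]; ring
  · rw [b3]; ring
  · rw [b4]; ring

theorem v1_inj {n g : ℕ} (hn : n = 3 * g + 1) (hg4 : g % 4 = 0) {p q p' q' : ℤ}
    (h : p ^ 2 + q ^ 2 = 2 * g) (h' : p' ^ 2 + q' ^ 2 = 2 * g) (heq : v1 hn p q h = v1 hn p' q' h') :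
    q = q' ∧ (p = p' ∨ (q = 0 ∧ p = -p')) := by
  obtain ⟨e1, e2⟩ := even_of_norm hg4 h
  obtain ⟨e3, e4⟩ := even_of_norm hg4 h'
  have hm : ({(q + 2).natAbs, (q + 2 * p).natAbs, (1 - p).natAbs, (2 * q - p - 1).natAbs} : Multiset ℕ) =
      {(q' + 2).natAbs, (q' + 2 * p').natAbs, (1 - p').natAbs, (2 * q' - p' - 1).natAbs} :=
    congrArg Subtype.val heq
  -- reorder: the odd entries first
  have hperm : ∀ a b c d : ℕ, ({a, b, c, d} : Multiset ℕ) = {c, d, a, b} := by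
    intro a b c d
    have h1 : ({a, b, c, d} : Multiset ℕ) = {a, b} + {c, d} := rfl
    have h2 : ({c, d, a, b} : Multiset ℕ) = {c, d} + {a, b} := rfl
    rw [h1, h2, add_comm]
  rw [hperm, hperm (q' + 2).natAbs] at hm
  obtain ⟨i1, i2, _, _⟩ := inv_of_eq (by omega) (by omega) (by omega) (by omega) (by omega) (by omega)
    (by omega) (by omega) hm
  have j1 : ((q - p) + (1 - q)) ^ 2 + ((q - p) - (1 - q)) ^ 2 =
      ((q' - p') + (1 - q')) ^ 2 + ((q' - p') - (1 - q')) ^ 2 := by linear_combination i1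
  have j2 : (((q - p) + (1 - q)) * ((q - p) - (1 - q))) ^ 2 =
      (((q' - p') + (1 - q')) * ((q' - p') - (1 - q'))) ^ 2 := by linear_combination i2
  rcases half_sums j1 j2 with ⟨k1, k2⟩ | ⟨k1, k2⟩
  · -- (1-q)² = (1-q')²
    have hpq : p * q = p' * q' := by linarith [k1, h, h']
    rcases sq_eq_sq_iff_eq_or_eq_neg.mp k2 with k3 | k3
    · have hq : q = q' := by linarith
      refine ⟨hq, ?_⟩
      by_cases hq0 : q = 0
      · subst hq0
        subst hq
        have : p ^ 2 = p' ^ 2 := by linarith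
        rcases sq_eq_sq_iff_eq_or_eq_neg.mp this with h5 | h5
        · exact Or.inl h5
        · exact Or.inr ⟨rfl, h5⟩
      · left
        rw [← hq] at hpq
        exact mul_right_cancel₀ hq0 hpq
    · exfalso
      -- q' = 2 - q: parity contradiction after halving
      obtain ⟨x, hx⟩ : ∃ x, p = 2 * x := ⟨p / 2, by omega⟩
      obtain ⟨y, hy⟩ : ∃ y, q = 2 * y := ⟨q / 2, by omega⟩
      obtain ⟨x', hx'⟩ : ∃ x', p' = 2 * x' := ⟨p' / 2, by omega⟩
      have hq' : q' = 2 * (1 - y) := by linarith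
      rw [hx, hy, hx', hq'] at hpq
      have h6 : x * y = x' * (1 - y) := by linarith
      have h7 : 2 * (x ^ 2 + y ^ 2) = (g : ℤ) := by rw [hx, hy] at h; linarith
      have h8 : 2 * (x' ^ 2 + (1 - y) ^ 2) = (g : ℤ) := by rw [hx', hq'] at h'; linarith
      have h9 : (x ^ 2 + y ^ 2) % 2 = 0 := by omega
      have h10 : (x' ^ 2 + (1 - y) ^ 2) % 2 = 0 := by omega
      have hx2 : x % 2 = 0 ∨ x % 2 = 1 := by omega
      have hy2 : y % 2 = 0 ∨ y % 2 = 1 := by omega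
      have hx2' : x' % 2 = 0 ∨ x' % 2 = 1 := by omega
      have h11 : (x * y) % 2 = (x' * (1 - y)) % 2 := by rw [h6]
      rcases hx2 with a | a <;> rcases hy2 with b | b <;> rcases hx2' with c | c <;>
        simp [pow_two, Int.add_emod, Int.mul_emod, Int.sub_emod, a, b, c] at h9 h10 h11
  · exfalso
    -- parity: q - p even, 1 - q' odd
    have : (q - p) % 2 = 0 := by omega
    have h2 : (1 - q') % 2 = 1 := by omega
    have h3 : ((q - p) ^ 2) % 2 = 0 := by simp [pow_two, Int.mul_emod, this]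
    have h4 : ((1 - q') ^ 2) % 2 = 1 := by simp [pow_two, Int.mul_emod, h2]
    rw [k1, h4] at h3
    exact absurd h3 (by norm_num)

theorem clique_one (a b c : ℕ) {n : ℕ} (hn : n = 3 * (4 * 2 ^ a * 10 ^ b * 26 ^ c) + 1) :
    ∃ S : Finset (Vertex n), 4 * (b + 1) * (c + 1) ≤ S.card + 1 ∧ ∀ x ∈ S, ∀ y ∈ S, Adj n x y := by
  classical
  set g := 4 * 2 ^ a * 10 ^ b * 26 ^ c with hg
  have hg4 : g % 4 = 0 := by
    have : g = 4 * (2 ^ a * 10 ^ b * 26 ^ c) := by rw [hg]; ring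
    omega
  have hg0 : 1 ≤ g := by have : 0 < g := by positivity
                         omega
  obtain ⟨T, hT, hTn⟩ := reps_exist a b c
  rw [← hg] at hTn
  set T1 := T.filter (fun x => ¬ (x.2 = 0 ∧ x.1 < 0)) with hT1
  have hcard : T.card ≤ T1.card + 1 := by
    have h1 := Finset.card_filter_add_card_filter_not (s := T) (fun x => (x.2 = 0 ∧ x.1 < 0))
    have h2 : (T.filter (fun x => (x.2 = 0 ∧ x.1 < 0))).card ≤ 1 := by
      rw [Finset.card_le_one]
      intro x hx y hy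
      rw [Finset.mem_filter] at hx hy
      obtain ⟨hx1, hx2, hx3⟩ := hx
      obtain ⟨hy1, hy2, hy3⟩ := hy
      have k1 := hTn x hx1
      have k2 := hTn y hy1
      rw [hx2] at k1
      rw [hy2] at k2
      have k3 : x.1 ^ 2 = y.1 ^ 2 := by linarith
      rcases sq_eq_sq_iff_eq_or_eq_neg.mp k3 with h5 | h5
      · exact Prod.ext h5 (by rw [hx2, hy2])
      · exfalso; linarith
    have h3 : T1.card = (T.filter (fun x => ¬ (x.2 = 0 ∧ x.1 < 0))).card := by rw [hT1]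
    have h4 : (T.filter (fun x => (x.2 = 0 ∧ x.1 < 0))).card +
        (T.filter (fun x => ¬ (x.2 = 0 ∧ x.1 < 0))).card = T.card := by
      convert h1 using 2
    rw [h3]
    omega
  let f : {x // x ∈ T1} → Vertex n := fun x =>
    v1 hn x.1.1 x.1.2 (hTn x.1 (Finset.mem_filter.mp x.2).1)
  have hf : Function.Injective f := by
    intro x y hxy
    obtain ⟨h1, h2⟩ := v1_inj hn hg4 _ _ hxy
    apply Subtype.ext
    rcases h2 with h2 | ⟨h2, h3⟩
    · exact Prod.ext h2 h1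
    · have hx := (Finset.mem_filter.mp x.2).2
      have hy := (Finset.mem_filter.mp y.2).2
      have hy2 : y.1.2 = 0 := by rw [← h1]; exact h2
      have hx4 : 0 ≤ x.1.1 := by
        by_contra hcon; exact hx ⟨h2, by omega⟩
      have hy4 : 0 ≤ y.1.1 := by
        by_contra hcon; exact hy ⟨hy2, by omega⟩
      have : x.1.1 = y.1.1 := by omega
      exact Prod.ext this h1
  refine ⟨Finset.univ.image f, ?_, ?_⟩
  · rw [Finset.card_image_of_injective _ hf, Finset.card_univ, Fintype.card_coe, ← hT]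
    exact hcard
  · intro x hx y hy
    rw [Finset.mem_image] at hx hy
    obtain ⟨x', _, rfl⟩ := hx
    obtain ⟨y', _, rfl⟩ := hy
    exact v1_adj hn (allPairs a b c) hg0 (by omega) _ _

end Pool.Agent.H28BS
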