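import Pool.Agent.H28BS.General

/-! Looped cliques in `Γ_n` for `n = 2sg + s + g` with `s`, `g` Golay numbers divisible by four. -/

namespace Pool.Agent.H28BS

open Finset

theorem shape_mod (a b c : ℕ) : (4 * 2 ^ a * 10 ^ b * 26 ^ c) % 4 = 0 ∧
    (a + b + c = 0 → 4 * 2 ^ a * 10 ^ b * 26 ^ c = 4) ∧
    (a + b + c ≠ 0 → (4 * 2 ^ a * 10 ^ b * 26 ^ c) % 8 = 0) := by
  refine ⟨?_, ?_, ?_⟩
  · have : 4 * 2 ^ a * 10 ^ b * 26 ^ c = 4 * (2 ^ a * 10 ^ b * 26 ^ c) := by ring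
    omega
  · intro h
    have h1 : a = 0 := by omega
    have h2 : b = 0 := by omega
    have h3 : c = 0 := by omega
    subst h1 h2 h3
    norm_num
  · intro h
    rcases Nat.eq_zero_or_pos a with ha | ha
    · rcases Nat.eq_zero_or_pos b with hb | hb
      · obtain ⟨k, rfl⟩ : ∃ k, c = k + 1 := ⟨c - 1, by omega⟩
        have : 4 * 2 ^ a * 10 ^ b * 26 ^ (k + 1) = 8 * (13 * (2 ^ a * 10 ^ b * 26 ^ k)) := by ring
        omega
      · obtain ⟨k, rfl⟩ : ∃ k, b = k + 1 := ⟨b - 1, by omega⟩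
        have : 4 * 2 ^ a * 10 ^ (k + 1) * 26 ^ c = 8 * (5 * (2 ^ a * 10 ^ k * 26 ^ c)) := by ring
        omega
    · obtain ⟨k, rfl⟩ : ∃ k, a = k + 1 := ⟨a - 1, by omega⟩
      have : 4 * 2 ^ (k + 1) * 10 ^ b * 26 ^ c = 8 * (2 ^ k * 10 ^ b * 26 ^ c) := by ring
      omega

theorem mod_four_of_shape {a b c g : ℕ} (hg : g = 4 * 2 ^ a * 10 ^ b * 26 ^ c) {p q : ℤ}
    (h : p ^ 2 + q ^ 2 = 2 * g) : (q % 4 = 2 ↔ a + b + c = 0) := by
  obtain ⟨e1, e2, e3⟩ := shape_mod a b c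
  rw [← hg] at e1 e2 e3
  by_cases hz : a + b + c = 0
  · have hg4 := e2 hz
    rw [hg4] at h
    obtain ⟨_, h2⟩ := sq_eq_eight (p := p) (q := q) (by rw [h]; norm_num)
    constructor
    · intro _; exact hz
    · intro _; rcases h2 with h2 | h2 <;> rw [h2] <;> norm_num
  · obtain ⟨_, h2⟩ := four_of_norm (e3 hz) h
    constructor
    · intro k; omega
    · intro k; exact absurd k hz

theorem clique_zero (a b c a' b' c' : ℕ) {s g n : ℕ} (hs : s = 4 * 2 ^ a' * 10 ^ b' * 26 ^ c')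
    (hg : g = 4 * 2 ^ a * 10 ^ b * 26 ^ c) (hn : n = 2 * s * g + s + g) :
    ∃ S : Finset (Vertex n), (b + 1) * (c + 1) * (b' + 1) * (c' + 1) ≤ S.card ∧
      (∀ x ∈ S, ∀ y ∈ S, Adj n x y) ∧
      (∀ x ∈ S, (∃ r ∈ x.1, r % 4 = 2) ↔ ¬ (a + b + c = 0 ↔ a' + b' + c' = 0)) := by
  classical
  have hg4 : g % 4 = 0 := by rw [hg]; exact (shape_mod a b c).1
  have hs4 : s % 4 = 0 := by rw [hs]; exact (shape_mod a' b' c').1
  have hg0 : 1 ≤ g := by have : 0 < g := by rw [hg]; positivity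
                         omega
  have hs0 : 1 ≤ s := by have : 0 < s := by rw [hs]; positivity
                         omega
  have hAg : AllPairs g := by rw [hg]; exact allPairs a b c
  have hAs : AllPairs s := by rw [hs]; exact allPairs a' b' c'
  obtain ⟨T, hT, hTn⟩ := reps_exist a b c
  rw [← hg] at hTn
  obtain ⟨T', hT', hTn'⟩ := reps_exist a' b' c'
  rw [← hs] at hTn'
  let E := T ×ˢ T'
  have hE1 : ∀ e ∈ E, e.1.1 ^ 2 + e.1.2 ^ 2 = 2 * g := fun e he => hTn _ (Finset.mem_product.mp he).1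
  have hE2 : ∀ e ∈ E, e.2.1 ^ 2 + e.2.2 ^ 2 = 2 * s := fun e he => hTn' _ (Finset.mem_product.mp he).2
  let f : {e // e ∈ E} → Vertex n := fun e =>
    vg hn e.1.1.1 e.1.1.2 e.1.2.1 e.1.2.2 (hE1 e.1 e.2) (hE2 e.1 e.2)
  have hcard : E.card ≤ 16 * ((Finset.univ : Finset {e // e ∈ E}).image f).card := by
    have h0 : (Finset.univ : Finset {e // e ∈ E}).card = E.card := by
      rw [Finset.card_univ, Fintype.card_coe]
    rw [← h0]
    refine Finset.card_le_mul_card_image _ 16 ?_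
    intro v hv
    rw [Finset.mem_image] at hv
    obtain ⟨e0, _, rfl⟩ := hv
    have hmap : ((Finset.univ.filter (fun x => f x = f e0)).map
        (Function.Embedding.subtype (fun e => e ∈ E))).card ≤ 16 := by
      refine fibre_le (s := s) (g := g) _ (e0.1.1.1 * e0.1.2.1)
        (hX e0.1.1.1 e0.1.1.2 e0.1.2.1 e0.1.2.2)
        (hZ e0.1.1.1 e0.1.1.2 e0.1.2.2 * hW e0.1.1.2 e0.1.2.1 e0.1.2.2)
        (by positivity) (by positivity) ?_
      intro e he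
      rw [Finset.mem_map] at he
      obtain ⟨x, hx, rfl⟩ := he
      rw [Finset.mem_filter] at hx
      obtain ⟨_, hx⟩ := hx
      have p1 := even_of_norm hg4 (hE1 x.1 x.2)
      have p2 := even_of_norm hs4 (hE2 x.1 x.2)
      have p3 := even_of_norm hg4 (hE1 e0.1 e0.2)
      have p4 := even_of_norm hs4 (hE2 e0.1 e0.2)
      obtain ⟨k1, k2, k3⟩ := vg_inv hn (hE1 x.1 x.2) (hE2 x.1 x.2) (hE1 e0.1 e0.2) (hE2 e0.1 e0.2)
        p1.1 p1.2 p2.1 p2.2 p3.1 p3.2 p4.1 p4.2 hx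
      exact ⟨hE1 x.1 x.2, hE2 x.1 x.2, k2, k1, k3⟩
    rw [Finset.card_map] at hmap
    exact hmap
  have hEc : E.card = 16 * ((b + 1) * (c + 1) * (b' + 1) * (c' + 1)) := by
    rw [Finset.card_product, hT, hT']; ring
  refine ⟨Finset.univ.image f, ?_, ?_, ?_⟩
  · rw [hEc] at hcard
    omega
  · intro x hx y hy
    rw [Finset.mem_image] at hx hy
    obtain ⟨x', _, rfl⟩ := hx
    obtain ⟨y', _, rfl⟩ := hy
    exact vg_adj hn hs0 hg0 (by omega) (by omega) _ _ _ _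
      (hAg _ _ _ _ (hE1 x'.1 x'.2) (hE1 y'.1 y'.2))
      (hAs _ _ _ _ (hE2 x'.1 x'.2) (by rw [neg_sq]; exact hE2 y'.1 y'.2))
  · intro x hx
    rw [Finset.mem_image] at hx
    obtain ⟨x', _, rfl⟩ := hx
    have p1 := even_of_norm hg4 (hE1 x'.1 x'.2)
    have p2 := even_of_norm hs4 (hE2 x'.1 x'.2)
    have q1 := mod_four_of_shape hg (hE1 x'.1 x'.2)
    have q2 := mod_four_of_shape hs (hE2 x'.1 x'.2)
    rw [vg_type hn _ _ p1.1 p1.2 p2.1 p2.2, ← q1, ← q2]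
    have e1 := p1.2
    have e2 := p2.2
    constructor
    · intro h h'
      by_cases h3 : x'.1.1.2 % 4 = 2
      · have := h'.mp h3; omega
      · have : ¬ x'.1.2.2 % 4 = 2 := fun h4 => h3 (h'.mpr h4)
        omega
    · intro h
      by_cases h3 : x'.1.1.2 % 4 = 2
      · by_cases h4 : x'.1.2.2 % 4 = 2
        · exact absurd ⟨fun _ => h4, fun _ => h3⟩ h
        · omega
      · by_cases h4 : x'.1.2.2 % 4 = 2
        · omega
        · exact absurd ⟨fun h5 => absurd h5 h3, fun h5 => absurd h5 h4⟩ h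

end Pool.Agent.H28BS
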