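import Pool.Agent.H28BS.Auto

/-! The composition: Golay pairs `(P;Q)` of length `g` and `(F;G)` of length `s` give base sequences
`BS(n+1,n)` with `n = 2sg+s+g`. -/

namespace Pool.Agent.H28BS

open Finset

/-- first half-sum sequence -/
def Xs (s g : ℕ) (P Q F G : ℕ → ℤ) (k : ℕ) : ℤ :=
  if k % (2 * g + 1) < g then
    (if k / (2 * g + 1) < s then G (s - 1 - k / (2 * g + 1)) * Q (k % (2 * g + 1))
      else if k / (2 * g + 1) = s then P (k % (2 * g + 1)) else 0)
  else if k % (2 * g + 1) = g then (if k / (2 * g + 1) < s then F (k / (2 * g + 1)) else 0) else 0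

/-- second half-sum sequence -/
def Ys (s g : ℕ) (P F : ℕ → ℤ) (k : ℕ) : ℤ :=
  if k % (2 * g + 1) < g then 0
  else if k % (2 * g + 1) = g then (if k / (2 * g + 1) = s then 1 else 0)
  else (if k / (2 * g + 1) < s then -(F (k / (2 * g + 1)) * P (2 * g - k % (2 * g + 1))) else 0)

/-- third half-sum sequence -/
def Zs (s g : ℕ) (P Q G : ℕ → ℤ) (k : ℕ) : ℤ :=
  if k % (2 * g + 1) < g then
    (if k / (2 * g + 1) = 0 then Q (k % (2 * g + 1))
      else if k / (2 * g + 1) ≤ s then -(G (k / (2 * g + 1) - 1) * P (k % (2 * g + 1))) else 0)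
  else 0

/-- fourth half-sum sequence -/
def Ws (s g : ℕ) (Q F G : ℕ → ℤ) (k : ℕ) : ℤ :=
  if k % (2 * g + 1) < g then 0
  else if k % (2 * g + 1) < 2 * g then
    (if k / (2 * g + 1) < s then -(F (s - 1 - k / (2 * g + 1)) * Q (k % (2 * g + 1) - g)) else 0)
  else (if k / (2 * g + 1) < s then G (k / (2 * g + 1)) else 0)

theorem cell_mod (g i r : ℕ) (hr : r < 2 * g + 1) : ((2 * g + 1) * i + r) % (2 * g + 1) = r := by
  rw [Nat.mul_add_mod, Nat.mod_eq_of_lt hr]

theorem cell_div (g i r : ℕ) (hr : r < 2 * g + 1) : ((2 * g + 1) * i + r) / (2 * g + 1) = i := by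
  rw [Nat.mul_add_div (by omega), Nat.div_eq_of_lt hr, add_zero]

theorem ev_one_term {R : Type} [CommRing R] (a : ℕ → ℤ) (u : R) : ev a 1 u = a 0 := by
  unfold ev; simp

theorem ev_cell1 {R : Type} [CommRing R] (f : ℕ → ℤ) (g : ℕ) (u : R) :
    ev f (2 * g + 1) u = ev f g u + u ^ g * f g + u ^ (g + 1) * ev (fun r => f (g + 1 + r)) g u := by
  have h : 2 * g + 1 = (g + 1) + g := by ring
  rw [h, ev_split, ev_split, ev_one_term]
  simp

theorem ev_cell2 {R : Type} [CommRing R] (f : ℕ → ℤ) (g : ℕ) (u : R) :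
    ev f (2 * g + 1) u = ev f g u + u ^ g * ev (fun r => f (g + r)) g u + u ^ (2 * g) * f (2 * g) := by
  have h : 2 * g + 1 = (g + g) + 1 := by ring
  rw [h, ev_split, ev_split, ev_one_term]
  simp [two_mul]

theorem ev_X {R : Type} [CommRing R] (s g : ℕ) (P Q F G : ℕ → ℤ) (u : R) :
    ev (Xs s g P Q F G) ((2 * g + 1) * s + (g + 1)) u =
      ev Q g u * ev (fun i => G (s - 1 - i)) s (u ^ (2 * g + 1)) + u ^ g * ev F s (u ^ (2 * g + 1)) +
        (u ^ (2 * g + 1)) ^ s * ev P g u := by
  rw [ev_split, ev_cells]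
  have e1 : ∀ i ∈ range s, (u ^ (2 * g + 1)) ^ i *
      ev (fun r => Xs s g P Q F G ((2 * g + 1) * i + r)) (2 * g + 1) u =
      ev Q g u * ((G (s - 1 - i) : R) * (u ^ (2 * g + 1)) ^ i) +
        u ^ g * ((F i : R) * (u ^ (2 * g + 1)) ^ i) := by
    intro i hi
    rw [Finset.mem_range] at hi
    rw [ev_cell1]
    have h1 : ev (fun r => Xs s g P Q F G ((2 * g + 1) * i + r)) g u = G (s - 1 - i) * ev Q g u := by
      rw [← ev_smul]
      refine ev_congr (fun r hr => ?_) u
      simp only [Xs]
      rw [cell_mod g i r (by omega), cell_div g i r (by omega), if_pos hr, if_pos hi]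
    have h2 : Xs s g P Q F G ((2 * g + 1) * i + g) = F i := by
      simp only [Xs]
      rw [cell_mod g i g (by omega), cell_div g i g (by omega), if_neg (lt_irrefl g), if_pos rfl,
        if_pos hi]
    have h3 : ev (fun r => Xs s g P Q F G ((2 * g + 1) * i + (g + 1 + r))) g u = 0 := by
      rw [← ev_zero g u]
      refine ev_congr (fun r hr => ?_) u
      simp only [Xs]
      rw [cell_mod g i (g + 1 + r) (by omega), if_neg (by omega), if_neg (by omega)]
    rw [h1, h2, h3]; ring
  have e2 : ev (fun r => Xs s g P Q F G ((2 * g + 1) * s + r)) (g + 1) u = ev P g u := by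
    rw [ev_split, ev_one_term]
    have h1 : ev (fun r => Xs s g P Q F G ((2 * g + 1) * s + r)) g u = ev P g u := by
      refine ev_congr (fun r hr => ?_) u
      simp only [Xs]
      rw [cell_mod g s r (by omega), cell_div g s r (by omega), if_pos hr, if_neg (lt_irrefl s),
        if_pos rfl]
    have h2 : Xs s g P Q F G ((2 * g + 1) * s + (g + 0)) = 0 := by
      simp only [Xs]
      rw [cell_mod g s (g + 0) (by omega), cell_div g s (g + 0) (by omega), if_neg (by omega),
        if_pos (by omega), if_neg (lt_irrefl s)]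
    rw [h1, h2]; simp
  rw [Finset.sum_congr rfl e1, e2, Finset.sum_add_distrib, ← Finset.mul_sum, ← Finset.mul_sum, ← pow_mul]
  rfl

theorem ev_Y {R : Type} [CommRing R] (s g : ℕ) (P F : ℕ → ℤ) (u : R) :
    ev (Ys s g P F) ((2 * g + 1) * s + (g + 1)) u =
      -(u ^ (g + 1) * ev (fun r => P (g - 1 - r)) g u * ev F s (u ^ (2 * g + 1))) +
        (u ^ (2 * g + 1)) ^ s * u ^ g := by
  rw [ev_split, ev_cells]
  have e1 : ∀ i ∈ range s, (u ^ (2 * g + 1)) ^ i *
      ev (fun r => Ys s g P F ((2 * g + 1) * i + r)) (2 * g + 1) u =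
      -(u ^ (g + 1) * ev (fun r => P (g - 1 - r)) g u) * ((F i : R) * (u ^ (2 * g + 1)) ^ i) := by
    intro i hi
    rw [Finset.mem_range] at hi
    rw [ev_cell1]
    have h1 : ev (fun r => Ys s g P F ((2 * g + 1) * i + r)) g u = 0 := by
      rw [← ev_zero g u]
      refine ev_congr (fun r hr => ?_) u
      simp only [Ys]
      rw [cell_mod g i r (by omega), if_pos hr]
    have h2 : Ys s g P F ((2 * g + 1) * i + g) = 0 := by
      simp only [Ys]
      rw [cell_mod g i g (by omega), cell_div g i g (by omega), if_neg (lt_irrefl g), if_pos rfl,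
        if_neg (by omega)]
    have h3 : ev (fun r => Ys s g P F ((2 * g + 1) * i + (g + 1 + r))) g u =
        ((-F i : ℤ) : R) * ev (fun r => P (g - 1 - r)) g u := by
      rw [← ev_smul]
      refine ev_congr (fun r hr => ?_) u
      simp only [Ys]
      rw [cell_mod g i (g + 1 + r) (by omega), cell_div g i (g + 1 + r) (by omega), if_neg (by omega),
        if_neg (by omega), if_pos hi]
      have : 2 * g - (g + 1 + r) = g - 1 - r := by omega
      rw [this]; ring
    rw [h1, h2, h3]; push_cast; ring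
  have e2 : ev (fun r => Ys s g P F ((2 * g + 1) * s + r)) (g + 1) u = u ^ g := by
    rw [ev_split, ev_one_term]
    have h1 : ev (fun r => Ys s g P F ((2 * g + 1) * s + r)) g u = 0 := by
      rw [← ev_zero g u]
      refine ev_congr (fun r hr => ?_) u
      simp only [Ys]
      rw [cell_mod g s r (by omega), if_pos hr]
    have h2 : Ys s g P F ((2 * g + 1) * s + (g + 0)) = 1 := by
      simp only [Ys]
      rw [cell_mod g s (g + 0) (by omega), cell_div g s (g + 0) (by omega), if_neg (by omega),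
        if_pos (by omega), if_pos rfl]
    rw [h1, h2]; simp
  rw [Finset.sum_congr rfl e1, e2, ← Finset.mul_sum, ← pow_mul]
  unfold ev
  ring

theorem ev_Z {R : Type} [CommRing R] (s g : ℕ) (P Q G : ℕ → ℤ) (u : R) :
    ev (Zs s g P Q G) ((2 * g + 1) * s + g) u =
      ev Q g u - u ^ (2 * g + 1) * ev G s (u ^ (2 * g + 1)) * ev P g u := by
  rw [ev_split, ev_cells]
  have e1 : ∀ i, i ≤ s → ev (fun r => Zs s g P Q G ((2 * g + 1) * i + r)) g u =
      if i = 0 then ev Q g u else -((G (i - 1) : R) * ev P g u) := by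
    intro i hi
    by_cases h0 : i = 0
    · rw [if_pos h0]
      refine ev_congr (fun r hr => ?_) u
      simp only [Zs]
      rw [cell_mod g i r (by omega), cell_div g i r (by omega), if_pos hr, if_pos h0]
    · rw [if_neg h0]
      have : -((G (i - 1) : R) * ev P g u) = ((-G (i - 1) : ℤ) : R) * ev P g u := by push_cast; ring
      rw [this, ← ev_smul]
      refine ev_congr (fun r hr => ?_) u
      simp only [Zs]
      rw [cell_mod g i r (by omega), cell_div g i r (by omega), if_pos hr, if_neg h0, if_pos hi]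
      ring
  have e2 : ∀ i ∈ range s, (u ^ (2 * g + 1)) ^ i *
      ev (fun r => Zs s g P Q G ((2 * g + 1) * i + r)) (2 * g + 1) u =
      (u ^ (2 * g + 1)) ^ i * (if i = 0 then ev Q g u else -((G (i - 1) : R) * ev P g u)) := by
    intro i hi
    rw [Finset.mem_range] at hi
    rw [ev_cell2, e1 i hi.le]
    have h2 : ev (fun r => Zs s g P Q G ((2 * g + 1) * i + (g + r))) g u = 0 := by
      rw [← ev_zero g u]
      refine ev_congr (fun r hr => ?_) u
      simp only [Zs]
      rw [cell_mod g i (g + r) (by omega), if_neg (by omega)]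
    have h3 : Zs s g P Q G ((2 * g + 1) * i + 2 * g) = 0 := by
      simp only [Zs]
      rw [cell_mod g i (2 * g) (by omega), if_neg (by omega)]
    rw [h2, h3]; simp
  rw [Finset.sum_congr rfl e2, e1 s le_rfl, pow_mul,
    ← Finset.sum_range_succ (fun i => (u ^ (2 * g + 1)) ^ i *
      (if i = 0 then ev Q g u else -((G (i - 1) : R) * ev P g u))) s, Finset.sum_range_succ']
  simp only [Nat.add_eq_zero_iff, one_ne_zero, and_false, if_false, if_true, pow_zero, one_mul,
    Nat.add_sub_cancel]
  have e3 : ∑ i ∈ range s, (u ^ (2 * g + 1)) ^ (i + 1) * -((G i : R) * ev P g u) =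
      -(u ^ (2 * g + 1) * ev P g u) * ∑ i ∈ range s, (G i : R) * (u ^ (2 * g + 1)) ^ i := by
    rw [Finset.mul_sum]
    exact Finset.sum_congr rfl (fun i _ => by rw [pow_succ]; ring)
  rw [e3]
  unfold ev
  ring

theorem ev_W {R : Type} [CommRing R] (s g : ℕ) (Q F G : ℕ → ℤ) (u : R) :
    ev (Ws s g Q F G) ((2 * g + 1) * s + g) u =
      -(u ^ g * ev Q g u * ev (fun i => F (s - 1 - i)) s (u ^ (2 * g + 1))) +
        u ^ (2 * g) * ev G s (u ^ (2 * g + 1)) := by
  rw [ev_split, ev_cells]
  have e1 : ∀ i ∈ range s, (u ^ (2 * g + 1)) ^ i *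
      ev (fun r => Ws s g Q F G ((2 * g + 1) * i + r)) (2 * g + 1) u =
      -(u ^ g * ev Q g u) * ((F (s - 1 - i) : R) * (u ^ (2 * g + 1)) ^ i) +
        u ^ (2 * g) * ((G i : R) * (u ^ (2 * g + 1)) ^ i) := by
    intro i hi
    rw [Finset.mem_range] at hi
    rw [ev_cell2]
    have h1 : ev (fun r => Ws s g Q F G ((2 * g + 1) * i + r)) g u = 0 := by
      rw [← ev_zero g u]
      refine ev_congr (fun r hr => ?_) u
      simp only [Ws]
      rw [cell_mod g i r (by omega), if_pos hr]
    have h2 : ev (fun r => Ws s g Q F G ((2 * g + 1) * i + (g + r))) g u =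
        ((-F (s - 1 - i) : ℤ) : R) * ev Q g u := by
      rw [← ev_smul]
      refine ev_congr (fun r hr => ?_) u
      simp only [Ws]
      rw [cell_mod g i (g + r) (by omega), cell_div g i (g + r) (by omega), if_neg (by omega),
        if_pos (by omega), if_pos hi]
      have : g + r - g = r := by omega
      rw [this]; ring
    have h3 : Ws s g Q F G ((2 * g + 1) * i + 2 * g) = G i := by
      simp only [Ws]
      by_cases hg : g = 0
      · subst hg
        rw [cell_mod 0 i (2 * 0) (by omega), cell_div 0 i (2 * 0) (by omega), if_neg (by omega),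
          if_neg (by omega), if_pos hi]
      · rw [cell_mod g i (2 * g) (by omega), cell_div g i (2 * g) (by omega), if_neg (by omega),
          if_neg (by omega), if_pos hi]
    rw [h1, h2, h3]; push_cast; ring
  have e2 : ev (fun r => Ws s g Q F G ((2 * g + 1) * s + r)) g u = 0 := by
    rw [← ev_zero g u]
    refine ev_congr (fun r hr => ?_) u
    simp only [Ws]
    rw [cell_mod g s r (by omega), if_pos hr]
  rw [Finset.sum_congr rfl e1, e2, Finset.sum_add_distrib, ← Finset.mul_sum, ← Finset.mul_sum]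
  unfold ev
  ring

end Pool.Agent.H28BS
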