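import Mathlib

/-! Base sequences `BS(n+1,n)`, Golay pairs, and the graphs `Γ_n`. -/

namespace Pool.Agent.H28BS

open Finset

/-- `(A;B;C;D)` lies in `BS(n+1,n)`: `A`, `B` are `±1` sequences of length `n+1` and `C`, `D` are `±1` sequences
of length `n` (all extended by zero), and the four nonperiodic autocorrelations sum to zero at every shift
`j ≥ 1`. -/
def IsBase (n : ℕ) (A B C D : ℕ → ℤ) : Prop :=
  (∀ i, i < n + 1 → (A i = 1 ∨ A i = -1)) ∧ (∀ i, n + 1 ≤ i → A i = 0) ∧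
  (∀ i, i < n + 1 → (B i = 1 ∨ B i = -1)) ∧ (∀ i, n + 1 ≤ i → B i = 0) ∧
  (∀ i, i < n → (C i = 1 ∨ C i = -1)) ∧ (∀ i, n ≤ i → C i = 0) ∧
  (∀ i, i < n → (D i = 1 ∨ D i = -1)) ∧ (∀ i, n ≤ i → D i = 0) ∧
  (∀ j : ℕ, 1 ≤ j →
    (∑ i ∈ range (n + 1), (A i * A (i + j) + B i * B (i + j))) +
      (∑ i ∈ range n, (C i * C (i + j) + D i * D (i + j))) = 0)

/-- The vertices of `Γ_n`: partitions of `4n+2` into four squares, given by the multiset of the four
nonnegative square roots. -/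
abbrev Vertex (n : ℕ) : Type :=
  {m : Multiset ℕ // Multiset.card m = 4 ∧ (m.map (fun x => x ^ 2)).sum = 4 * n + 2}

/-- The absolute values of the sums of the four sequences. -/
def sums (n : ℕ) (A B C D : ℕ → ℤ) : Multiset ℕ :=
  {(∑ i ∈ range (n + 1), A i).natAbs, (∑ i ∈ range (n + 1), B i).natAbs,
    (∑ i ∈ range n, C i).natAbs, (∑ i ∈ range n, D i).natAbs}

/-- The absolute values of the sums of the four alternated sequences. -/
def altSums (n : ℕ) (A B C D : ℕ → ℤ) : Multiset ℕ :=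
  {(∑ i ∈ range (n + 1), (-1 : ℤ) ^ i * A i).natAbs, (∑ i ∈ range (n + 1), (-1 : ℤ) ^ i * B i).natAbs,
    (∑ i ∈ range n, (-1 : ℤ) ^ i * C i).natAbs, (∑ i ∈ range n, (-1 : ℤ) ^ i * D i).natAbs}

/-- Adjacency in `Γ_n` (a loop when `p = q`): some base sequences realise the unordered pair `p`, `q`. -/
def Adj (n : ℕ) (p q : Vertex n) : Prop :=
  ∃ A B C D : ℕ → ℤ, IsBase n A B C D ∧
    ((sums n A B C D = p.1 ∧ altSums n A B C D = q.1) ∨
      (sums n A B C D = q.1 ∧ altSums n A B C D = p.1))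

/-- `g` is a Golay number: there is a pair of `±1` sequences of length `g` (extended by zero) whose
nonperiodic autocorrelations cancel at every shift `j ≥ 1`. -/
def GolayNumber (g : ℕ) : Prop :=
  ∃ P Q : ℕ → ℤ,
    (∀ i, i < g → (P i = 1 ∨ P i = -1)) ∧ (∀ i, g ≤ i → P i = 0) ∧
    (∀ i, i < g → (Q i = 1 ∨ Q i = -1)) ∧ (∀ i, g ≤ i → Q i = 0) ∧
    (∀ j : ℕ, 1 ≤ j → ∑ i ∈ range g, (P i * P (i + j) + Q i * Q (i + j)) = 0)

end Pool.Agent.H28BS
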