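import Pool.Agent.H28BS.Main

/-! Vertices of `Γ_n` from the sums of base sequences. -/

namespace Pool.Agent.H28BS

open Finset

/-- the vertex of `Γ_n` with square roots `|a|, |b|, |c|, |d|` -/
def vtx (n : ℕ) (a b c d : ℤ) (h : a ^ 2 + b ^ 2 + c ^ 2 + d ^ 2 = 4 * n + 2) : Vertex n :=
  ⟨{a.natAbs, b.natAbs, c.natAbs, d.natAbs}, by
    refine ⟨by simp, ?_⟩
    have h1 : (((({a.natAbs, b.natAbs, c.natAbs, d.natAbs} : Multiset ℕ).map (fun x => x ^ 2)).sum : ℕ) : ℤ)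
        = ((4 * n + 2 : ℕ) : ℤ) := by
      simp only [Multiset.insert_eq_cons, Multiset.map_cons, Multiset.map_singleton, Multiset.sum_cons,
        Multiset.sum_singleton]
      push_cast
      simp only [sq_abs]
      linarith
    exact_mod_cast h1⟩

/-- The sum of the squares of the values at `w = ±1`. -/
theorem base_norm {n : ℕ} {A B C D : ℕ → ℤ} (h : IsBase n A B C D) (w : ℤ) (hw : w * w = 1) :
    ev A (n + 1) w ^ 2 + ev B (n + 1) w ^ 2 + ev C n w ^ 2 + ev D n w ^ 2 = 4 * n + 2 := by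
  obtain ⟨hA, hA0, hB, hB0, hC, hC0, hD, hD0, hN⟩ := h
  have h1 : ∀ (m : ℕ) (a : ℕ → ℤ), (∀ i, i < m → (a i = 1 ∨ a i = -1)) →
      ∑ i ∈ range m, a i * a i = (m : ℤ) := by
    intro m a ha
    have : ∀ i ∈ range m, a i * a i = 1 := by
      intro i hi
      rcases ha i (Finset.mem_range.mp hi) with h | h <;> rw [h] <;> norm_num
    rw [Finset.sum_congr rfl this]; simp
  have e1 := ev_mul_ev A (n + 1) w w hw hA0
  have e2 := ev_mul_ev B (n + 1) w w hw hB0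
  have e3 := ev_mul_ev C n w w hw hC0
  have e4 := ev_mul_ev D n w w hw hD0
  rw [h1 (n + 1) A hA] at e1
  rw [h1 (n + 1) B hB] at e2
  rw [h1 n C hC] at e3
  rw [h1 n D hD] at e4
  have hext : ∀ (a : ℕ → ℤ), (∀ i, n ≤ i → a i = 0) →
      ∑ j ∈ range n, ((∑ i ∈ range n, a i * a (i + (j + 1)) : ℤ)) * (w ^ (j + 1) + w ^ (j + 1)) =
      ∑ j ∈ range (n + 1), ((∑ i ∈ range n, a i * a (i + (j + 1)) : ℤ)) *
        (w ^ (j + 1) + w ^ (j + 1)) := by
    intro a ha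
    rw [Finset.sum_range_succ]
    have : ∑ i ∈ range n, a i * a (i + (n + 1)) = 0 :=
      Finset.sum_eq_zero (fun i _ => by rw [ha (i + (n + 1)) (by omega), mul_zero])
    rw [this]; ring
  have hz : ∑ j ∈ range (n + 1), ((∑ i ∈ range (n + 1), A i * A (i + (j + 1)) : ℤ)) *
        (w ^ (j + 1) + w ^ (j + 1)) +
      ∑ j ∈ range (n + 1), ((∑ i ∈ range (n + 1), B i * B (i + (j + 1)) : ℤ)) *
        (w ^ (j + 1) + w ^ (j + 1)) +
      ∑ j ∈ range n, ((∑ i ∈ range n, C i * C (i + (j + 1)) : ℤ)) * (w ^ (j + 1) + w ^ (j + 1)) +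
      ∑ j ∈ range n, ((∑ i ∈ range n, D i * D (i + (j + 1)) : ℤ)) * (w ^ (j + 1) + w ^ (j + 1)) = 0 := by
    rw [hext C hC0, hext D hD0, ← Finset.sum_add_distrib, ← Finset.sum_add_distrib,
      ← Finset.sum_add_distrib]
    refine Finset.sum_eq_zero (fun j _ => ?_)
    have h3 := hN (j + 1) (by omega)
    rw [Finset.sum_add_distrib, Finset.sum_add_distrib] at h3
    linear_combination (w ^ (j + 1) + w ^ (j + 1)) * h3
  simp only [Int.cast_id] at e1 e2 e3 e4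
  rw [pow_two, pow_two, pow_two, pow_two, e1, e2, e3, e4]
  push_cast
  linear_combination hz

/-- Base sequences give adjacent vertices. -/
theorem adj_of_base {n : ℕ} {A B C D : ℕ → ℤ} (h : IsBase n A B C D) {a b c d a' b' c' d' : ℤ}
    (h1 : ev A (n + 1) (1 : ℤ) = a) (h2 : ev B (n + 1) (1 : ℤ) = b) (h3 : ev C n (1 : ℤ) = c)
    (h4 : ev D n (1 : ℤ) = d) (h5 : ev A (n + 1) (-1 : ℤ) = a') (h6 : ev B (n + 1) (-1 : ℤ) = b')
    (h7 : ev C n (-1 : ℤ) = c') (h8 : ev D n (-1 : ℤ) = d')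
    (hp : a ^ 2 + b ^ 2 + c ^ 2 + d ^ 2 = 4 * n + 2)
    (hq : a' ^ 2 + b' ^ 2 + c' ^ 2 + d' ^ 2 = 4 * n + 2) :
    Adj n (vtx n a b c d hp) (vtx n a' b' c' d' hq) := by
  refine ⟨A, B, C, D, h, Or.inl ⟨?_, ?_⟩⟩
  · change sums n A B C D = ({a.natAbs, b.natAbs, c.natAbs, d.natAbs} : Multiset ℕ)
    unfold sums
    rw [← h1, ← h2, ← h3, ← h4, ev_one, ev_one, ev_one, ev_one]
  · change altSums n A B C D = ({a'.natAbs, b'.natAbs, c'.natAbs, d'.natAbs} : Multiset ℕ)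
    unfold altSums
    rw [← h5, ← h6, ← h7, ← h8, ev_neg_one, ev_neg_one, ev_neg_one, ev_neg_one]

theorem exists_adj_of_base {n : ℕ} {A B C D : ℕ → ℤ} (h : IsBase n A B C D) :
    ∃ p q : Vertex n, Adj n p q :=
  ⟨_, _, adj_of_base h rfl rfl rfl rfl rfl rfl rfl rfl (base_norm h 1 (by norm_num))
    (base_norm h (-1) (by norm_num))⟩

end Pool.Agent.H28BS
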