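import Pool.Agent.H28BS.AllPairs
import Pool.Agent.H28BS.Vtx

/-! Existence: Golay numbers, and base sequences of the new lengths. -/

namespace Pool.Agent.H28BS

open Finset LaurentPolynomial

theorem gp_of_golayNumber {g : ℕ} (h : GolayNumber g) : ∃ P Q, GP g P Q := by
  obtain ⟨P, Q, h1, h2, h3, h4, h5⟩ := h
  exact ⟨P, Q, h1, h3, fun R _ u v huv => norm_of_golay g P Q h1 h2 h3 h4 h5 u v huv⟩

theorem golayNumber_of_gp {g : ℕ} {P Q : ℕ → ℤ} (h : GP g P Q) : GolayNumber g := by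
  obtain ⟨h1, h2, h3⟩ := h
  have hz : ∀ (X : ℕ → ℤ) (i : ℕ), g ≤ i → (if i < g then X i else 0) = 0 :=
    fun X i hi => by rw [if_neg (by omega)]
  refine ⟨fun i => if i < g then P i else 0, fun i => if i < g then Q i else 0, ?_, hz P, ?_, hz Q, ?_⟩
  · intro i hi; simp only [if_pos hi]; exact h1 i hi
  · intro i hi; simp only [if_pos hi]; exact h2 i hi
  · intro j hj
    have e : ∀ (X : ℕ → ℤ) (w : ℤ[T;T⁻¹]), ev (fun i => if i < g then X i else 0) g w = ev X g w :=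
      fun X w => ev_congr (fun i hi => by simp only [if_pos hi]) w
    have k1 := h3 ℤ[T;T⁻¹] (T 1) (T (-1)) (by rw [← T_add]; simp)
    rw [← e P, ← e P, ← e Q, ← e Q] at k1
    have k2 := congrArg (fun x : ℤ[T;T⁻¹] => x.coeff (j : ℤ)) k1
    have k3 : ((2 : ℤ[T;T⁻¹]) * (g : ℤ[T;T⁻¹])) = ((2 * g : ℤ) : ℤ[T;T⁻¹]) := by push_cast; ring
    rw [k3] at k2
    simp only [AddMonoidAlgebra.coeff_add, Finsupp.add_apply, coeff_pair _ _ _ (hz P),
      coeff_pair _ _ _ (hz Q), coeff_intCast _ j hj] at k2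
    rw [Finset.sum_add_distrib]
    exact k2

theorem gp_one : GP 1 (sq [1]) (sq [1]) :=
  gp_of_lists [1] [1] (by decide) (by decide) rfl (by decide)

theorem gp_exists (a b c : ℕ) : ∃ P Q, GP (2 ^ a * 10 ^ b * 26 ^ c) P Q := by
  have step : ∀ {m k : ℕ} {C D : ℕ → ℤ}, 0 < m → GP k C D → (∃ P Q, GP m P Q) →
      ∃ P Q, GP (m * k) P Q := by
    intro m k C D hm h1 h2
    obtain ⟨P, Q, h2⟩ := h2
    obtain ⟨F, G, h3, _⟩ := GP.mul hm h2 h1
    exact ⟨F, G, h3⟩
  induction c with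
  | succ c ih =>
    have h1 : 2 ^ a * 10 ^ b * 26 ^ (c + 1) = 2 ^ a * 10 ^ b * 26 ^ c * 26 := by ring
    rw [h1]; exact step (by positivity) gp_26 ih
  | zero =>
    rw [pow_zero, mul_one]
    induction b with
    | succ b ih =>
      have h1 : 2 ^ a * 10 ^ (b + 1) = 2 ^ a * 10 ^ b * 10 := by ring
      rw [h1]; exact step (by positivity) gp_ten ih
    | zero =>
      rw [pow_zero, mul_one]
      induction a with
      | succ a ih =>
        rw [pow_succ]; exact step (by positivity) gp_two ih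
      | zero => rw [pow_zero]; exact ⟨_, _, gp_one⟩

theorem base_exists {s g : ℕ} (hs : 1 ≤ s) (hg : 1 ≤ g) (h1 : GolayNumber s) (h2 : GolayNumber g) :
    ∃ A B C D, IsBase (2 * s * g + s + g) A B C D := by
  obtain ⟨F, G, hF, hG, hFG⟩ := gp_of_golayNumber h1
  obtain ⟨P, Q, hP, hQ, hPQ⟩ := gp_of_golayNumber h2
  obtain ⟨A, B, C, D, h, _⟩ := compose s g hs hg P Q F G hP hQ hF hG hPQ hFG
  exact ⟨A, B, C, D, h⟩

end Pool.Agent.H28BS
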