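import Pool.Agent.H28BS.Clique

/-! The vertices attached to pairs of representations `p² + q² = 2g`, `f² + h² = 2s`. -/

namespace Pool.Agent.H28BS

open Finset

/-- first half sum -/
def hX (p q f h : ℤ) : ℤ := q * h + f + p
/-- second half sum -/
def hY (p f : ℤ) : ℤ := 1 - p * f
/-- third half sum -/
def hZ (p q h : ℤ) : ℤ := q - h * p
/-- fourth half sum -/
def hW (q f h : ℤ) : ℤ := h - q * f

theorem vg_norm {n s g : ℕ} (hn : n = 2 * s * g + s + g) {p q f h : ℤ} (h1 : p ^ 2 + q ^ 2 = 2 * g)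
    (h2 : f ^ 2 + h ^ 2 = 2 * s) :
    (hX p q f h + hY p f) ^ 2 + (hX p q f h - hY p f) ^ 2 + (hZ p q h + hW q f h) ^ 2 +
      (hZ p q h - hW q f h) ^ 2 = 4 * n + 2 := by
  have : (n : ℤ) = 2 * s * g + s + g := by rw [hn]; push_cast; ring
  rw [this]
  unfold hX hY hZ hW
  linear_combination 2 * (1 + f ^ 2 + h ^ 2) * h1 + 2 * (1 + 2 * (g : ℤ)) * h2

/-- the vertex attached to two representations -/
def vg {n s g : ℕ} (hn : n = 2 * s * g + s + g) (p q f h : ℤ) (h1 : p ^ 2 + q ^ 2 = 2 * g)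
    (h2 : f ^ 2 + h ^ 2 = 2 * s) : Vertex n :=
  vtx n (hX p q f h + hY p f) (hX p q f h - hY p f) (hZ p q h + hW q f h) (hZ p q h - hW q f h)
    (vg_norm hn h1 h2)

theorem vg_adj {n s g : ℕ} (hn : n = 2 * s * g + s + g) (hs0 : 1 ≤ s) (hg0 : 1 ≤ g)
    (hs2 : s % 2 = 0) (hg2 : g % 2 = 0) {p q p' q' f h f' h' : ℤ}
    (h1 : p ^ 2 + q ^ 2 = 2 * g) (h1' : p' ^ 2 + q' ^ 2 = 2 * g)
    (h2 : f ^ 2 + h ^ 2 = 2 * s) (h2' : f' ^ 2 + h' ^ 2 = 2 * s)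
    (v1 : Val g p q p' q') (v2 : Val s f h f' (-h')) :
    Adj n (vg hn p q f h h1 h2) (vg hn p' q' f' h' h1' h2') := by
  obtain ⟨A, B, C, D, hb, a1, a2, a3, a4, b1, b2, b3, b4⟩ := base_of_vals hn hs0 hg0 v1 v2
  have hE : ((-1 : ℤ)) ^ g = 1 := (Nat.even_iff.mpr hg2).neg_one_pow
  have hE0 : ((-1 : ℤ)) ^ s = 1 := (Nat.even_iff.mpr hs2).neg_one_pow
  have hE1 : ((-1 : ℤ)) ^ (s + g) = 1 := by rw [pow_add, hE, hE0]; norm_num
  have hO : ((-1 : ℤ)) ^ (s - 1) = -1 := Odd.neg_one_pow (Nat.odd_iff.mpr (by omega))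
  have hO2 : ((-1 : ℤ)) ^ (s + g - 1) = -1 := Odd.neg_one_pow (Nat.odd_iff.mpr (by omega))
  rw [hE, hE0, hE1, hO] at b1 b2
  rw [hO2] at b3 b4
  have hs : vg hn p' q' f' h' h1' h2' = vtx n (hX p' q' f' h' + hY p' f') (hX p' q' f' h' - hY p' f')
      (hZ p' q' h' - hW q' f' h') (hZ p' q' h' + hW q' f' h')
      (by have := vg_norm hn h1' h2'; linarith) := vtx_swap34 _ _
  rw [hs]
  unfold vg
  refine adj_of_base hb ?_ ?_ ?_ ?_ ?_ ?_ ?_ ?_ _ _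
  · rw [a1]; unfold hX hY; ring
  · rw [a2]; unfold hX hY; ring
  · rw [a3]; unfold hZ hW; ring
  · rw [a4]; unfold hZ hW; ring
  · rw [b1]; unfold hX hY; ring
  · rw [b2]; unfold hX hY; ring
  · rw [b3]; unfold hZ hW; ring
  · rw [b4]; unfold hZ hW; ring

theorem par_X {p q f h : ℤ} (hp : p % 2 = 0) (hq : q % 2 = 0) (hf : f % 2 = 0) :
    hX p q f h % 2 = 0 := by
  obtain ⟨x, rfl⟩ : ∃ x, p = 2 * x := ⟨p / 2, by omega⟩
  obtain ⟨y, rfl⟩ : ∃ y, q = 2 * y := ⟨q / 2, by omega⟩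
  obtain ⟨z, rfl⟩ : ∃ z, f = 2 * z := ⟨f / 2, by omega⟩
  have : hX (2 * x) (2 * y) (2 * z) h = 2 * (y * h + z + x) := by unfold hX; ring
  omega

theorem par_Y {p f : ℤ} (hp : p % 2 = 0) (hf : f % 2 = 0) : hY p f % 4 = 1 := by
  obtain ⟨x, rfl⟩ : ∃ x, p = 2 * x := ⟨p / 2, by omega⟩
  obtain ⟨z, rfl⟩ : ∃ z, f = 2 * z := ⟨f / 2, by omega⟩
  have : hY (2 * x) (2 * z) = 4 * (- (x * z)) + 1 := by unfold hY; ring
  omega

theorem par_Z {p q h : ℤ} (hq : q % 2 = 0) (hh : h % 2 = 0) : hZ p q h % 2 = 0 := by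
  obtain ⟨y, rfl⟩ : ∃ y, q = 2 * y := ⟨q / 2, by omega⟩
  obtain ⟨z, rfl⟩ : ∃ z, h = 2 * z := ⟨h / 2, by omega⟩
  have : hZ p (2 * y) (2 * z) = 2 * (y - z * p) := by unfold hZ; ring
  omega

theorem par_W {q f h : ℤ} (hq : q % 2 = 0) (hh : h % 2 = 0) : hW q f h % 2 = 0 := by
  obtain ⟨y, rfl⟩ : ∃ y, q = 2 * y := ⟨q / 2, by omega⟩
  obtain ⟨z, rfl⟩ : ∃ z, h = 2 * z := ⟨h / 2, by omega⟩
  have : hW (2 * y) f (2 * z) = 2 * (z - y * f) := by unfold hW; ring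
  omega

theorem par_ZW {p q f h : ℤ} (hp : p % 2 = 0) (hq : q % 2 = 0) (hf : f % 2 = 0) (hh : h % 2 = 0) :
    (hZ p q h + hW q f h) % 4 = (q + h) % 4 ∧ (hZ p q h - hW q f h) % 4 = (q + h) % 4 := by
  obtain ⟨x, rfl⟩ : ∃ x, p = 2 * x := ⟨p / 2, by omega⟩
  obtain ⟨y, rfl⟩ : ∃ y, q = 2 * y := ⟨q / 2, by omega⟩
  obtain ⟨z, rfl⟩ : ∃ z, f = 2 * z := ⟨f / 2, by omega⟩
  obtain ⟨w, rfl⟩ : ∃ w, h = 2 * w := ⟨h / 2, by omega⟩
  have e1 : hZ (2 * x) (2 * y) (2 * w) + hW (2 * y) (2 * z) (2 * w) =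
      4 * (- (w * x) - y * z) + (2 * y + 2 * w) := by unfold hZ hW; ring
  have e2 : hZ (2 * x) (2 * y) (2 * w) - hW (2 * y) (2 * z) (2 * w) =
      4 * (- (w * x) + y * z - w) + (2 * y + 2 * w) := by unfold hZ hW; ring
  constructor <;> omega

theorem vg_type {n s g : ℕ} (hn : n = 2 * s * g + s + g) {p q f h : ℤ} (h1 : p ^ 2 + q ^ 2 = 2 * g)
    (h2 : f ^ 2 + h ^ 2 = 2 * s) (hp : p % 2 = 0) (hq : q % 2 = 0) (hf : f % 2 = 0) (hh : h % 2 = 0) :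
    (∃ r ∈ (vg hn p q f h h1 h2).1, r % 4 = 2) ↔ (q + h) % 4 = 2 := by
  have eX := par_X (h := h) hp hq hf
  have eY := par_Y hp hf
  obtain ⟨e1, e2⟩ := par_ZW hp hq hf hh
  change (∃ r ∈ ({(hX p q f h + hY p f).natAbs, (hX p q f h - hY p f).natAbs,
    (hZ p q h + hW q f h).natAbs, (hZ p q h - hW q f h).natAbs} : Multiset ℕ), r % 4 = 2) ↔ _
  simp only [Multiset.insert_eq_cons, Multiset.mem_cons, Multiset.mem_singleton, exists_eq_or_imp,
    exists_eq_left]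
  constructor
  · rintro (k | k | k | k) <;> omega
  · intro k
    right; right; left
    omega

theorem vg_inv {n s g : ℕ} (hn : n = 2 * s * g + s + g) {p q f h p' q' f' h' : ℤ}
    (h1 : p ^ 2 + q ^ 2 = 2 * g) (h2 : f ^ 2 + h ^ 2 = 2 * s)
    (h1' : p' ^ 2 + q' ^ 2 = 2 * g) (h2' : f' ^ 2 + h' ^ 2 = 2 * s)
    (hp : p % 2 = 0) (hq : q % 2 = 0) (hf : f % 2 = 0) (hh : h % 2 = 0)
    (hp' : p' % 2 = 0) (hq' : q' % 2 = 0) (hf' : f' % 2 = 0) (hh' : h' % 2 = 0)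
    (heq : vg hn p q f h h1 h2 = vg hn p' q' f' h' h1' h2') :
    hX p q f h ^ 2 = hX p' q' f' h' ^ 2 ∧ p * f = p' * f' ∧
      (hZ p q h * hW q f h) ^ 2 = (hZ p' q' h' * hW q' f' h') ^ 2 := by
  have eX := par_X (h := h) hp hq hf
  have eY := par_Y hp hf
  have eZ := par_Z (p := p) hq hh
  have eW := par_W (f := f) hq hh
  have eX' := par_X (h := h') hp' hq' hf'
  have eY' := par_Y hp' hf'
  have eZ' := par_Z (p := p') hq' hh'
  have eW' := par_W (f := f') hq' hh'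
  have hm : ({(hX p q f h + hY p f).natAbs, (hX p q f h - hY p f).natAbs,
    (hZ p q h + hW q f h).natAbs, (hZ p q h - hW q f h).natAbs} : Multiset ℕ) =
    {(hX p' q' f' h' + hY p' f').natAbs, (hX p' q' f' h' - hY p' f').natAbs,
    (hZ p' q' h' + hW q' f' h').natAbs, (hZ p' q' h' - hW q' f' h').natAbs} :=
    congrArg Subtype.val heq
  obtain ⟨i1, i2, i3, i4⟩ := inv_of_eq (by omega) (by omega) (by omega) (by omega) (by omega) (by omega)
    (by omega) (by omega) hm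
  have hsq : ∀ x y : ℤ, x % 2 = 0 → y % 2 = 1 → x ^ 2 ≠ y ^ 2 := by
    intro x y hx hy hxy
    have h3 : (x ^ 2) % 2 = 0 := by simp [pow_two, Int.mul_emod, hx]
    have h4 : (y ^ 2) % 2 = 1 := by simp [pow_two, Int.mul_emod, hy]
    omega
  have k : hX p q f h ^ 2 = hX p' q' f' h' ^ 2 ∧ hY p f ^ 2 = hY p' f' ^ 2 := by
    rcases half_sums i1 i2 with k | ⟨k1, k2⟩
    · exact k
    · exact absurd k1 (hsq _ _ eX (by omega))
  refine ⟨k.1, ?_, ?_⟩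
  · rcases sq_eq_sq_iff_eq_or_eq_neg.mp k.2 with k3 | k3
    · unfold hY at k3; linarith
    · omega
  · rcases half_sums i3 i4 with ⟨k1, k2⟩ | ⟨k1, k2⟩
    · rw [mul_pow, mul_pow, k1, k2]
    · rw [mul_pow, mul_pow, k1, k2]; ring

/-- the key linear relation -/
theorem key_linear {s g p q f h : ℤ} (h1 : p ^ 2 + q ^ 2 = 2 * g) (h2 : f ^ 2 + h ^ 2 = 2 * s) :
    (2 * g + 1) * f + (2 * s + 1) * p = hX p q f h * (1 + p * f) - hZ p q h * hW q f h := by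
  unfold hX hZ hW
  linear_combination -(f * h1) - p * h2

theorem inner_two {s g : ℤ} (E : Finset ((ℤ × ℤ) × (ℤ × ℤ))) (k X0 M0 p0 : ℤ) (hg : 0 ≤ g)
    (hE : ∀ e ∈ E, e.1.1 ^ 2 + e.1.2 ^ 2 = 2 * g ∧ e.2.1 ^ 2 + e.2.2 ^ 2 = 2 * s ∧ e.1.1 * e.2.1 = k ∧
      hX e.1.1 e.1.2 e.2.1 e.2.2 = X0 ∧ hZ e.1.1 e.1.2 e.2.2 * hW e.1.2 e.2.1 e.2.2 = M0 ∧ e.1.1 = p0) :
    E.card ≤ 2 := by
  classical
  rcases E.eq_empty_or_nonempty with h | ⟨e0, he0⟩
  · rw [h]; simp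
  · have hsub : E ⊆ {e0, ((e0.1.1, - e0.1.2), (e0.2.1, - e0.2.2))} := by
      intro e he
      obtain ⟨a1, a2, a3, a4, a5, a6⟩ := hE e he
      obtain ⟨b1, b2, b3, b4, b5, b6⟩ := hE e0 he0
      have ka := key_linear a1 a2
      have kb := key_linear b1 b2
      rw [a3, a4, a5, a6] at ka
      rw [b3, b4, b5, b6] at kb
      have hf : e.2.1 = e0.2.1 := by
        have : (2 * g + 1) * e.2.1 = (2 * g + 1) * e0.2.1 := by linarith
        exact mul_left_cancel₀ (by omega) this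
      have hp : e.1.1 = e0.1.1 := by rw [a6, b6]
      have hq : e.1.2 ^ 2 = e0.1.2 ^ 2 := by rw [hp] at a1; linarith
      have hh : e.2.2 ^ 2 = e0.2.2 ^ 2 := by rw [hf] at a2; linarith
      have hqh : e.1.2 * e.2.2 = e0.1.2 * e0.2.2 := by
        unfold hX at a4 b4
        rw [hf, hp] at a4
        linarith
      rw [Finset.mem_insert, Finset.mem_singleton]
      rcases sq_eq_sq_iff_eq_or_eq_neg.mp hq with u | u <;>
        rcases sq_eq_sq_iff_eq_or_eq_neg.mp hh with v | v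
      · left; exact Prod.ext (Prod.ext hp u) (Prod.ext hf v)
      · rw [u, v] at hqh
        have : e0.1.2 * e0.2.2 = 0 := by linarith
        rcases mul_eq_zero.mp this with w | w
        · right
          refine Prod.ext (Prod.ext hp ?_) (Prod.ext hf v)
          show e.1.2 = -e0.1.2
          rw [u, w]; rfl
        · left
          refine Prod.ext (Prod.ext hp u) (Prod.ext hf ?_)
          rw [v, w]; rfl
      · rw [u, v] at hqh
        have : e0.1.2 * e0.2.2 = 0 := by linarith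
        rcases mul_eq_zero.mp this with w | w
        · left
          refine Prod.ext (Prod.ext hp ?_) (Prod.ext hf v)
          rw [u, w]; rfl
        · right
          refine Prod.ext (Prod.ext hp u) (Prod.ext hf ?_)
          show e.2.2 = -e0.2.2
          rw [v, w]; rfl
      · right
        exact Prod.ext (Prod.ext hp u) (Prod.ext hf v)
    exact le_trans (Finset.card_le_card hsub) (Finset.card_le_two)

theorem inner_four {s g : ℤ} (E : Finset ((ℤ × ℤ) × (ℤ × ℤ))) (k X0 M0 : ℤ) (hg : 0 ≤ g) (hs : 0 ≤ s)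
    (hE : ∀ e ∈ E, e.1.1 ^ 2 + e.1.2 ^ 2 = 2 * g ∧ e.2.1 ^ 2 + e.2.2 ^ 2 = 2 * s ∧ e.1.1 * e.2.1 = k ∧
      hX e.1.1 e.1.2 e.2.1 e.2.2 = X0 ∧ hZ e.1.1 e.1.2 e.2.2 * hW e.1.2 e.2.1 e.2.2 = M0) :
    E.card ≤ 4 := by
  classical
  rcases E.eq_empty_or_nonempty with h | ⟨e0, he0⟩
  · rw [h]; simp
  · have hmaps : ∀ e ∈ E, e.1.1 ∈ ({e0.1.1, ((2 * g + 1) * e0.2.1) / (2 * s + 1)} : Finset ℤ) := by
      intro e he
      obtain ⟨a1, a2, a3, a4, a5⟩ := hE e he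
      obtain ⟨b1, b2, b3, b4, b5⟩ := hE e0 he0
      have ka := key_linear a1 a2
      have kb := key_linear b1 b2
      rw [a3, a4, a5] at ka
      rw [b3, b4, b5] at kb
      have hsum : (2 * g + 1) * e.2.1 + (2 * s + 1) * e.1.1 =
          (2 * g + 1) * e0.2.1 + (2 * s + 1) * e0.1.1 := by rw [ka, kb]
      have hprod : e.1.1 * e.2.1 = e0.1.1 * e0.2.1 := by rw [a3, b3]
      have hz : (2 * s + 1) * (e.1.1 - e0.1.1) * ((2 * s + 1) * e.1.1 - (2 * g + 1) * e0.2.1) = 0 := by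
        linear_combination ((2 * s + 1) * e.1.1) * hsum - (2 * s + 1) * (2 * g + 1) * hprod
      rw [Finset.mem_insert, Finset.mem_singleton]
      rcases mul_eq_zero.mp hz with w | w
      · left
        rcases mul_eq_zero.mp w with w | w
        · omega
        · linarith
      · right
        have : (2 * g + 1) * e0.2.1 = (2 * s + 1) * e.1.1 := by linarith
        rw [this, Int.mul_ediv_cancel_left _ (by omega)]
    have hc := Finset.card_le_mul_card_image_of_maps_to hmaps 2 (by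
      intro p0 _
      refine inner_two (s := s) (g := g) _ k X0 M0 p0 hg ?_
      intro e he
      rw [Finset.mem_filter] at he
      obtain ⟨a1, a2, a3, a4, a5⟩ := hE e he.1
      exact ⟨a1, a2, a3, a4, a5, he.2⟩)
    have h2 : ({e0.1.1, ((2 * g + 1) * e0.2.1) / (2 * s + 1)} : Finset ℤ).card ≤ 2 :=
      Finset.card_le_two
    omega

theorem fibre_le {s g : ℤ} (E : Finset ((ℤ × ℤ) × (ℤ × ℤ))) (k X0 M0 : ℤ) (hg : 0 ≤ g) (hs : 0 ≤ s)
    (hE : ∀ e ∈ E, e.1.1 ^ 2 + e.1.2 ^ 2 = 2 * g ∧ e.2.1 ^ 2 + e.2.2 ^ 2 = 2 * s ∧ e.1.1 * e.2.1 = k ∧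
      hX e.1.1 e.1.2 e.2.1 e.2.2 ^ 2 = X0 ^ 2 ∧
      (hZ e.1.1 e.1.2 e.2.2 * hW e.1.2 e.2.1 e.2.2) ^ 2 = M0 ^ 2) :
    E.card ≤ 16 := by
  classical
  have hmaps : ∀ e ∈ E, (hX e.1.1 e.1.2 e.2.1 e.2.2, hZ e.1.1 e.1.2 e.2.2 * hW e.1.2 e.2.1 e.2.2) ∈
      (({X0, -X0} : Finset ℤ) ×ˢ ({M0, -M0} : Finset ℤ)) := by
    intro e he
    obtain ⟨a1, a2, a3, a4, a5⟩ := hE e he
    rw [Finset.mem_product]
    constructor
    · rw [Finset.mem_insert, Finset.mem_singleton]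
      exact sq_eq_sq_iff_eq_or_eq_neg.mp a4
    · rw [Finset.mem_insert, Finset.mem_singleton]
      exact sq_eq_sq_iff_eq_or_eq_neg.mp a5
  have hc := Finset.card_le_mul_card_image_of_maps_to hmaps 4 (by
    rintro ⟨x, m⟩ _
    refine inner_four (s := s) (g := g) _ k x m hg hs ?_
    intro e he
    rw [Finset.mem_filter] at he
    obtain ⟨a1, a2, a3, a4, a5⟩ := hE e he.1
    have := he.2
    rw [Prod.mk.injEq] at this
    exact ⟨a1, a2, a3, this.1, this.2⟩)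
  have h2 : (({X0, -X0} : Finset ℤ) ×ˢ ({M0, -M0} : Finset ℤ)).card ≤ 4 := by
    rw [Finset.card_product]
    have i1 : ({X0, -X0} : Finset ℤ).card ≤ 2 := Finset.card_le_two
    have i2 : ({M0, -M0} : Finset ℤ).card ≤ 2 := Finset.card_le_two
    nlinarith
  omega

end Pool.Agent.H28BS
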