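import Pool.Agent.H28BS.Main

/-! Golay pairs with prescribed values at `1` and `-1`. -/

namespace Pool.Agent.H28BS

open Finset

/-- `(P;Q)` is a Golay pair of length `g` (norm identity in all commutative rings). -/
def GP (g : ℕ) (P Q : ℕ → ℤ) : Prop :=
  (∀ i, i < g → Sgn (P i)) ∧ (∀ i, i < g → Sgn (Q i)) ∧
    ∀ (R : Type) [CommRing R] (u v : R), u * v = 1 →
      ev P g u * ev P g v + ev Q g u * ev Q g v = 2 * g

theorem GP.neg_snd {g : ℕ} {P Q : ℕ → ℤ} (h : GP g P Q) : GP g P (fun i => -Q i) := by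
  obtain ⟨h1, h2, h3⟩ := h
  refine ⟨h1, fun i hi => (h2 i hi).neg, fun R _ u v huv => ?_⟩
  have e : ∀ w : R, ev (fun i => -Q i) g w = -ev Q g w := by
    intro w
    have : ev (fun i => -Q i) g w = ev (fun i => (-1) * Q i) g w := ev_congr (fun i _ => by ring) w
    rw [this, ev_smul]; push_cast; ring
  rw [e, e]
  linear_combination h3 R u v huv

theorem GP.rev_snd {g : ℕ} {P Q : ℕ → ℤ} (h : GP g P Q) : GP g P (fun i => Q (g - 1 - i)) := by
  obtain ⟨h1, h2, h3⟩ := h
  refine ⟨h1, fun i hi => h2 _ (by omega), fun R _ u v huv => ?_⟩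
  have huv' : v * u = 1 := by rw [mul_comm]; exact huv
  rw [ev_rev Q g u v huv, ev_rev Q g v u huv']
  have : u ^ (g - 1) * v ^ (g - 1) = 1 := by rw [← mul_pow, huv, one_pow]
  linear_combination h3 R u v huv + ev Q g u * ev Q g v * this

theorem ev_neg_fun {R : Type} [CommRing R] (Q : ℕ → ℤ) (g : ℕ) (w : R) :
    ev (fun i => -Q i) g w = -ev Q g w := by
  have : ev (fun i => -Q i) g w = ev (fun i => (-1) * Q i) g w := ev_congr (fun i _ => by ring) w
  rw [this, ev_smul]; push_cast; ring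

/-- The product of Golay pairs, with its values at `w = ±1`. -/
theorem GP.mul {m k : ℕ} {A B C D : ℕ → ℤ} (hm : 0 < m) (H1 : GP m A B) (H2 : GP k C D) :
    ∃ F G, GP (m * k) F G ∧ ∀ w : ℤ, w * w = 1 →
      2 * ev F (m * k) w = ev A m w * (ev C k (w ^ m) + ev D k (w ^ m)) +
        w ^ (m - 1) * ev B m w * (ev C k (w ^ m) - ev D k (w ^ m)) ∧
      2 * ev G (m * k) w = ev B m w * (ev C k (w ^ m) + ev D k (w ^ m)) -
        w ^ (m - 1) * ev A m w * (ev C k (w ^ m) - ev D k (w ^ m)) := by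
  obtain ⟨ha, hb, hab⟩ := H1
  obtain ⟨hc, hd, hcd⟩ := H2
  have hp : ∀ j, ∃ p q : ℤ, j < k → 2 * p = C j + D j ∧ 2 * q = C j - D j ∧
      ((p = 0 ∧ Sgn q) ∨ (q = 0 ∧ Sgn p)) := by
    intro j
    by_cases hj : j < k
    · rcases hc j hj with h1 | h1 <;> rcases hd j hj with h2 | h2 <;> rw [h1, h2]
      · exact ⟨1, 0, fun _ => by norm_num [Sgn]⟩
      · exact ⟨0, 1, fun _ => by norm_num [Sgn]⟩
      · exact ⟨0, -1, fun _ => by norm_num [Sgn]⟩
      · exact ⟨-1, 0, fun _ => by norm_num [Sgn]⟩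
    · exact ⟨0, 0, fun h => absurd h hj⟩
  choose p q hpq using hp
  have hE : ∀ {R : Type} [CommRing R] (x y : ℕ → ℤ) (w : R), ev (fun n => x (n % m) * p (n / m) +
      y (n % m) * q (n / m)) (m * k) w =
      ev x m w * ev p k (w ^ m) + ev y m w * ev q k (w ^ m) := by
    intro R _ x y w
    rw [ev_cells]
    have : ∀ j ∈ range k, (w ^ m) ^ j * ev (fun r => x ((m * j + r) % m) * p ((m * j + r) / m) +
        y ((m * j + r) % m) * q ((m * j + r) / m)) m w =
        ev x m w * ((p j : R) * (w ^ m) ^ j) + ev y m w * ((q j : R) * (w ^ m) ^ j) := by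
      intro j _
      have e1 : ev (fun r => x ((m * j + r) % m) * p ((m * j + r) / m) +
          y ((m * j + r) % m) * q ((m * j + r) / m)) m w =
          ev (fun r => p j * x r + q j * y r) m w := by
        refine ev_congr (fun r hr => ?_) w
        rw [Nat.mul_add_mod, Nat.mod_eq_of_lt hr, Nat.mul_add_div hm, Nat.div_eq_of_lt hr, add_zero]
        ring
      rw [e1, ev_add, ev_smul, ev_smul]; ring
    rw [Finset.sum_congr rfl this, Finset.sum_add_distrib, ← Finset.mul_sum, ← Finset.mul_sum]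
    rfl
  have hP : ∀ {R : Type} [CommRing R] (w : R), ev C k w = ev p k w + ev q k w := by
    intro R _ w
    rw [← ev_add]
    refine ev_congr (fun j hj => ?_) w
    obtain ⟨h1, h2, _⟩ := hpq j hj
    linarith
  have hQ : ∀ {R : Type} [CommRing R] (w : R), ev D k w = ev p k w - ev q k w := by
    intro R _ w
    rw [← ev_sub]
    refine ev_congr (fun j hj => ?_) w
    obtain ⟨h1, h2, _⟩ := hpq j hj
    linarith
  have hlt : ∀ n, n < m * k → n % m < m ∧ n / m < k := fun n hn =>
    ⟨Nat.mod_lt _ hm, Nat.div_lt_of_lt_mul hn⟩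
  have hF : ∀ {R : Type} [CommRing R] (w : R), ev (fun n => A (n % m) * p (n / m) +
      B (m - 1 - n % m) * q (n / m)) (m * k) w =
      ev A m w * ev p k (w ^ m) + ev (fun i => B (m - 1 - i)) m w * ev q k (w ^ m) := by
    intro R _ w; exact hE A (fun i => B (m - 1 - i)) w
  have hG : ∀ {R : Type} [CommRing R] (w : R), ev (fun n => B (n % m) * p (n / m) -
      A (m - 1 - n % m) * q (n / m)) (m * k) w =
      ev B m w * ev p k (w ^ m) - ev (fun i => A (m - 1 - i)) m w * ev q k (w ^ m) := by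
    intro R _ w
    have h1 := hE B (fun i => -A (m - 1 - i)) w
    rw [ev_neg_fun (fun i => A (m - 1 - i)) m w] at h1
    have h2 : (fun n => B (n % m) * p (n / m) - A (m - 1 - n % m) * q (n / m)) =
        (fun n => B (n % m) * p (n / m) + -A (m - 1 - n % m) * q (n / m)) := by
      funext n; ring
    rw [h2, h1]; ring
  refine ⟨fun n => A (n % m) * p (n / m) + B (m - 1 - n % m) * q (n / m),
    fun n => B (n % m) * p (n / m) - A (m - 1 - n % m) * q (n / m), ⟨?_, ?_, ?_⟩, ?_⟩
  · intro n hn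
    obtain ⟨h1, h2⟩ := hlt n hn
    obtain ⟨_, _, h3⟩ := hpq _ h2
    have h4 := ha _ h1
    have h5 := hb (m - 1 - n % m) (by omega)
    simp only []
    rcases h3 with ⟨h3, h6⟩ | ⟨h3, h6⟩
    · rw [h3, mul_zero, zero_add]; exact h5.mul h6
    · rw [h3, mul_zero, add_zero]; exact h4.mul h6
  · intro n hn
    obtain ⟨h1, h2⟩ := hlt n hn
    obtain ⟨_, _, h3⟩ := hpq _ h2
    have h4 := hb _ h1
    have h5 := ha (m - 1 - n % m) (by omega)
    simp only []
    rcases h3 with ⟨h3, h6⟩ | ⟨h3, h6⟩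
    · rw [h3, mul_zero, zero_sub]; exact (h5.mul h6).neg
    · rw [h3, mul_zero, sub_zero]; exact h4.mul h6
  · intro R _ u v huv
    have huv' : v * u = 1 := by rw [mul_comm]; exact huv
    rw [hF u, hF v, hG u, hG v, ev_rev B m u v huv, ev_rev B m v u huv', ev_rev A m u v huv,
      ev_rev A m v u huv']
    have huvg : u ^ m * v ^ m = 1 := by rw [← mul_pow, huv, one_pow]
    have huvg1 : u ^ (m - 1) * v ^ (m - 1) = 1 := by rw [← mul_pow, huv, one_pow]
    have k1 := hab R u v huv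
    have k2 := hcd R (u ^ m) (v ^ m) huvg
    rw [hP, hQ, hP, hQ] at k2
    generalize ev p k (u ^ m) = P at *
    generalize ev p k (v ^ m) = P' at *
    generalize ev q k (u ^ m) = Q at *
    generalize ev q k (v ^ m) = Q' at *
    generalize ev A m u = A1 at *
    generalize ev A m v = A' at *
    generalize ev B m u = B1 at *
    generalize ev B m v = B' at *
    generalize u ^ (m - 1) = U at *
    generalize v ^ (m - 1) = V at *
    push_cast
    linear_combination (P * P' + Q * Q') * k1 + (m : R) * k2 +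
      (A1 * A' + B1 * B') * (Q * Q') * huvg1
  · intro w hw
    have e1 : 2 * ev p k (w ^ m) = ev C k (w ^ m) + ev D k (w ^ m) := by rw [hP, hQ]; ring
    have e2 : 2 * ev q k (w ^ m) = ev C k (w ^ m) - ev D k (w ^ m) := by rw [hP, hQ]; ring
    rw [hF w, hG w, ev_rev B m w w hw, ev_rev A m w w hw, ← e1, ← e2]
    constructor <;> ring

/-- sequence given by a list, extended by zero -/
def sq (l : List ℤ) (i : ℕ) : ℤ := l.getD i 0

/-- a Golay pair from two explicit lists -/
theorem gp_of_lists (l1 l2 : List ℤ) (h1 : ∀ x ∈ l1, x = 1 ∨ x = -1) (h2 : ∀ x ∈ l2, x = 1 ∨ x = -1)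
    (hl : l2.length = l1.length)
    (h : ∀ j, j < l1.length → ∑ i ∈ range l1.length,
      (sq l1 i * sq l1 (i + (j + 1)) + sq l2 i * sq l2 (i + (j + 1))) = 0) :
    GP l1.length (sq l1) (sq l2) := by
  have s1 : ∀ (l : List ℤ), (∀ x ∈ l, x = 1 ∨ x = -1) → ∀ i, i < l.length → Sgn (sq l i) := by
    intro l hl i hi
    unfold sq
    rw [List.getD_eq_getElem _ _ hi]
    exact hl _ (List.getElem_mem hi)
  have s0 : ∀ (l : List ℤ) i, l.length ≤ i → sq l i = 0 := by
    intro l i hi
    unfold sq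
    exact List.getD_eq_default _ _ hi
  refine ⟨s1 l1 h1, fun i hi => s1 l2 h2 i (by omega), fun R _ u v huv => ?_⟩
  refine norm_of_golay l1.length (sq l1) (sq l2) (s1 l1 h1) (s0 l1)
    (fun i hi => s1 l2 h2 i (by omega)) (fun i hi => s0 l2 i (by omega)) ?_ u v huv
  intro j hj
  by_cases hj2 : j - 1 < l1.length
  · have := h (j - 1) hj2
    have h3 : j - 1 + 1 = j := by omega
    rw [h3] at this; exact this
  · refine Finset.sum_eq_zero (fun i _ => ?_)
    rw [s0 l1 (i + j) (by omega), s0 l2 (i + j) (by omega)]; ring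

theorem gp_two : GP 2 (sq [1, 1]) (sq [1, -1]) :=
  gp_of_lists [1, 1] [1, -1] (by decide) (by decide) rfl (by decide)

theorem gp_four : GP 4 (sq [1, 1, 1, -1]) (sq [1, 1, -1, 1]) :=
  gp_of_lists [1, 1, 1, -1] [1, 1, -1, 1] (by decide) (by decide) rfl (by decide)

/-- first sequence of length ten -/
def l10a : List ℤ := [1, 1, -1, 1, 1, 1, 1, 1, -1, -1]
/-- second sequence of length ten -/
def l10b : List ℤ := [1, 1, -1, 1, -1, 1, -1, -1, 1, 1]

theorem gp_ten : GP 10 (sq l10a) (sq l10b) :=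
  gp_of_lists l10a l10b (by decide) (by decide) rfl (by decide)

/-- first sequence of length twenty-six -/
def l26a : List ℤ :=
  [1, 1, 1, 1, -1, 1, 1, -1, -1, 1, -1, 1, -1, 1, -1, -1, 1, -1, 1, 1, 1, -1, -1, 1, 1, 1]
/-- second sequence of length twenty-six -/
def l26b : List ℤ :=
  [1, 1, 1, 1, -1, 1, 1, -1, -1, 1, -1, 1, 1, 1, 1, 1, -1, 1, -1, -1, -1, 1, 1, -1, -1, -1]

theorem gp_26 : GP 26 (sq l26a) (sq l26b) :=
  gp_of_lists l26a l26b (by decide) (by decide) rfl (by decide)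

end Pool.Agent.H28BS
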