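import Pool.Agent.H28BS.YangT
import Pool.Agent.TH394.HadGS

/-! Hadamard matrices from base sequences, Golay pairs and Williamson functions. -/

set_option linter.unusedSectionVars false
set_option linter.unusedSimpArgs false

namespace Pool.Agent.H28BS

open Finset Pool.Agent.TH394

section group

variable {G : Type} [AddCommGroup G] [Fintype G] [DecidableEq G]

/-- the group ring element of a function -/
noncomputable def fh (f : G → ℤ) : AddMonoidAlgebra ℤ G := ∑ x, AddMonoidAlgebra.single x (f x)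
/-- the conjugate -/
noncomputable def fh' (f : G → ℤ) : AddMonoidAlgebra ℤ G := ∑ x, AddMonoidAlgebra.single (-x) (f x)

theorem fh_add (f g : G → ℤ) : fh (fun x => f x + g x) = fh f + fh g := by
  unfold fh
  rw [← Finset.sum_add_distrib]
  exact Finset.sum_congr rfl (fun x _ => by rw [AddMonoidAlgebra.single_add])

theorem fh'_add (f g : G → ℤ) : fh' (fun x => f x + g x) = fh' f + fh' g := by
  unfold fh'
  rw [← Finset.sum_add_distrib]
  exact Finset.sum_congr rfl (fun x _ => by rw [AddMonoidAlgebra.single_add])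

theorem fh_neg (f : G → ℤ) : fh (fun x => -f x) = -fh f := by
  unfold fh
  rw [← Finset.sum_neg_distrib]
  exact Finset.sum_congr rfl (fun x _ => by rw [AddMonoidAlgebra.single_neg])

theorem fh'_neg (f : G → ℤ) : fh' (fun x => -f x) = -fh' f := by
  unfold fh'
  rw [← Finset.sum_neg_distrib]
  exact Finset.sum_congr rfl (fun x _ => by rw [AddMonoidAlgebra.single_neg])

theorem fh'_symm (f : G → ℤ) (hf : ∀ x, f (-x) = f x) : fh' f = fh f := by
  unfold fh' fh
  rw [← Equiv.sum_comp (Equiv.neg G)]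
  refine Finset.sum_congr rfl (fun x _ => ?_)
  simp only [Equiv.neg_apply, neg_neg, hf]

theorem coeff_fh (f : G → ℤ) (s : G) : (fh f * fh' f).coeff s = X f f s := by
  unfold fh fh' X
  rw [Finset.sum_mul_sum]
  simp only [AddMonoidAlgebra.single_mul_single]
  rw [Finset.sum_comm, AddMonoidAlgebra.coeff_sum, Finsupp.finsetSum_apply]
  refine Finset.sum_congr rfl (fun y _ => ?_)
  rw [AddMonoidAlgebra.coeff_sum, Finsupp.finsetSum_apply]
  simp only [AddMonoidAlgebra.coeff_single, Finsupp.single_apply]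
  have h : ∀ x : G, (x + -y = s) ↔ x = y + s := by
    intro x
    constructor
    · intro h; rw [← h]; abel
    · intro h; rw [h]; abel
  simp only [h]
  rw [Finset.sum_ite_eq' Finset.univ (y + s) (fun x => f x * f y)]
  simp [mul_comm]

end group

section prod

variable {K : Type} [AddCommGroup K] [Fintype K] [DecidableEq K] (t : ℕ) [NeZero t]

/-- the function on `ZMod t × K` concentrated on `0 × K` -/
def dl (w : K → ℤ) (p : ZMod t × K) : ℤ := if p.1 = 0 then w p.2 else 0

theorem fh_dl (w : K → ℤ) : fh (dl t w) =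
    ∑ κ, (AddMonoidAlgebra.single ((0 : ZMod t), κ) (w κ) : AddMonoidAlgebra ℤ (ZMod t × K)) := by
  unfold fh dl
  rw [Fintype.sum_prod_type, Finset.sum_eq_single (0 : ZMod t)]
  · simp
  · intro x _ hx
    refine Finset.sum_eq_zero (fun κ _ => ?_)
    simp [hx]
  · intro h; exact absurd (Finset.mem_univ _) h

theorem sum_zmod {M : Type} [AddCommMonoid M] (h : ℕ → M) :
    ∑ x : ZMod t, h x.val = ∑ i ∈ range t, h i := by
  obtain ⟨k, rfl⟩ : ∃ k, t = k + 1 := ⟨t - 1, by have := NeZero.ne t; omega⟩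
  exact Fin.sum_univ_eq_sum_range h (k + 1)

theorem ev_single (q : ℕ → ℤ) (g0 : ZMod t × K) :
    ev q t (AddMonoidAlgebra.single g0 (1 : ℤ) : AddMonoidAlgebra ℤ (ZMod t × K)) =
      ∑ i ∈ range t, AddMonoidAlgebra.single (i • g0) (q i) := by
  unfold ev
  refine Finset.sum_congr rfl (fun i _ => ?_)
  rw [AddMonoidAlgebra.single_pow, one_pow]
  have : ((q i : ℤ) : AddMonoidAlgebra ℤ (ZMod t × K)) = AddMonoidAlgebra.single 0 (q i) := by
    rw [← eq_intCast (algebraMap ℤ (AddMonoidAlgebra ℤ (ZMod t × K))) (q i)]; rfl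
  rw [this, AddMonoidAlgebra.single_mul_single, zero_add, mul_one]

theorem fh_prod (q : ℕ → ℤ) (w : K → ℤ) :
    fh (fun p : ZMod t × K => q p.1.val * w p.2) =
      ev q t (AddMonoidAlgebra.single ((1 : ZMod t), (0 : K)) (1 : ℤ) :
        AddMonoidAlgebra ℤ (ZMod t × K)) * fh (dl t w) := by
  rw [fh_dl, ev_single, Finset.sum_mul_sum]
  unfold fh
  rw [Fintype.sum_prod_type]
  have h : ∀ i : ℕ, ∑ κ : K, (AddMonoidAlgebra.single ((i : ZMod t), κ) (q i * w κ) :
      AddMonoidAlgebra ℤ (ZMod t × K)) = ∑ κ : K,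
      AddMonoidAlgebra.single (i • ((1 : ZMod t), (0 : K))) (q i) *
      AddMonoidAlgebra.single ((0 : ZMod t), κ) (w κ) := by
    intro i
    refine Finset.sum_congr rfl (fun κ _ => ?_)
    rw [AddMonoidAlgebra.single_mul_single]
    congr 1
    simp [Prod.ext_iff]
  rw [← Finset.sum_congr rfl (fun i _ => h i), ← sum_zmod t]
  refine Finset.sum_congr rfl (fun x _ => ?_)
  refine Finset.sum_congr rfl (fun κ _ => ?_)
  rw [ZMod.natCast_zmod_val]

theorem fh'_prod (q : ℕ → ℤ) (w : K → ℤ) (hw : ∀ κ, w (-κ) = w κ) :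
    fh' (fun p : ZMod t × K => q p.1.val * w p.2) =
      ev q t (AddMonoidAlgebra.single ((-1 : ZMod t), (0 : K)) (1 : ℤ) :
        AddMonoidAlgebra ℤ (ZMod t × K)) * fh (dl t w) := by
  rw [fh_dl, ev_single, Finset.sum_mul_sum]
  unfold fh'
  rw [Fintype.sum_prod_type]
  have h : ∀ i : ℕ, ∑ κ : K, (AddMonoidAlgebra.single (-((i : ZMod t), κ)) (q i * w κ) :
      AddMonoidAlgebra ℤ (ZMod t × K)) = ∑ κ : K,
      AddMonoidAlgebra.single (i • ((-1 : ZMod t), (0 : K))) (q i) *
      AddMonoidAlgebra.single ((0 : ZMod t), κ) (w κ) := by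
    intro i
    rw [← Equiv.sum_comp (Equiv.neg K)]
    refine Finset.sum_congr rfl (fun κ _ => ?_)
    rw [AddMonoidAlgebra.single_mul_single]
    simp only [Equiv.neg_apply, hw]
    congr 1
    simp [Prod.ext_iff]
  rw [← Finset.sum_congr rfl (fun i _ => h i), ← sum_zmod t]
  refine Finset.sum_congr rfl (fun x _ => ?_)
  refine Finset.sum_congr rfl (fun κ _ => ?_)
  rw [ZMod.natCast_zmod_val]

end prod

end Pool.Agent.H28BS
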