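import Pool.Agent.H28BS.HadYang

/-! Hadamard matrices of order `4 (2m+1) (2r+1) w`. -/

set_option linter.unusedSectionVars false

namespace Pool.Agent.H28BS

open Finset Pool.Agent.TH394

section

variable {K : Type} [AddCommGroup K] [Fintype K] [DecidableEq K] (t : ℕ) [NeZero t]

/-- the combination of four sequences with four weights -/
def cmb (a b c d : ℕ → ℤ) (w x y z : K → ℤ) (p : ZMod t × K) : ℤ :=
  a p.1.val * w p.2 + b p.1.val * x p.2 + c p.1.val * y p.2 + d p.1.val * z p.2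

theorem fh_cmb (a b c d : ℕ → ℤ) (w x y z : K → ℤ) :
    fh (cmb t a b c d w x y z) =
      ev a t (AddMonoidAlgebra.single ((1 : ZMod t), (0 : K)) (1 : ℤ)) * fh (dl t w) +
      ev b t (AddMonoidAlgebra.single ((1 : ZMod t), (0 : K)) (1 : ℤ)) * fh (dl t x) +
      ev c t (AddMonoidAlgebra.single ((1 : ZMod t), (0 : K)) (1 : ℤ)) * fh (dl t y) +
      ev d t (AddMonoidAlgebra.single ((1 : ZMod t), (0 : K)) (1 : ℤ)) * fh (dl t z) := by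
  have h : cmb t a b c d w x y z = fun p : ZMod t × K => (fun p : ZMod t × K =>
      (fun p : ZMod t × K => a p.1.val * w p.2 + b p.1.val * x p.2) p + c p.1.val * y p.2) p +
        d p.1.val * z p.2 := rfl
  rw [h, fh_add, fh_add, fh_add, fh_prod, fh_prod, fh_prod, fh_prod]

theorem fh'_cmb (a b c d : ℕ → ℤ) (w x y z : K → ℤ) (hw : ∀ κ, w (-κ) = w κ)
    (hx : ∀ κ, x (-κ) = x κ) (hy : ∀ κ, y (-κ) = y κ) (hz : ∀ κ, z (-κ) = z κ) :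
    fh' (cmb t a b c d w x y z) =
      ev a t (AddMonoidAlgebra.single ((-1 : ZMod t), (0 : K)) (1 : ℤ)) * fh (dl t w) +
      ev b t (AddMonoidAlgebra.single ((-1 : ZMod t), (0 : K)) (1 : ℤ)) * fh (dl t x) +
      ev c t (AddMonoidAlgebra.single ((-1 : ZMod t), (0 : K)) (1 : ℤ)) * fh (dl t y) +
      ev d t (AddMonoidAlgebra.single ((-1 : ZMod t), (0 : K)) (1 : ℤ)) * fh (dl t z) := by
  have h : cmb t a b c d w x y z = fun p : ZMod t × K => (fun p : ZMod t × K =>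
      (fun p : ZMod t × K => a p.1.val * w p.2 + b p.1.val * x p.2) p + c p.1.val * y p.2) p +
        d p.1.val * z p.2 := rfl
  rw [h, fh'_add, fh'_add, fh'_add, fh'_prod t a w hw, fh'_prod t b x hx, fh'_prod t c y hy,
    fh'_prod t d z hz]

theorem fh_dl_neg (w : K → ℤ) : fh (dl t (fun κ => -w κ)) = -fh (dl t w) := by
  rw [← fh_neg]
  congr 1
  funext p
  unfold dl
  split_ifs <;> simp

theorem fh_dl_add (w x : K → ℤ) : fh (dl t (fun κ => w κ + x κ)) = fh (dl t w) + fh (dl t x) := by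
  rw [← fh_add]
  congr 1
  funext p
  unfold dl
  split_ifs <;> simp

theorem fh_dl_sub (w x : K → ℤ) : fh (dl t (fun κ => w κ - x κ)) = fh (dl t w) - fh (dl t x) := by
  have : (fun κ => w κ - x κ) = fun κ => w κ + (fun κ => - x κ) κ := by funext κ; ring
  rw [this, fh_dl_add, fh_dl_neg]; ring

theorem X_dl (w : K → ℤ) (s : ZMod t × K) :
    X (dl t w) (dl t w) s = if s.1 = 0 then X w w s.2 else 0 := by
  unfold X dl
  rw [Fintype.sum_prod_type, Finset.sum_eq_single (0 : ZMod t)]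
  · by_cases h : s.1 = 0
    · simp [h]
    · simp [h]
  · intro x _ hx
    refine Finset.sum_eq_zero (fun κ _ => ?_)
    simp [hx]
  · intro h; exact absurd (Finset.mem_univ _) h

theorem coeff_natCast_mul {G : Type} [AddCommGroup G] (N : ℕ) (y : AddMonoidAlgebra ℤ G) (s : G) :
    ((N : AddMonoidAlgebra ℤ G) * y).coeff s = N * y.coeff s := by
  induction N with
  | zero => simp
  | succ N ih =>
    have : (((N + 1 : ℕ)) : AddMonoidAlgebra ℤ G) * y = (N : AddMonoidAlgebra ℤ G) * y + y := by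
      push_cast; ring
    rw [this, AddMonoidAlgebra.coeff_add, Finsupp.add_apply, ih]
    push_cast; ring

end

/-- Base sequences `BS(m+1,m)`, a Golay pair of length `r` and Williamson functions on a group of order `w`
give a Hadamard matrix of order `4 (2m+1) (2r+1) w`. -/
theorem had_general {m r : ℕ} (hm : 1 ≤ m) {A B C D : ℕ → ℤ} (hb : IsBase m A B C D)
    {F G : ℕ → ℤ} (hFG : GP r F G) {K : Type} [AddCommGroup K] [Fintype K] [DecidableEq K]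
    (W0 W1 W2 W3 : K → ℤ) (p0 : ∀ κ, Sgn (W0 κ)) (p1 : ∀ κ, Sgn (W1 κ)) (p2 : ∀ κ, Sgn (W2 κ))
    (p3 : ∀ κ, Sgn (W3 κ)) (s0 : ∀ κ, W0 (-κ) = W0 κ) (s1 : ∀ κ, W1 (-κ) = W1 κ)
    (s2 : ∀ κ, W2 (-κ) = W2 κ) (s3 : ∀ κ, W3 (-κ) = W3 κ)
    (hW : ∀ s, s ≠ 0 → X W0 W0 s + X W1 W1 s + X W2 W2 s + X W3 W3 s = 0) :
    HadOrder (4 * ((2 * m + 1) * (2 * r + 1) * Fintype.card K)) := by
  set t := (2 * m + 1) * (2 * r + 1) with ht
  have ht0 : t ≠ 0 := by rw [ht]; positivity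
  have : NeZero t := ⟨ht0⟩
  set q := yQ m r A B C F G with hq
  set q2 := yR m r A B D F G with hq2
  set q3 := yS m r A C D F G with hq3
  set q4 := yT m r B C D F G with hq4
  -- half sums of the Williamson functions
  obtain ⟨w0, hw0⟩ : ∃ w0 : K → ℤ, ∀ κ, w0 κ = (W0 κ + W1 κ) / 2 := ⟨_, fun _ => rfl⟩
  obtain ⟨w1, hw1⟩ : ∃ w1 : K → ℤ, ∀ κ, w1 κ = (W0 κ - W1 κ) / 2 := ⟨_, fun _ => rfl⟩
  obtain ⟨w2, hw2⟩ : ∃ w2 : K → ℤ, ∀ κ, w2 κ = (W2 κ + W3 κ) / 2 := ⟨_, fun _ => rfl⟩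
  obtain ⟨w3, hw3⟩ : ∃ w3 : K → ℤ, ∀ κ, w3 κ = (W2 κ - W3 κ) / 2 := ⟨_, fun _ => rfl⟩
  have hh : ∀ a b : ℤ, Sgn a → Sgn b → (Sgn ((a + b) / 2) ∧ (a - b) / 2 = 0) ∨
      ((a + b) / 2 = 0 ∧ Sgn ((a - b) / 2)) := by
    intro a b ha hb
    rcases ha with rfl | rfl <;> rcases hb with rfl | rfl
    · left; exact ⟨Or.inl rfl, rfl⟩
    · right; exact ⟨rfl, Or.inl rfl⟩
    · right; exact ⟨rfl, Or.inr rfl⟩
    · left; exact ⟨Or.inr rfl, rfl⟩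
  have hsum : ∀ a b : ℤ, Sgn a → Sgn b → a = (a + b) / 2 + (a - b) / 2 ∧
      b = (a + b) / 2 - (a - b) / 2 := by
    intro a b ha hb
    rcases ha with rfl | rfl <;> rcases hb with rfl | rfl <;> norm_num
  have h01 : ∀ κ, (Sgn (w0 κ) ∧ w1 κ = 0) ∨ (w0 κ = 0 ∧ Sgn (w1 κ)) := fun κ => by
    rw [hw0, hw1]; exact hh _ _ (p0 κ) (p1 κ)
  have h23 : ∀ κ, (Sgn (w2 κ) ∧ w3 κ = 0) ∨ (w2 κ = 0 ∧ Sgn (w3 κ)) := fun κ => by
    rw [hw2, hw3]; exact hh _ _ (p2 κ) (p3 κ)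
  have e0 : W0 = fun κ => w0 κ + w1 κ := by
    funext κ; rw [hw0, hw1]; exact (hsum _ _ (p0 κ) (p1 κ)).1
  have e1 : W1 = fun κ => w0 κ - w1 κ := by
    funext κ; rw [hw0, hw1]; exact (hsum _ _ (p0 κ) (p1 κ)).2
  have e2 : W2 = fun κ => w2 κ + w3 κ := by
    funext κ; rw [hw2, hw3]; exact (hsum _ _ (p2 κ) (p3 κ)).1
  have e3 : W3 = fun κ => w2 κ - w3 κ := by
    funext κ; rw [hw2, hw3]; exact (hsum _ _ (p2 κ) (p3 κ)).2
  have y0 : ∀ κ, w0 (-κ) = w0 κ := fun κ => by rw [hw0, hw0, s0, s1]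
  have y1 : ∀ κ, w1 (-κ) = w1 κ := fun κ => by rw [hw1, hw1, s0, s1]
  have y2 : ∀ κ, w2 (-κ) = w2 κ := fun κ => by rw [hw2, hw2, s2, s3]
  have y3 : ∀ κ, w3 (-κ) = w3 κ := fun κ => by rw [hw3, hw3, s2, s3]
  have n1 : ∀ κ, (fun κ => -w1 κ) (-κ) = (fun κ => -w1 κ) κ := fun κ => by simp only [y1]
  have n2 : ∀ κ, (fun κ => -w2 κ) (-κ) = (fun κ => -w2 κ) κ := fun κ => by simp only [y2]
  have n3 : ∀ κ, (fun κ => -w3 κ) (-κ) = (fun κ => -w3 κ) κ := fun κ => by simp only [y3]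
  -- the four functions
  let S1 := cmb (K := K) t q q2 q3 q4 w0 w1 w2 w3
  let S2 := cmb (K := K) t q q2 q3 q4 (fun κ => -w1 κ) w0 (fun κ => -w3 κ) w2
  let S3 := cmb (K := K) t q q2 q3 q4 (fun κ => -w2 κ) w3 w0 (fun κ => -w1 κ)
  let S4 := cmb (K := K) t q q2 q3 q4 (fun κ => -w3 κ) (fun κ => -w2 κ) w1 w0
  have hT : ∀ x : ZMod t, (Sgn (q x.val) ∧ Sgn (q2 x.val) ∧ q3 x.val = 0 ∧ q4 x.val = 0) ∨
      (q x.val = 0 ∧ q2 x.val = 0 ∧ Sgn (q3 x.val) ∧ Sgn (q4 x.val)) := fun x =>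
    yang_T hb hFG x.val (by rw [← ht]; exact ZMod.val_lt x)
  have hpm : ∀ (a b c d : ℤ) (x y z w : ℤ), ((Sgn a ∧ Sgn b ∧ c = 0 ∧ d = 0) ∨
      (a = 0 ∧ b = 0 ∧ Sgn c ∧ Sgn d)) → ((Sgn x ∧ y = 0) ∨ (x = 0 ∧ Sgn y)) →
      ((Sgn z ∧ w = 0) ∨ (z = 0 ∧ Sgn w)) → Sgn (a * x + b * y + c * z + d * w) := by
    intro a b c d x y z w h1 h2 h3
    rcases h1 with ⟨ha, hb, rfl, rfl⟩ | ⟨rfl, rfl, hc, hd⟩
    · rcases h2 with ⟨hx, rfl⟩ | ⟨rfl, hy⟩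
      · simpa using ha.mul hx
      · simpa using hb.mul hy
    · rcases h3 with ⟨hz, rfl⟩ | ⟨rfl, hw⟩
      · simpa using hc.mul hz
      · simpa using hd.mul hw
  have flip : ∀ x y : ℤ, ((Sgn x ∧ y = 0) ∨ (x = 0 ∧ Sgn y)) → ((Sgn (-y) ∧ x = 0) ∨
      (-y = 0 ∧ Sgn x)) := by
    intro x y h
    rcases h with ⟨h1, rfl⟩ | ⟨rfl, h1⟩
    · right; exact ⟨by simp, h1⟩
    · left; exact ⟨h1.neg, rfl⟩
  have flip2 : ∀ x y : ℤ, ((Sgn x ∧ y = 0) ∨ (x = 0 ∧ Sgn y)) → ((Sgn (-x) ∧ y = 0) ∨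
      (-x = 0 ∧ Sgn y)) := by
    intro x y h
    rcases h with ⟨h1, rfl⟩ | ⟨rfl, h1⟩
    · left; exact ⟨h1.neg, rfl⟩
    · right; exact ⟨by simp, h1⟩
  have flip3 : ∀ x y : ℤ, ((Sgn x ∧ y = 0) ∨ (x = 0 ∧ Sgn y)) → ((Sgn x ∧ -y = 0) ∨
      (x = 0 ∧ Sgn (-y))) := by
    intro x y h
    rcases h with ⟨h1, rfl⟩ | ⟨rfl, h1⟩
    · left; exact ⟨h1, by simp⟩
    · right; exact ⟨rfl, h1.neg⟩
  have swp : ∀ x y : ℤ, ((Sgn x ∧ y = 0) ∨ (x = 0 ∧ Sgn y)) → ((Sgn y ∧ x = 0) ∨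
      (y = 0 ∧ Sgn x)) := by
    intro x y h
    rcases h with ⟨h1, h2⟩ | ⟨h1, h2⟩
    · right; exact ⟨h2, h1⟩
    · left; exact ⟨h2, h1⟩
  have hS1 : ∀ p, S1 p = 1 ∨ S1 p = -1 := fun p => hpm _ _ _ _ _ _ _ _ (hT p.1) (h01 p.2) (h23 p.2)
  have hS2 : ∀ p, S2 p = 1 ∨ S2 p = -1 := fun p =>
    hpm _ _ _ _ _ _ _ _ (hT p.1) (flip _ _ (h01 p.2)) (flip _ _ (h23 p.2))
  have hS3 : ∀ p, S3 p = 1 ∨ S3 p = -1 := fun p =>
    hpm _ _ _ _ _ _ _ _ (hT p.1) (flip2 _ _ (h23 p.2)) (flip3 _ _ (h01 p.2))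
  have hS4 : ∀ p, S4 p = 1 ∨ S4 p = -1 := fun p =>
    hpm _ _ _ _ _ _ _ _ (hT p.1) (flip2 _ _ (flip3 _ _ (swp _ _ (h23 p.2)))) (swp _ _ (h01 p.2))
  have hcard : Fintype.card (ZMod t × K) = t * Fintype.card K := by
    rw [Fintype.card_prod, ZMod.card]
  rw [← hcard]
  refine hadamard_gs S1 S2 S3 S4 hS1 hS2 hS3 hS4 ?_
  intro s hs
  -- norms
  have hUV : (AddMonoidAlgebra.single ((1 : ZMod t), (0 : K)) (1 : ℤ) :
      AddMonoidAlgebra ℤ (ZMod t × K)) * AddMonoidAlgebra.single ((-1 : ZMod t), (0 : K)) (1 : ℤ) = 1 := by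
    rw [AddMonoidAlgebra.single_mul_single]
    simp only [AddMonoidAlgebra.one_def, Prod.mk_add_mk, add_neg_cancel, add_zero, mul_one]
    rfl
  have hN := yang_norm (m := m) (r := r) hm hb hFG _ _ hUV
  rw [← ht, ← hq, ← hq2, ← hq3, ← hq4] at hN
  have k1 := fh_cmb (K := K) t q q2 q3 q4 w0 w1 w2 w3
  have k2 := fh_cmb (K := K) t q q2 q3 q4 (fun κ => -w1 κ) w0 (fun κ => -w3 κ) w2
  have k3 := fh_cmb (K := K) t q q2 q3 q4 (fun κ => -w2 κ) w3 w0 (fun κ => -w1 κ)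
  have k4 := fh_cmb (K := K) t q q2 q3 q4 (fun κ => -w3 κ) (fun κ => -w2 κ) w1 w0
  have l1 := fh'_cmb (K := K) t q q2 q3 q4 w0 w1 w2 w3 y0 y1 y2 y3
  have l2 := fh'_cmb (K := K) t q q2 q3 q4 (fun κ => -w1 κ) w0 (fun κ => -w3 κ) w2 n1 y0 n3 y2
  have l3 := fh'_cmb (K := K) t q q2 q3 q4 (fun κ => -w2 κ) w3 w0 (fun κ => -w1 κ) n2 y3 y0 n1
  have l4 := fh'_cmb (K := K) t q q2 q3 q4 (fun κ => -w3 κ) (fun κ => -w2 κ) w1 w0 n3 n2 y1 y0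
  simp only [fh_dl_neg] at k2 k3 k4 l2 l3 l4
  have hid : (2 : AddMonoidAlgebra ℤ (ZMod t × K)) * (fh S1 * fh' S1 + fh S2 * fh' S2 +
      fh S3 * fh' S3 + fh S4 * fh' S4) =
      (((4 * m + 2) * (2 * r + 1) : ℕ) : AddMonoidAlgebra ℤ (ZMod t × K)) *
      (fh (dl t W0) * fh' (dl t W0) + fh (dl t W1) * fh' (dl t W1) + fh (dl t W2) * fh' (dl t W2) +
        fh (dl t W3) * fh' (dl t W3)) := by
    have sy : ∀ W : K → ℤ, (∀ κ, W (-κ) = W κ) → fh' (dl t W) = fh (dl t W) := by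
      intro W hW
      refine fh'_symm _ (fun p => ?_)
      unfold dl
      simp only [Prod.fst_neg, Prod.snd_neg, neg_eq_zero, hW]
    rw [sy W0 s0, sy W1 s1, sy W2 s2, sy W3 s3]
    have g0 : fh (dl t W0) = fh (dl t w0) + fh (dl t w1) := by rw [e0, fh_dl_add]
    have g1 : fh (dl t W1) = fh (dl t w0) - fh (dl t w1) := by rw [e1, fh_dl_sub]
    have g2 : fh (dl t W2) = fh (dl t w2) + fh (dl t w3) := by rw [e2, fh_dl_add]
    have g3 : fh (dl t W3) = fh (dl t w2) - fh (dl t w3) := by rw [e3, fh_dl_sub]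
    rw [g0, g1, g2, g3]
    change 2 * (fh (cmb t q q2 q3 q4 w0 w1 w2 w3) * fh' (cmb t q q2 q3 q4 w0 w1 w2 w3) +
      fh (cmb t q q2 q3 q4 (fun κ => -w1 κ) w0 (fun κ => -w3 κ) w2) *
        fh' (cmb t q q2 q3 q4 (fun κ => -w1 κ) w0 (fun κ => -w3 κ) w2) +
      fh (cmb t q q2 q3 q4 (fun κ => -w2 κ) w3 w0 (fun κ => -w1 κ)) *
        fh' (cmb t q q2 q3 q4 (fun κ => -w2 κ) w3 w0 (fun κ => -w1 κ)) +
      fh (cmb t q q2 q3 q4 (fun κ => -w3 κ) (fun κ => -w2 κ) w1 w0) *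
        fh' (cmb t q q2 q3 q4 (fun κ => -w3 κ) (fun κ => -w2 κ) w1 w0)) = _
    rw [k1, k2, k3, k4, l1, l2, l3, l4]
    push_cast
    linear_combination 2 * (fh (dl t w0) ^ 2 + fh (dl t w1) ^ 2 + fh (dl t w2) ^ 2 +
      fh (dl t w3) ^ 2) * hN
  have hc := congrArg (fun x : AddMonoidAlgebra ℤ (ZMod t × K) => x.coeff s) hid
  beta_reduce at hc
  have h2 : (2 : AddMonoidAlgebra ℤ (ZMod t × K)) = ((2 : ℕ) : AddMonoidAlgebra ℤ (ZMod t × K)) := by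
    norm_num
  rw [h2, coeff_natCast_mul, coeff_natCast_mul] at hc
  simp only [AddMonoidAlgebra.coeff_add, Finsupp.add_apply, coeff_fh, X_dl] at hc
  have hz : (if s.1 = 0 then X W0 W0 s.2 else 0) + (if s.1 = 0 then X W1 W1 s.2 else 0) +
      (if s.1 = 0 then X W2 W2 s.2 else 0) + (if s.1 = 0 then X W3 W3 s.2 else 0) = 0 := by
    by_cases h : s.1 = 0
    · simp only [if_pos h]
      refine hW s.2 (fun h' => hs ?_)
      exact Prod.ext h h'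
    · simp only [if_neg h]; norm_num
  rw [hz, mul_zero] at hc
  unfold P
  push_cast at hc
  linarith

end Pool.Agent.H28BS
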