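import Pool.Agent.H28BS.TGolay2
import Pool.Agent.H28BS.Exist

/-! Base sequences and two further Golay pairs; four Golay factors. -/

set_option linter.unusedSectionVars false

namespace Pool.Agent.H28BS

open Finset Pool.Agent.TH394

section

variable (t : ℕ) [NeZero t]

theorem ev_single0 (q : ℕ → ℤ) (g0 : ZMod t) :
    ev q t (AddMonoidAlgebra.single g0 (1 : ℤ) : AddMonoidAlgebra ℤ (ZMod t)) =
      ∑ i ∈ range t, AddMonoidAlgebra.single (i • g0) (q i) := by
  unfold ev
  refine Finset.sum_congr rfl (fun i _ => ?_)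
  rw [AddMonoidAlgebra.single_pow, one_pow]
  have : ((q i : ℤ) : AddMonoidAlgebra ℤ (ZMod t)) = AddMonoidAlgebra.single 0 (q i) := by
    rw [← eq_intCast (algebraMap ℤ (AddMonoidAlgebra ℤ (ZMod t))) (q i)]; rfl
  rw [this, AddMonoidAlgebra.single_mul_single, zero_add, mul_one]

theorem fh_seq (q : ℕ → ℤ) : fh (fun x : ZMod t => q x.val) =
    ev q t (AddMonoidAlgebra.single (1 : ZMod t) (1 : ℤ) : AddMonoidAlgebra ℤ (ZMod t)) := by
  rw [ev_single0]
  unfold fh
  rw [← sum_zmod t (fun i => (AddMonoidAlgebra.single (i • (1 : ZMod t)) (q i) :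
    AddMonoidAlgebra ℤ (ZMod t)))]
  refine Finset.sum_congr rfl (fun x _ => ?_)
  congr 1
  rw [nsmul_eq_mul, mul_one, ZMod.natCast_zmod_val]

theorem fh'_seq (q : ℕ → ℤ) : fh' (fun x : ZMod t => q x.val) =
    ev q t (AddMonoidAlgebra.single (-1 : ZMod t) (1 : ℤ) : AddMonoidAlgebra ℤ (ZMod t)) := by
  rw [ev_single0]
  unfold fh'
  rw [← sum_zmod t (fun i => (AddMonoidAlgebra.single (i • (-1 : ZMod t)) (q i) :
    AddMonoidAlgebra ℤ (ZMod t)))]
  refine Finset.sum_congr rfl (fun x _ => ?_)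
  congr 1
  rw [nsmul_eq_mul, mul_neg, mul_one, ZMod.natCast_zmod_val]

/-- from the norm identity to periodic autocorrelations -/
theorem X_of_norm (q1 q2 q3 q4 : ℕ → ℤ) (N : ℕ)
    (h : ∀ (R : Type) [CommRing R] (u v : R), u * v = 1 →
      ev q1 t u * ev q1 t v + ev q2 t u * ev q2 t v + ev q3 t u * ev q3 t v + ev q4 t u * ev q4 t v =
        N) (s : ZMod t) (hs : s ≠ 0) :
    X (fun x : ZMod t => q1 x.val) (fun x : ZMod t => q1 x.val) s +
      X (fun x : ZMod t => q2 x.val) (fun x : ZMod t => q2 x.val) s +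
      X (fun x : ZMod t => q3 x.val) (fun x : ZMod t => q3 x.val) s +
      X (fun x : ZMod t => q4 x.val) (fun x : ZMod t => q4 x.val) s = 0 := by
  have hUV : (AddMonoidAlgebra.single (1 : ZMod t) (1 : ℤ) : AddMonoidAlgebra ℤ (ZMod t)) *
      AddMonoidAlgebra.single (-1 : ZMod t) (1 : ℤ) = 1 := by
    rw [AddMonoidAlgebra.single_mul_single]
    simp only [AddMonoidAlgebra.one_def, add_neg_cancel, mul_one]
  have h1 := h _ _ _ hUV
  rw [← fh_seq, ← fh'_seq, ← fh_seq, ← fh'_seq, ← fh_seq, ← fh'_seq, ← fh_seq, ← fh'_seq] at h1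
  have hc := congrArg (fun x : AddMonoidAlgebra ℤ (ZMod t) => x.coeff s) h1
  beta_reduce at hc
  rw [← mul_one ((N : ℕ) : AddMonoidAlgebra ℤ (ZMod t)), coeff_natCast_mul] at hc
  simp only [AddMonoidAlgebra.coeff_add, Finsupp.add_apply, coeff_fh] at hc
  rw [hc, AddMonoidAlgebra.one_def, AddMonoidAlgebra.coeff_single, Finsupp.single_apply,
    if_neg (fun h => hs h.symm), mul_zero]

end

/-- Base sequences `BS(m+1, m)` and two Golay pairs of lengths `r` and `g` give a Hadamard matrix of order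
`4 (2m+1) (2r+1) (2g+1)`. -/
theorem had_two_yang {m r g : ℕ} (hm : 1 ≤ m) (hg : 1 ≤ g) {A B C D : ℕ → ℤ} (hb : IsBase m A B C D)
    {F G F' G' : ℕ → ℤ} (hFG : GP r F G) (hFG' : GP g F' G') :
    HadOrder (4 * ((2 * m + 1) * (2 * r + 1) * (2 * g + 1))) := by
  obtain ⟨t, ht⟩ : ∃ t, t = (2 * m + 1) * (2 * r + 1) := ⟨_, rfl⟩
  have ht0 : t ≠ 0 := by rw [ht]; positivity
  have : NeZero t := ⟨ht0⟩
  have key := had_TGolay hg hFG' (K := ZMod t) (fun x => yQ m r A B C F G x.val)
    (fun x => yS m r A C D F G x.val) (fun x => yR m r A B D F G x.val)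
    (fun x => yT m r B C D F G x.val)
    (fun x => by
      have h := yang_T hb hFG x.val (by rw [← ht]; exact ZMod.val_lt x)
      exact h)
    (fun s hs => by
      have h := X_of_norm t (yQ m r A B C F G) (yR m r A B D F G) (yS m r A C D F G)
        (yT m r B C D F G) ((4 * m + 2) * (2 * r + 1)) (fun R _ u v huv => by
          have := yang_norm (m := m) (r := r) hm hb hFG u v huv
          rw [← ht] at this
          push_cast
          exact this) s hs
      linarith)
  rw [ZMod.card, ht] at key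
  have e : (2 * g + 1) * ((2 * m + 1) * (2 * r + 1)) = (2 * m + 1) * (2 * r + 1) * (2 * g + 1) := by ring
  rw [e] at key
  exact key

/-- four Golay numbers -/
theorem had_four {a b c d : ℕ} (ha : 1 ≤ a) (hb : 1 ≤ b) (hd : 1 ≤ d) (ga : GolayNumber a)
    (gb : GolayNumber b) (gc : GolayNumber c) (gd : GolayNumber d) :
    HadOrder (4 * ((2 * a + 1) * (2 * b + 1) * (2 * c + 1) * (2 * d + 1))) := by
  obtain ⟨A, B, C, D, h⟩ := base_exists ha hb ga gb
  obtain ⟨F, G, hF⟩ := gp_of_golayNumber gc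
  obtain ⟨F', G', hF'⟩ := gp_of_golayNumber gd
  have hm : 1 ≤ 2 * a * b + a + b := by omega
  have key := had_two_yang hm hd h hF hF'
  have e : 2 * (2 * a * b + a + b) + 1 = (2 * a + 1) * (2 * b + 1) := by ring
  rw [e] at key
  exact key

/-- `T`-functions in the usual form -/
theorem had_T {K : Type} [AddCommGroup K] [Fintype K] (T : Fin 4 → K → ℤ)
    (hT : ∀ x, ∃ e, (T e x = 1 ∨ T e x = -1) ∧ ∀ e', e' ≠ e → T e' x = 0)
    (hP : ∀ s, s ≠ 0 → ∑ e, ∑ x, T e x * T e (x + s) = 0) {g : ℕ} (hg : 1 ≤ g) (gg : GolayNumber g) :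
    HadOrder (4 * (Fintype.card K * (2 * g + 1))) := by
  classical
  obtain ⟨F, G, hFG⟩ := gp_of_golayNumber gg
  have key := had_TGolay hg hFG (fun x => T 0 x + T 1 x) (fun x => T 2 x + T 3 x)
    (fun x => T 0 x - T 1 x) (fun x => T 2 x - T 3 x)
    (fun x => by
      obtain ⟨e, h1, h2⟩ := hT x
      have he : e = 0 ∨ e = 1 ∨ e = 2 ∨ e = 3 := by fin_cases e <;> simp
      rcases he with rfl | rfl | rfl | rfl
      · left
        have h3 := h2 1 (by decide); have h4 := h2 2 (by decide); have h5 := h2 3 (by decide)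
        simp only [h3, h4, h5]
        rcases h1 with h | h <;> simp [h, Sgn] 
      · left
        have h3 := h2 0 (by decide); have h4 := h2 2 (by decide); have h5 := h2 3 (by decide)
        simp only [h3, h4, h5]
        rcases h1 with h | h <;> simp [h, Sgn] 
      · right
        have h3 := h2 0 (by decide); have h4 := h2 1 (by decide); have h5 := h2 3 (by decide)
        simp only [h3, h4, h5]
        rcases h1 with h | h <;> simp [h, Sgn] 
      · right
        have h3 := h2 0 (by decide); have h4 := h2 1 (by decide); have h5 := h2 2 (by decide)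
        simp only [h3, h4, h5]
        rcases h1 with h | h <;> simp [h, Sgn])
    (fun s hs => by
      have h := hP s hs
      rw [Fin.sum_univ_four] at h
      unfold X
      rw [← Finset.sum_add_distrib, ← Finset.sum_add_distrib, ← Finset.sum_add_distrib] at h ⊢
      have : ∑ x, ((T 0 x + T 1 x) * (T 0 (x + s) + T 1 (x + s)) +
          (T 2 x + T 3 x) * (T 2 (x + s) + T 3 (x + s)) +
          (T 0 x - T 1 x) * (T 0 (x + s) - T 1 (x + s)) +
          (T 2 x - T 3 x) * (T 2 (x + s) - T 3 (x + s))) =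
          2 * ∑ x, (T 0 x * T 0 (x + s) + T 1 x * T 1 (x + s) + T 2 x * T 2 (x + s) +
            T 3 x * T 3 (x + s)) := by
        rw [Finset.mul_sum]
        exact Finset.sum_congr rfl (fun x _ => by ring)
      rw [this, h, mul_zero])
  have e : (2 * g + 1) * Fintype.card K = Fintype.card K * (2 * g + 1) := by ring
  rw [e] at key
  exact key

end Pool.Agent.H28BS
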