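import Pool.Agent.H28BS.Turyn
import Pool.Agent.TH394.HadGS

/-! Williamson functions of order `(q+1)/2`: the autocorrelations. -/

set_option autoImplicit false

namespace Pool.Agent.H28BS

open Finset Pool.Agent.TH394

namespace TK

variable {F : Type} [Field F] [Fintype F] [DecidableEq F] {g i : F}

theorem image_Phi (hi : i ^ 2 = -1) (h2 : (2 : F) ≠ 0) (hg : ¬ IsSquare g)
    (hsq : ∀ a b : F, ¬ IsSquare a → ¬ IsSquare b → IsSquare (a * b)) :
    (univ : Finset (Fˣ × Bool × TK F g)).image (Phi g) = univ.erase (0, 0) := by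
  ext w
  simp only [mem_image, mem_univ, true_and, mem_erase, and_true]
  constructor
  · rintro ⟨z, rfl⟩
    exact Phi_ne hg hi z
  · intro hw
    exact Phi_surj hi h2 hg hsq w hw

theorem card_eq (hi : i ^ 2 = -1) (h2 : (2 : F) ≠ 0) (hg : ¬ IsSquare g)
    (hsq : ∀ a b : F, ¬ IsSquare a → ¬ IsSquare b → IsSquare (a * b)) :
    2 * Fintype.card (TK F g) = Fintype.card F + 1 := by
  have h := congrArg Finset.card (image_Phi hi h2 hg hsq)
  rw [Finset.card_image_of_injective _ (Phi_inj hi hg h2), Finset.card_erase_of_mem (mem_univ _),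
    Finset.card_univ, Finset.card_univ, Fintype.card_prod, Fintype.card_prod, Fintype.card_prod,
    Fintype.card_bool, Fintype.card_units] at h
  obtain ⟨q, hq⟩ : ∃ q, Fintype.card F = q + 1 := ⟨Fintype.card F - 1, by
    have := Fintype.card_pos (α := F); omega⟩
  have hq1 : 1 ≤ q := by
    have := Fintype.one_lt_card (α := F); omega
  rw [hq] at h ⊢
  have e1 : (q + 1) * (q + 1) - 1 = q * (q + 2) := by
    have : (q + 1) * (q + 1) = q * (q + 2) + 1 := by ring
    omega
  rw [e1, Nat.add_sub_cancel] at h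
  have := Nat.eq_of_mul_eq_mul_left hq1 h
  omega

theorem total_zero (hF : ringChar F ≠ 2) (s : TK F g) (hy : s.y ≠ 0) :
    ∑ w : F × F, quadraticChar F w.2 * quadraticChar F (w.1 * s.y + w.2 * s.x) = 0 := by
  rw [Fintype.sum_prod_type_right]
  refine Finset.sum_eq_zero (fun b _ => ?_)
  simp only
  rw [← Finset.mul_sum]
  have e : ∑ a : F, quadraticChar F (a * s.y + b * s.x) = ∑ a : F, quadraticChar F a := by
    refine Fintype.sum_bijective (fun a => a * s.y + b * s.x) ?_ _ _ (fun _ => rfl)
    refine (Fintype.bijective_iff_injective_and_card _).2 ⟨fun a a' h => ?_, rfl⟩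
    simp only [add_left_inj] at h
    exact mul_right_cancel₀ hy h
  rw [e, quadraticChar_sum_zero hF, mul_zero]

/-- the two functions -/
noncomputable def fA (p : TK F g) : ℤ := quadraticChar F p.y
noncomputable def fB (p : TK F g) : ℤ := quadraticChar F p.x

theorem paf (hi : i ^ 2 = -1) (h2 : (2 : F) ≠ 0) (hF : ringChar F ≠ 2) (hg : ¬ IsSquare g)
    (hsq : ∀ a b : F, ¬ IsSquare a → ¬ IsSquare b → IsSquare (a * b)) (s : TK F g) (hs : s ≠ 0) :
    X (fA (g := g)) fA s + X (fB (g := g)) fB s = 0 := by
  have hy : s.y ≠ 0 := fun h => hs (eq_zero_of_y hi hg h2 s h)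
  have h0 := total_zero hF s hy
  obtain ⟨φ, hφ⟩ : ∃ φ : F × F → ℤ, φ = fun w =>
    quadraticChar F w.2 * quadraticChar F (w.1 * s.y + w.2 * s.x) := ⟨_, rfl⟩
  have h1 : ∑ w : F × F, φ w = 0 := by rw [hφ]; exact h0
  have h00 : φ (0, 0) = 0 := by
    rw [hφ]; simp only [MulChar.map_zero, zero_mul]
  rw [← Finset.add_sum_erase _ _ (mem_univ ((0 : F), (0 : F))), h00, zero_add,
    ← image_Phi hi h2 hg hsq, Finset.sum_image (fun a _ b _ h => Phi_inj hi hg h2 h),
    Fintype.sum_prod_type] at h1
  have h3 : ∀ c : Fˣ, ∑ z : Bool × TK F g, φ (Phi g (c, z)) =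
      X (fA (g := g)) fA s + X (fB (g := g)) fB s := by
    intro c
    have hc : quadraticChar F (c : F) * quadraticChar F (c : F) = 1 := by
      rw [← sq]; exact quadraticChar_sq_one c.ne_zero
    rw [Fintype.sum_prod_type, Fintype.sum_bool, add_comm]
    congr 1
    · unfold X
      refine Finset.sum_congr rfl (fun p _ => ?_)
      rw [Phi_false, hφ]
      simp only
      have e : (c : F) * p.x * s.y + (c : F) * p.y * s.x = (c : F) * (p + s).y := by
        rw [add_y]; ring
      rw [e, map_mul, map_mul]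
      unfold fA
      linear_combination (quadraticChar F p.y * quadraticChar F (p + s).y) * hc
    · unfold X
      refine Finset.sum_congr rfl (fun p _ => ?_)
      rw [Phi_true, hφ]
      simp only
      have e : (c : F) * (g * p.y) * s.y + (c : F) * p.x * s.x = (c : F) * (p + s).x := by
        rw [add_x]; ring
      rw [e, map_mul, map_mul]
      unfold fB
      linear_combination (quadraticChar F p.x * quadraticChar F (p + s).x) * hc
  rw [Finset.sum_congr rfl (fun c _ => h3 c), Finset.sum_const, nsmul_eq_mul] at h1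
  rcases mul_eq_zero.1 h1 with h | h
  · exfalso
    have : 0 < Fintype.card Fˣ := Fintype.card_pos
    rw [Finset.card_univ] at h
    have h' : Fintype.card Fˣ = 0 := by exact_mod_cast h
    omega
  · exact h

end TK

/-- Williamson functions of order `(q+1)/2` for a prime power `q ≡ 1 (mod 4)` (Turyn, Whiteman). -/
theorem turyn (q : ℕ) (hq : IsPrimePow q) (hq4 : q % 4 = 1) :
    ∃ (K : Type) (_ : AddCommGroup K) (_ : Fintype K) (W : Fin 4 → K → ℤ),
      2 * Fintype.card K = q + 1 ∧ (∀ e x, W e x = 1 ∨ W e x = -1) ∧ (∀ e x, W e (-x) = W e x) ∧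
      (∀ s, s ≠ 0 → ∑ e, ∑ x, W e x * W e (x + s) = 0) := by
  classical
  obtain ⟨p, k, hp, hk, rfl⟩ := hq
  have hpn : p.Prime := Nat.prime_iff.2 hp
  have : Fact p.Prime := ⟨hpn⟩
  have hk0 : k ≠ 0 := by omega
  let _ : Fintype (GaloisField p k) := Fintype.ofFinite _
  have hcard : Fintype.card (GaloisField p k) = p ^ k := by
    rw [← Nat.card_eq_fintype_card]; exact GaloisField.card p k hk0
  have hF : ringChar (GaloisField p k) ≠ 2 := by
    intro h
    have := FiniteField.even_card_of_char_two h
    rw [hcard] at this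
    omega
  have h2 : (2 : GaloisField p k) ≠ 0 := Ring.two_ne_zero hF
  obtain ⟨i, hi⟩ : IsSquare (-1 : GaloisField p k) := by
    rw [FiniteField.isSquare_neg_one_iff, hcard]; omega
  have hi : i ^ 2 = -1 := by rw [sq, ← hi]
  obtain ⟨g, hg⟩ := FiniteField.exists_nonsquare hF
  have hsq : ∀ a b : GaloisField p k, ¬ IsSquare a → ¬ IsSquare b → IsSquare (a * b) := by
    intro a b ha hb
    by_cases hab : a * b = 0
    · rw [hab]; exact ⟨0, by ring⟩
    · rw [← quadraticChar_one_iff_isSquare hab, map_mul, quadraticChar_neg_one_iff_not_isSquare.2 ha,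
        quadraticChar_neg_one_iff_not_isSquare.2 hb]
      rfl
  have hneg : quadraticChar (GaloisField p k) (-1) = 1 := by
    rw [quadraticChar_one_iff_isSquare (neg_ne_zero.2 one_ne_zero)]
    exact ⟨i, by rw [← hi]; ring⟩
  let A : TK (GaloisField p k) g → ℤ := TK.fA
  let B : TK (GaloisField p k) g → ℤ := TK.fB
  let E : TK (GaloisField p k) g → ℤ := fun x => if x = 0 then 1 else 0
  have hA0 : A 0 = 0 := by
    change quadraticChar _ (0 : TK (GaloisField p k) g).y = 0
    rw [TK.zero_y, MulChar.map_zero]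
  have hA : ∀ x, x ≠ 0 → (A x = 1 ∨ A x = -1) := fun x hx =>
    quadraticChar_dichotomy (fun h => hx (TK.eq_zero_of_y hi hg h2 x h))
  have hB : ∀ x, B x = 1 ∨ B x = -1 := fun x => quadraticChar_dichotomy (TK.x_ne hi hg x)
  have hAs : ∀ x, A (-x) = A x := by
    intro x
    change quadraticChar _ (-x).y = quadraticChar _ x.y
    rw [TK.neg_y, neg_eq_neg_one_mul, map_mul, hneg, one_mul]
  have hBs : ∀ x, B (-x) = B x := by
    intro x
    change quadraticChar _ (-x).x = quadraticChar _ x.x
    rw [TK.neg_x]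
  refine ⟨TK (GaloisField p k) g, inferInstance, inferInstance,
    ![fun x => E x + A x, fun x => E x - A x, B, B], ?_, ?_, ?_, ?_⟩
  · rw [TK.card_eq hi h2 hg hsq, hcard]
  · intro e x
    fin_cases e
    · change E x + A x = 1 ∨ E x + A x = -1
      by_cases hx : x = 0
      · subst hx; left; rw [hA0]; simp [E]
      · rcases hA x hx with h | h <;> rw [h] <;> simp [E, hx]
    · change E x - A x = 1 ∨ E x - A x = -1
      by_cases hx : x = 0
      · subst hx; left; rw [hA0]; simp [E]
      · rcases hA x hx with h | h <;> rw [h] <;> simp [E, hx]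
    · exact hB x
    · exact hB x
  · intro e x
    have hE : E (-x) = E x := by simp [E]
    fin_cases e
    · change E (-x) + A (-x) = E x + A x
      rw [hE, hAs]
    · change E (-x) - A (-x) = E x - A x
      rw [hE, hAs]
    · exact hBs x
    · exact hBs x
  · intro s hs
    have key := TK.paf hi h2 hF hg hsq s hs
    unfold X at key
    rw [Fin.sum_univ_four]
    change ∑ x, (E x + A x) * (E (x + s) + A (x + s)) + ∑ x, (E x - A x) * (E (x + s) - A (x + s)) +
      ∑ x, B x * B (x + s) + ∑ x, B x * B (x + s) = 0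
    have e1 : ∀ x, E x * E (x + s) = 0 := by
      intro x
      by_cases hx : x = 0
      · subst hx; simp [E, hs]
      · simp [E, hx]
    have e2 : ∑ x, (E x + A x) * (E (x + s) + A (x + s)) + ∑ x, (E x - A x) * (E (x + s) - A (x + s)) =
        2 * ∑ x, A x * A (x + s) := by
      rw [← Finset.sum_add_distrib, Finset.mul_sum]
      refine Finset.sum_congr rfl (fun x _ => ?_)
      linear_combination 2 * e1 x
    rw [e2]
    change ∑ x, A x * A (x + s) + ∑ x, B x * B (x + s) = 0 at key
    linarith

end Pool.Agent.H28BS
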