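import Pool.Agent.Y342.ION.Main
import Pool.Agent.H28BS.TGolay3
import Pool.Agent.H28BS.HadYang2
import Pool.Agent.H28BS.Turyn2

/-!
# Infinite families of symmetric designs from Hadamard matrices made of Golay pairs

`nrm_of_had` and `ionin` are copied from the starting file `Pool.Agent.Y342.ION.Final` (the theorem of Ionin
and Kharaghani), in order to avoid its other imports.
-/

set_option autoImplicit false

namespace Pool.Agent.H28BS

open Finset Matrix
open scoped LinearAlgebra.Projectivization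
open Pool.Agent.Y342.ION
open Pool.Agent.H114R2 (IsSymDesign HasHad)

theorem nrm_of_had {N : ℕ} [NeZero N] (hH : HasHad N) : ∃ h : Fin N → Fin N → ℤ, Nrm h := by
  obtain ⟨H, hs, hHH⟩ := hH
  obtain ⟨hrow, hcol⟩ := Pool.Agent.H114R2.had_rows (posN (N := N)) hHH
  have hsq : ∀ b, H 0 b * H 0 b = 1 := by
    intro b
    rcases hs 0 b with h | h <;> rw [h] <;> norm_num
  refine ⟨fun k b => H k b * H 0 b, ⟨fun k b => ?_, fun b => hsq b, fun k l => ?_, fun b c => ?_⟩⟩
  · rcases hs k b with h | h <;> rcases hs 0 b with h' | h' <;> rw [h, h'] <;> norm_num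
  · rw [← hrow k l]
    refine Finset.sum_congr rfl fun b _ => ?_
    have := hsq b
    linear_combination (H k b * H l b) * this
  · have h1 : ∀ k, H k b * H 0 b * (H k c * H 0 c) = H 0 b * H 0 c * (H k b * H k c) := by
      intro k; ring
    rw [Finset.sum_congr rfl fun k _ => h1 k, ← Finset.mul_sum, hcol]
    split_ifs with h
    · subst h
      rw [hsq, one_mul]
    · rw [mul_zero]

theorem ionin {h : ℕ} (hp : IsPrimePow (2 * h + 1)) (hH : HasHad (2 * h)) (m : ℕ) :
    ∃ B : Fin (4 * h ^ 2 * ∑ i ∈ range (m + 1), (2 * h + 1) ^ (2 * i)) → Finset _,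
      IsSymDesign (4 * h ^ 2 * ∑ i ∈ range (m + 1), (2 * h + 1) ^ (2 * i))
        ((2 * h + 1) ^ (2 * m) * (2 * h ^ 2 + h)) ((2 * h + 1) ^ (2 * m) * (h ^ 2 + h)) B := by
  classical
  have hh0 : 0 < h := by
    rcases Nat.eq_zero_or_pos h with h0 | h0
    · subst h0
      exact absurd hp.one_lt (by norm_num)
    · exact h0
  obtain ⟨ℓ, e, hℓ, he, hℓe⟩ := hp
  have hℓp : ℓ.Prime := hℓ.nat_prime
  have : Fact ℓ.Prime := ⟨hℓp⟩
  have hcard0 : Nat.card (GaloisField ℓ (2 * e)) = ℓ ^ (2 * e) :=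
    GaloisField.card ℓ (2 * e) (by omega)
  have : Finite (GaloisField ℓ (2 * e)) := by
    apply Nat.finite_of_card_ne_zero
    rw [hcard0]
    exact pow_ne_zero _ hℓp.ne_zero
  let _ : Fintype (GaloisField ℓ (2 * e)) := Fintype.ofFinite _
  have : NeZero (2 * h) := ⟨by omega⟩
  have hcard : Fintype.card (GaloisField ℓ (2 * e)) = (2 * h + 1) ^ 2 := by
    rw [← Nat.card_eq_fintype_card, hcard0, mul_comm, pow_mul, hℓe]
  have hdvd : 2 * (2 * h) ∣ Fintype.card (GaloisField ℓ (2 * e)) - 1 := by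
    rw [hcard]
    refine ⟨h + 1, ?_⟩
    have : (2 * h + 1) ^ 2 = 2 * (2 * h) * (h + 1) + 1 := by ring
    rw [this, Nat.add_sub_cancel]
  obtain ⟨f, hf⟩ := exists_log (K := GaloisField ℓ (2 * e)) hdvd
  obtain ⟨g, hg⟩ := nrm_of_had hH
  have hcz : (Fintype.card (GaloisField ℓ (2 * e)) : ℤ) = (2 * h + 1) ^ 2 := by
    rw [hcard]; push_cast; ring
  have hP : Fintype.card (ℙ (GaloisField ℓ (2 * e)) (Fin (m + 1) → GaloisField ℓ (2 * e))) =
      ∑ i ∈ range (m + 1), (2 * h + 1) ^ (2 * i) := by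
    rw [← Nat.card_eq_fintype_card, Projectivization.card_of_finrank (GaloisField ℓ (2 * e)) _
      (by simp : Module.finrank (GaloisField ℓ (2 * e)) (Fin (m + 1) → GaloisField ℓ (2 * e)) = m + 1)]
    refine Finset.sum_congr rfl fun i _ => ?_
    rw [Nat.card_eq_fintype_card, hcard, ← pow_mul]
  refine design_of_ent (ι := ℙ (GaloisField ℓ (2 * e)) (Fin (m + 1) → GaloisField ℓ (2 * e)) ×
    (Fin (2 * h) × Fin (2 * h))) (ent f g) (fun p q => ent_or f hg p q) (fun p q => ent_symm f g p q)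
    _ _ _ ?_ (fun p => ?_) (fun p p' hpp => ?_) ?_ ?_
  · rw [Fintype.card_prod, hP, Fintype.card_prod, Fintype.card_fin]
    ring
  · rw [ent_row f hg, hcz]
    push_cast
    rw [← pow_mul]
    ring
  · rw [ent_pair f hf hg (by rw [hcard]) p p' hpp, hcz]
    push_cast
    rw [← pow_mul]
    ring
  · have h1 : (2 * h + 1) ^ (2 * m) ≤ ∑ i ∈ range (m + 1), (2 * h + 1) ^ (2 * i) :=
      Finset.single_le_sum (f := fun i => (2 * h + 1) ^ (2 * i)) (fun i _ => Nat.zero_le _)
        (mem_range.2 (Nat.lt_succ_self m))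
    have h2 : 0 < (2 * h + 1) ^ (2 * m) := by positivity
    rcases Nat.lt_or_ge h 1 with h3 | h3
    · omega
    · have h4 : 2 * h ^ 2 + h < 4 * h ^ 2 := by nlinarith
      calc (2 * h + 1) ^ (2 * m) * (2 * h ^ 2 + h) < (2 * h + 1) ^ (2 * m) * (4 * h ^ 2) :=
            Nat.mul_lt_mul_of_pos_left h4 h2
        _ ≤ 4 * h ^ 2 * ∑ i ∈ range (m + 1), (2 * h + 1) ^ (2 * i) := by
            rw [mul_comm]; exact Nat.mul_le_mul_left _ h1
  · positivity

open Pool.Agent.TH394

/-- Kronecker products -/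
theorem had_mul {a b : ℕ} (ha : HadOrder a) (hb : HadOrder b) : HadOrder (a * b) := by
  obtain ⟨H, h1, h2⟩ := ha
  obtain ⟨L, l1, l2⟩ := hb
  have r1 : ∀ i j, ∑ k, H i k * H j k = if i = j then (a : ℤ) else 0 := by
    intro i j
    have := congrFun (congrFun h2 i) j
    simpa [Matrix.mul_apply, Matrix.smul_apply, Matrix.one_apply] using this
  have r2 : ∀ i j, ∑ k, L i k * L j k = if i = j then (b : ℤ) else 0 := by
    intro i j
    have := congrFun (congrFun l2 i) j
    simpa [Matrix.mul_apply, Matrix.smul_apply, Matrix.one_apply] using this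
  refine hadOrder_of (ι := Fin a × Fin b) (a * b) (by simp) (fun p q => H p.1 q.1 * L p.2 q.2) ?_ ?_
  · intro p q
    rcases h1 p.1 q.1 with h | h <;> rcases l1 p.2 q.2 with h' | h' <;> rw [h, h'] <;> norm_num
  · intro p q
    have e : ∑ r : Fin a × Fin b, H p.1 r.1 * L p.2 r.2 * (H q.1 r.1 * L q.2 r.2) =
        (∑ k, H p.1 k * H q.1 k) * ∑ k, L p.2 k * L q.2 k := by
      rw [Fintype.sum_prod_type, Finset.sum_mul_sum]
      refine Finset.sum_congr rfl fun x _ => Finset.sum_congr rfl fun y _ => by ring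
    rw [e, r1, r2]
    by_cases h3 : p.1 = q.1
    · by_cases h4 : p.2 = q.2
      · have h5 : p = q := Prod.ext h3 h4
        rw [if_pos h3, if_pos h4, if_pos h5]; push_cast; ring
      · have h5 : p ≠ q := fun h => h4 (congrArg Prod.snd h)
        rw [if_neg h4, if_neg h5, mul_zero]
    · have h5 : p ≠ q := fun h => h3 (congrArg Prod.fst h)
      rw [if_neg h3, if_neg h5, zero_mul]

/-- three Golay numbers and Williamson functions -/
theorem had_three {a b c : ℕ} (ha : 1 ≤ a) (hb : 1 ≤ b) (ga : GolayNumber a) (gb : GolayNumber b)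
    (gc : GolayNumber c) {K : Type} [AddCommGroup K] [Fintype K]
    (W : Fin 4 → K → ℤ) (hW : ∀ e x, W e x = 1 ∨ W e x = -1) (hsymm : ∀ e x, W e (-x) = W e x)
    (hpaf : ∀ s, s ≠ 0 → ∑ e, ∑ x, W e x * W e (x + s) = 0) :
    HadOrder (4 * ((2 * a + 1) * (2 * b + 1) * (2 * c + 1) * Fintype.card K)) := by
  classical
  obtain ⟨A, B, C, D, h⟩ := base_exists ha hb ga gb
  obtain ⟨F, G, hF⟩ := gp_of_golayNumber gc
  have hm : 1 ≤ 2 * a * b + a + b := by omega
  have key := had_general hm h hF (W 0) (W 1) (W 2) (W 3) (hW 0) (hW 1) (hW 2) (hW 3)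
    (hsymm 0) (hsymm 1) (hsymm 2) (hsymm 3) (fun x hx => by
      have := hpaf x hx
      rw [Fin.sum_univ_four] at this
      exact this)
  have e : 2 * (2 * a * b + a + b) + 1 = (2 * a + 1) * (2 * b + 1) := by ring
  rw [e] at key
  exact key

theorem design_of_order {M t : ℕ} (hM : HadOrder (4 * M)) (ht : HadOrder t) {h p : ℕ}
    (hh : h = 2 * M * t) (hp : p = 2 * h + 1) (hpp : IsPrimePow p) (m : ℕ) :
    ∃ B : Fin (4 * h ^ 2 * ∑ i ∈ range (m + 1), p ^ (2 * i)) → Finset _,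
      IsSymDesign (4 * h ^ 2 * ∑ i ∈ range (m + 1), p ^ (2 * i))
        (p ^ (2 * m) * (2 * h ^ 2 + h)) (p ^ (2 * m) * (h ^ 2 + h)) B := by
  subst hp
  have h1 : HadOrder (4 * M * t) := had_mul hM ht
  have h2 : 4 * M * t = 2 * h := by rw [hh]; ring
  rw [h2] at h1
  exact ionin hpp h1 m

end Pool.Agent.H28BS
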