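import Pool.Agent.H28BS.Compose

/-! The composition theorem: Golay pairs of lengths `s` and `g` give base sequences `BS(n+1,n)` with
`n = 2sg+s+g`, together with the sums and the alternated sums. -/

namespace Pool.Agent.H28BS

open Finset

/-- a sign -/
def Sgn (x : ℤ) : Prop := x = 1 ∨ x = -1

theorem Sgn.mul {x y : ℤ} (hx : Sgn x) (hy : Sgn y) : Sgn (x * y) := by
  rcases hx with h | h <;> rcases hy with h' | h' <;> rw [h, h'] <;> simp [Sgn]

theorem Sgn.neg {x : ℤ} (hx : Sgn x) : Sgn (-x) := by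
  rcases hx with h | h <;> rw [h] <;> simp [Sgn]

/-- exactly one of the two entries is a sign and the other one is zero -/
def One (x y : ℤ) : Prop := (Sgn x ∧ y = 0) ∨ (x = 0 ∧ Sgn y)

theorem One.add {x y : ℤ} (h : One x y) : Sgn (x + y) := by
  rcases h with ⟨h1, h2⟩ | ⟨h1, h2⟩
  · rw [h2, add_zero]; exact h1
  · rw [h1, zero_add]; exact h2

theorem One.sub {x y : ℤ} (h : One x y) : Sgn (x - y) := by
  rcases h with ⟨h1, h2⟩ | ⟨h1, h2⟩
  · rw [h2, sub_zero]; exact h1
  · rw [h1, zero_sub]; exact h2.neg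

theorem one_XY (s g : ℕ) (P Q F G : ℕ → ℤ) (hP : ∀ i, i < g → Sgn (P i)) (hQ : ∀ i, i < g → Sgn (Q i))
    (hF : ∀ i, i < s → Sgn (F i)) (hG : ∀ i, i < s → Sgn (G i)) (k : ℕ)
    (hk : k < (2 * g + 1) * s + (g + 1)) : One (Xs s g P Q F G k) (Ys s g P F k) := by
  have hdm := Nat.div_add_mod k (2 * g + 1)
  have hr : k % (2 * g + 1) < 2 * g + 1 := Nat.mod_lt _ (by omega)
  simp only [Xs, Ys]
  generalize k / (2 * g + 1) = i at *
  generalize k % (2 * g + 1) = r at *
  have hi : i ≤ s := by
    by_contra hcon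
    have h1 : s + 1 ≤ i := by omega
    have h2 : (2 * g + 1) * (s + 1) ≤ (2 * g + 1) * i := Nat.mul_le_mul_left _ h1
    have h3 : (2 * g + 1) * (s + 1) = (2 * g + 1) * s + (2 * g + 1) := by ring
    omega
  have hir : i = s → r ≤ g := by
    intro h; subst h; omega
  by_cases h1 : r < g
  · rw [if_pos h1, if_pos h1]
    left
    refine ⟨?_, rfl⟩
    by_cases h2 : i < s
    · rw [if_pos h2]; exact (hG _ (by omega)).mul (hQ _ h1)
    · rw [if_neg h2, if_pos (by omega)]; exact hP _ h1
  · rw [if_neg h1, if_neg h1]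
    by_cases h3 : r = g
    · rw [if_pos h3, if_pos h3]
      by_cases h2 : i < s
      · rw [if_pos h2, if_neg (by omega)]; left; exact ⟨hF _ h2, rfl⟩
      · rw [if_neg h2, if_pos (by omega)]; right; exact ⟨rfl, Or.inl rfl⟩
    · rw [if_neg h3, if_neg h3, if_pos (by omega)]
      right
      exact ⟨rfl, ((hF _ (by omega)).mul (hP _ (by omega))).neg⟩

theorem one_ZW (s g : ℕ) (P Q F G : ℕ → ℤ) (hP : ∀ i, i < g → Sgn (P i)) (hQ : ∀ i, i < g → Sgn (Q i))
    (hF : ∀ i, i < s → Sgn (F i)) (hG : ∀ i, i < s → Sgn (G i)) (k : ℕ)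
    (hk : k < (2 * g + 1) * s + g) : One (Zs s g P Q G k) (Ws s g Q F G k) := by
  have hdm := Nat.div_add_mod k (2 * g + 1)
  have hr : k % (2 * g + 1) < 2 * g + 1 := Nat.mod_lt _ (by omega)
  simp only [Zs, Ws]
  generalize k / (2 * g + 1) = i at *
  generalize k % (2 * g + 1) = r at *
  have hi : i ≤ s := by
    by_contra hcon
    have h1 : s + 1 ≤ i := by omega
    have h2 : (2 * g + 1) * (s + 1) ≤ (2 * g + 1) * i := Nat.mul_le_mul_left _ h1
    have h3 : (2 * g + 1) * (s + 1) = (2 * g + 1) * s + (2 * g + 1) := by ring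
    omega
  have hir : i = s → r < g := by
    intro h; subst h; omega
  by_cases h1 : r < g
  · rw [if_pos h1, if_pos h1]
    left
    refine ⟨?_, rfl⟩
    by_cases h2 : i = 0
    · rw [if_pos h2]; exact hQ _ h1
    · rw [if_neg h2, if_pos hi]; exact ((hG _ (by omega)).mul (hP _ h1)).neg
  · rw [if_neg h1, if_neg h1]
    have h2 : i < s := by omega
    by_cases h3 : r < 2 * g
    · rw [if_pos h3, if_pos h2]; right
      exact ⟨rfl, ((hF _ (by omega)).mul (hQ _ (by omega))).neg⟩
    · rw [if_neg h3, if_pos h2]; right; exact ⟨rfl, hG _ h2⟩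

/-- The algebraic identity behind the composition. -/
theorem octonion_identity {R : Type} [CommRing R] (p p' q q' f f' h h' a a' y y' U V g s : R)
    (h1 : a * a' = 1) (h2 : y * y' = 1) (h3 : U * V = 1) (e4 : p * p' + q * q' = 2 * g)
    (e5 : f * f' + h * h' = 2 * s) :
    (q * (a * h') + y * f + a * U * p) * (q' * (a' * h) + y' * f' + a' * V * p') +
      (-(y * y * p' * f) + a * U * y) * (-(y' * y' * p * f') + a' * V * y') +
      (q - U * h * p) * (q' - V * h' * p') +
      (-(y * q * (a * f')) + y * y * h) * (-(y' * q' * (a' * f)) + y' * y' * h') =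
      (2 * s + 1) * (2 * g + 1) := by
  linear_combination (q * q' * h * h' + q * h' * V * p' + U * p * q' * h + U * V * p * p' + U * V * y * y' +
      y * y' * q * q' * f * f') * h1 +
    (f * f' + (y * y' + 1) * p * p' * f * f' - y * p' * f * a' * V - a * U * y' * p * f' + 1 +
      q * q' * f * f' - y' * q * a * f' * h' - y * h * q' * a' * f + (y * y' + 1) * h * h') * h2 +
    (p * p' + y * y' + h * h' * p * p') * h3 + (f * f' + h * h' + 1) * e4 + (2 * g + 1) * e5

/-- The composition theorem. -/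
theorem compose (s g : ℕ) (hs1 : 1 ≤ s) (hg1 : 1 ≤ g) (P Q F G : ℕ → ℤ)
    (hP : ∀ i, i < g → Sgn (P i)) (hQ : ∀ i, i < g → Sgn (Q i))
    (hF : ∀ i, i < s → Sgn (F i)) (hG : ∀ i, i < s → Sgn (G i))
    (hPQ : ∀ (R : Type) [CommRing R] (u v : R), u * v = 1 →
      ev P g u * ev P g v + ev Q g u * ev Q g v = 2 * g)
    (hFG : ∀ (R : Type) [CommRing R] (u v : R), u * v = 1 →
      ev F s u * ev F s v + ev G s u * ev G s v = 2 * s) :
    ∃ A B C D : ℕ → ℤ, IsBase (2 * s * g + s + g) A B C D ∧ ∀ w : ℤ, w * w = 1 →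
      ev A (2 * s * g + s + g + 1) w =
        (w ^ (s - 1) * ev Q g w * ev G s w + w ^ g * ev F s w + w ^ s * ev P g w) +
          (w ^ (s + g) - ev P g w * ev F s w) ∧
      ev B (2 * s * g + s + g + 1) w =
        (w ^ (s - 1) * ev Q g w * ev G s w + w ^ g * ev F s w + w ^ s * ev P g w) -
          (w ^ (s + g) - ev P g w * ev F s w) ∧
      ev C (2 * s * g + s + g) w =
        (ev Q g w - w * ev G s w * ev P g w) + (ev G s w - w ^ (s + g - 1) * ev Q g w * ev F s w) ∧
      ev D (2 * s * g + s + g) w =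
        (ev Q g w - w * ev G s w * ev P g w) - (ev G s w - w ^ (s + g - 1) * ev Q g w * ev F s w) := by
  have hn : 2 * s * g + s + g = (2 * g + 1) * s + g := by ring
  rw [hn]
  set n := (2 * g + 1) * s + g with hndef
  have hn1 : n + 1 = (2 * g + 1) * s + (g + 1) := by omega
  set X := Xs s g P Q F G with hX
  set Y := Ys s g P F with hY
  set Z := Zs s g P Q G with hZ
  set W := Ws s g Q F G with hW
  refine ⟨fun k => if k < n + 1 then X k + Y k else 0, fun k => if k < n + 1 then X k - Y k else 0,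
    fun k => if k < n then Z k + W k else 0, fun k => if k < n then Z k - W k else 0, ?_, ?_⟩
  · have hXY : ∀ k, k < n + 1 → One (X k) (Y k) := fun k hk =>
      one_XY s g P Q F G hP hQ hF hG k (by omega)
    have hZW : ∀ k, k < n → One (Z k) (W k) := fun k hk =>
      one_ZW s g P Q F G hP hQ hF hG k (by omega)
    refine ⟨?_, ?_, ?_, ?_, ?_, ?_, ?_, ?_, ?_⟩
    · intro i hi; simp only [if_pos hi]; exact (hXY i hi).add
    · intro i hi; simp only [if_neg (not_lt.mpr hi)]
    · intro i hi; simp only [if_pos hi]; exact (hXY i hi).sub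
    · intro i hi; simp only [if_neg (not_lt.mpr hi)]
    · intro i hi; simp only [if_pos hi]; exact (hZW i hi).add
    · intro i hi; simp only [if_neg (not_lt.mpr hi)]
    · intro i hi; simp only [if_pos hi]; exact (hZW i hi).sub
    · intro i hi; simp only [if_neg (not_lt.mpr hi)]
    · refine auto_of_norm n _ _ _ _ (2 * ((2 * s + 1) * (2 * g + 1))) ?_ ?_ ?_ ?_ ?_
      · intro i hi; simp only [if_neg (not_lt.mpr hi)]
      · intro i hi; simp only [if_neg (not_lt.mpr hi)]
      · intro i hi; simp only [if_neg (not_lt.mpr hi)]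
      · intro i hi; simp only [if_neg (not_lt.mpr hi)]
      · intro R _ u v huv
        have eA : ∀ w : R, ev (fun k => if k < n + 1 then X k + Y k else 0) (n + 1) w =
            ev X (n + 1) w + ev Y (n + 1) w := by
          intro w; rw [← ev_add]; exact ev_congr (fun i hi => by simp only [if_pos hi]) w
        have eB : ∀ w : R, ev (fun k => if k < n + 1 then X k - Y k else 0) (n + 1) w =
            ev X (n + 1) w - ev Y (n + 1) w := by
          intro w; rw [← ev_sub]; exact ev_congr (fun i hi => by simp only [if_pos hi]) w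
        have eC : ∀ w : R, ev (fun k => if k < n then Z k + W k else 0) n w =
            ev Z n w + ev W n w := by
          intro w; rw [← ev_add]; exact ev_congr (fun i hi => by simp only [if_pos hi]) w
        have eD : ∀ w : R, ev (fun k => if k < n then Z k - W k else 0) n w =
            ev Z n w - ev W n w := by
          intro w; rw [← ev_sub]; exact ev_congr (fun i hi => by simp only [if_pos hi]) w
        rw [eA, eA, eB, eB, eC, eC, eD, eD]
        have huv' : v * u = 1 := by rw [mul_comm]; exact huv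
        have hUV : u ^ (2 * g + 1) * v ^ (2 * g + 1) = 1 := by rw [← mul_pow, huv, one_pow]
        have hUV' : v ^ (2 * g + 1) * u ^ (2 * g + 1) = 1 := by rw [mul_comm]; exact hUV
        have key : ∀ w w' : R, w * w' = 1 →
            ev X (n + 1) w = ev Q g w * ((w ^ (2 * g + 1)) ^ (s - 1) * ev G s (w' ^ (2 * g + 1))) +
              w ^ g * ev F s (w ^ (2 * g + 1)) +
              (w ^ (2 * g + 1)) ^ (s - 1) * w ^ (2 * g + 1) * ev P g w ∧
            ev Y (n + 1) w = -(w ^ g * w ^ g * ev P g w' * ev F s (w ^ (2 * g + 1))) +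
              (w ^ (2 * g + 1)) ^ (s - 1) * w ^ (2 * g + 1) * w ^ g ∧
            ev Z n w = ev Q g w - w ^ (2 * g + 1) * ev G s (w ^ (2 * g + 1)) * ev P g w ∧
            ev W n w = -(w ^ g * ev Q g w * ((w ^ (2 * g + 1)) ^ (s - 1) *
              ev F s (w' ^ (2 * g + 1)))) + w ^ g * w ^ g * ev G s (w ^ (2 * g + 1)) := by
          intro w w' hww
          have hWW : w ^ (2 * g + 1) * w' ^ (2 * g + 1) = 1 := by rw [← mul_pow, hww, one_pow]
          have hs2 : (w ^ (2 * g + 1)) ^ s = (w ^ (2 * g + 1)) ^ (s - 1) * w ^ (2 * g + 1) := by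
            rw [← pow_succ]; congr 1; omega
          have hg2 : w ^ (g + 1) * w ^ (g - 1) = w ^ g * w ^ g := by
            rw [← pow_add, ← pow_add]; congr 1; omega
          have hg3 : w ^ (2 * g) = w ^ g * w ^ g := by rw [← pow_add]; congr 1; omega
          refine ⟨?_, ?_, ?_, ?_⟩
          · rw [hn1, hX, ev_X, ev_rev G s _ _ hWW, hs2]
          · rw [hn1, hY, ev_Y, ev_rev P g _ _ hww, hs2, ← hg2]; ring
          · rw [hndef, hZ, ev_Z]
          · rw [hndef, hW, ev_W, ev_rev F s _ _ hWW, hg3]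
        obtain ⟨x1, y1, z1, w1⟩ := key u v huv
        obtain ⟨x2, y2, z2, w2⟩ := key v u huv'
        have hid := octonion_identity (ev P g u) (ev P g v) (ev Q g u) (ev Q g v)
          (ev F s (u ^ (2 * g + 1))) (ev F s (v ^ (2 * g + 1))) (ev G s (u ^ (2 * g + 1)))
          (ev G s (v ^ (2 * g + 1))) ((u ^ (2 * g + 1)) ^ (s - 1)) ((v ^ (2 * g + 1)) ^ (s - 1))
          (u ^ g) (v ^ g) (u ^ (2 * g + 1)) (v ^ (2 * g + 1)) (g : R) (s : R)
          (by rw [← mul_pow, hUV, one_pow]) (by rw [← mul_pow, huv, one_pow]) hUV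
          (hPQ R u v huv) (hFG R _ _ hUV)
        rw [← x1, ← x2, ← y1, ← y2, ← z1, ← z2, ← w1, ← w2] at hid
        push_cast
        linear_combination 2 * hid
  · intro w hw
    have hpow : ∀ k : ℕ, w ^ (2 * k + 1) = w := by
      intro k; rw [pow_succ, pow_mul, pow_two, hw, one_pow, one_mul]
    have hpow2 : ∀ k : ℕ, w ^ (2 * k) = 1 := by
      intro k; rw [pow_mul, pow_two, hw, one_pow]
    have eX : ev X (n + 1) w = w ^ (s - 1) * ev Q g w * ev G s w + w ^ g * ev F s w + w ^ s * ev P g w := by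
      rw [hn1, hX, ev_X, hpow, ev_rev G s w w hw]; ring
    have eY : ev Y (n + 1) w = w ^ (s + g) - ev P g w * ev F s w := by
      have h1 : w ^ (g + 1) * w ^ (g - 1) = 1 := by
        rw [← pow_add]
        have : g + 1 + (g - 1) = 2 * g := by omega
        rw [this, hpow2]
      rw [hn1, hY, ev_Y, hpow, ev_rev P g w w hw, pow_add]
      linear_combination (-(ev P g w * ev F s w)) * h1
    have eZ : ev Z n w = ev Q g w - w * ev G s w * ev P g w := by
      rw [hndef, hZ, ev_Z, hpow]
    have eW : ev W n w = ev G s w - w ^ (s + g - 1) * ev Q g w * ev F s w := by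
      have h1 : w ^ (s + g - 1) = w ^ g * w ^ (s - 1) := by rw [← pow_add]; congr 1; omega
      rw [hndef, hW, ev_W, hpow, ev_rev F s w w hw, hpow2, h1]; ring
    refine ⟨?_, ?_, ?_, ?_⟩
    · rw [← eX, ← eY, ← ev_add]; exact ev_congr (fun i hi => by simp only [if_pos hi]) w
    · rw [← eX, ← eY, ← ev_sub]; exact ev_congr (fun i hi => by simp only [if_pos hi]) w
    · rw [← eZ, ← eW, ← ev_add]; exact ev_congr (fun i hi => by simp only [if_pos hi]) w
    · rw [← eZ, ← eW, ← ev_sub]; exact ev_congr (fun i hi => by simp only [if_pos hi]) w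

end Pool.Agent.H28BS
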