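import Pool.Agent.H28BS.SymDesign
import Pool.Agent.TH394.HadGS

/-! Symmetric designs with Menon parameters from four sign functions on an abelian group of order `N ^ 2`
whose sums are `N, N, N, -N`. -/

namespace Pool.Agent.H28BS

open Finset Matrix Pool.Agent.TH394 Pool.Agent.H28BS.SD

variable {G : Type} [AddCommGroup G] [Fintype G]

/-- signs of the four block rows -/
def sgR (i : Fin 4) : ℤ := if i = 1 then 1 else -1

theorem sgR_sq (i : Fin 4) : sgR i * sgR i = 1 := by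
  unfold sgR; split_ifs <;> norm_num

theorem gs_rowsum (a b c d : G → ℤ) (N : ℤ) (sa : ∑ x, a x = N) (sb : ∑ x, b x = N)
    (sc : ∑ x, c x = N) (sd : ∑ x, d x = -N) (i : Fin 4) (x : G) :
    ∑ j, ∑ y, sgR i * gs a b c d i x j y = -(2 * N) := by
  have e1 : ∀ f : G → ℤ, ∑ y, f (y - x) = ∑ y, f y := fun f =>
    Equiv.sum_comp (Equiv.subRight x) f
  have e2 : ∀ f : G → ℤ, ∑ y, f (x + y) = ∑ y, f y := fun f =>
    Equiv.sum_comp (Equiv.addLeft x) f
  have e3 : ∀ f : G → ℤ, ∑ y, f (-(x + y)) = ∑ y, f y := fun f =>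
    Equiv.sum_comp ((Equiv.addLeft x).trans (Equiv.neg G)) f
  simp only [← Finset.mul_sum]
  fin_cases i <;>
    simp only [Fin.zero_eta, Fin.mk_one, Fin.reduceFinMk, Fin.isValue, Fin.sum_univ_four, gs, sgR,
      Finset.sum_neg_distrib, e1, e2, e3, sa, sb, sc, sd, neg_neg, reduceIte, Fin.reduceEq,
      zero_ne_one, one_ne_zero] <;> ring

theorem menon_of_quad [DecidableEq G] (a b c d : G → ℤ) (ha : ∀ x, a x = 1 ∨ a x = -1)
    (hb : ∀ x, b x = 1 ∨ b x = -1) (hc : ∀ x, c x = 1 ∨ c x = -1) (hd : ∀ x, d x = 1 ∨ d x = -1)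
    (hP : ∀ s, s ≠ 0 → P a b c d s = 0) (N : ℕ) (hN : 2 ≤ N) (hG : Fintype.card G = N ^ 2)
    (sa : ∑ x, a x = N) (sb : ∑ x, b x = N) (sc : ∑ x, c x = N) (sd : ∑ x, d x = -N) :
    ∃ B : Fin (4 * N ^ 2) → Finset (Fin (4 * N ^ 2)),
      IsSymDesign (4 * N ^ 2) (2 * N ^ 2 - N) (N ^ 2 - N) B := by
  obtain ⟨v, hv⟩ : ∃ v, v = 4 * N ^ 2 := ⟨_, rfl⟩
  have hv0 : 0 < v := by rw [hv]; positivity
  let e : Fin v ≃ Fin 4 × G := (Fintype.equivFinOfCardEq (by simp [hG, hv])).symm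
  let M : Fin v → Fin v → ℤ := fun i j => sgR (e i).1 * gs a b c d (e i).1 (e i).2 (e j).1 (e j).2
  have hM : ∀ i j, M i j = 1 ∨ M i j = -1 := by
    intro i j
    have h1 := gs_pm a b c d ha hb hc hd (e i).1 (e j).1 (e i).2 (e j).2
    have h2 : sgR (e i).1 = 1 ∨ sgR (e i).1 = -1 := by unfold sgR; split_ifs <;> simp
    simp only [M]
    rcases h1 with h1 | h1 <;> rcases h2 with h2 | h2 <;> rw [h1, h2] <;> norm_num
  have hrow : ∀ i, ∑ j, M i j = -(2 * (N : ℤ)) := by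
    intro i
    rw [← gs_rowsum a b c d N sa sb sc sd (e i).1 (e i).2, ← Fintype.sum_prod_type
      (fun q : Fin 4 × G => sgR (e i).1 * gs a b c d (e i).1 (e i).2 q.1 q.2)]
    exact Equiv.sum_comp e (fun q : Fin 4 × G => sgR (e i).1 * gs a b c d (e i).1 (e i).2 q.1 q.2)
  have hrr : ∀ i i', ∑ j, M i j * M i' j = if i = i' then (v : ℤ) else 0 := by
    intro i i'
    have h1 : ∑ j, M i j * M i' j = sgR (e i).1 * sgR (e i').1 *
        ∑ j, ∑ y, gs a b c d (e i).1 (e i).2 j y * gs a b c d (e i').1 (e i').2 j y := by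
      rw [← Fintype.sum_prod_type (fun q : Fin 4 × G => gs a b c d (e i).1 (e i).2 q.1 q.2 *
        gs a b c d (e i').1 (e i').2 q.1 q.2), Finset.mul_sum, ← Equiv.sum_comp e]
      refine Finset.sum_congr rfl (fun j _ => ?_)
      simp only [M]; ring
    rw [h1, gs_inner]
    by_cases h : i = i'
    · subst h
      simp only [if_true, sub_self, sgR_sq, one_mul, P_zero a b c d ha hb hc hd, hG, hv]
      push_cast; ring
    · rw [if_neg h]
      by_cases h2 : (e i).1 = (e i').1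
      · have h3 : (e i).2 - (e i').2 ≠ 0 := by
          intro h4
          exact h (e.injective (Prod.ext h2 (sub_eq_zero.mp h4)))
        rw [if_pos h2, hP _ h3, mul_zero]
      · rw [if_neg h2, mul_zero]
  have hHH : (Matrix.of M) * (Matrix.of M)ᵀ = (v : ℤ) • 1 := by
    ext i j
    rw [Matrix.mul_apply, Matrix.smul_apply, Matrix.one_apply]
    simp only [Matrix.transpose_apply, Matrix.of_apply, smul_eq_mul]
    rw [hrr i j]
    by_cases h : i = j <;> simp [h]
  obtain ⟨_, hcol⟩ := had_rows hv0 hHH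
  simp only [Matrix.of_apply] at hcol
  have hNZ : (0 : ℤ) < N := by exact_mod_cast (by omega : 0 < N)
  have hvZ : (v : ℤ) = 4 * (N : ℤ) ^ 2 := by rw [hv]; push_cast; ring
  have hcs : ∀ j, ∑ i, M i j = -(2 * (N : ℤ)) := by
    intro j
    have h1 : ∑ i, M i j * ∑ j', M i j' = (v : ℤ) := by
      simp only [Finset.mul_sum]
      rw [Finset.sum_comm]
      rw [Finset.sum_congr rfl (fun j' _ => hcol j j')]
      simp
    simp only [hrow, ← Finset.sum_mul] at h1
    rw [hvZ] at h1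
    have h2 : (-(2 * (N : ℤ))) * (∑ i, M i j) = (-(2 * (N : ℤ))) * (-(2 * (N : ℤ))) := by
      rw [mul_comm, h1]; ring
    exact mul_left_cancel₀ (by omega) h2
  have hN2 : N ≤ N ^ 2 := by nlinarith
  rw [← hv]
  refine ⟨_, design_of_matrix M hM (-(2 * (N : ℤ))) 0 hrow hcs ?_ ?_ ?_ ?_ ?_ ?_⟩
  · intro i i' h; rw [hrr, if_neg h]
  · intro i i' h; rw [hcol, if_neg h]
  · rw [Nat.cast_sub (by omega), hvZ]; push_cast; ring
  · rw [Nat.cast_sub hN2, hvZ]; push_cast; ring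
  · have : 0 < N ^ 2 := by positivity
    omega
  · have : N < N ^ 2 := by nlinarith
    omega

end Pool.Agent.H28BS
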