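import Pool.Agent.H28BS.TGolay4
import Pool.Agent.H28BS.Regular

/-! Menon designs of order `4 N ^ 2`, `N = (2a+1)(2b+1)`, from two Golay numbers `a`, `b`. -/

set_option linter.unusedSectionVars false
set_option linter.unusedSimpArgs false

namespace Pool.Agent.H28BS

open Finset Pool.Agent.TH394

theorem IsBase.swap34 {n : ℕ} {A B C D : ℕ → ℤ} (h : IsBase n A B C D) : IsBase n A B D C := by
  obtain ⟨h1, h2, h3, h4, h5, h6, h7, h8, h9⟩ := h
  refine ⟨h1, h2, h3, h4, h7, h8, h5, h6, fun j hj => ?_⟩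
  rw [← h9 j hj]
  congr 1
  exact Finset.sum_congr rfl (fun i _ => by ring)

section sums

variable (m r : ℕ) (A B C D F G : ℕ → ℤ)

theorem ev_yQ_one : ev (yQ m r A B C F G) ((2 * m + 1) * (2 * r + 1)) (1 : ℤ) =
    ev B (m + 1) 1 * ev F r 1 + ev C m 1 * ev G r 1 + ev A (m + 1) 1 := by
  unfold yQ
  rw [ev_Yc _ _ _ _ _ _ _ _ _ _ _ _ (1 : ℤ) 1 (by norm_num)]
  simp only [ev_zero, one_pow]
  ring

theorem ev_yR_one : ev (yR m r A B D F G) ((2 * m + 1) * (2 * r + 1)) (1 : ℤ) =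
    -(ev A (m + 1) 1 * ev F r 1) + ev D m 1 * ev G r 1 + ev B (m + 1) 1 := by
  unfold yR
  rw [ev_Yc _ _ _ _ _ _ _ _ _ _ _ _ (1 : ℤ) 1 (by norm_num)]
  simp only [ev_zero, one_pow, ev_neg_fun, ev_rv G r 1 1 (by norm_num : (1 : ℤ) * 1 = 1)]
  ring

theorem ev_yS_one : ev (yS m r A C D F G) ((2 * m + 1) * (2 * r + 1)) (1 : ℤ) =
    -(ev A (m + 1) 1 * ev G r 1) - ev D m 1 * ev F r 1 + ev C m 1 := by
  unfold yS
  rw [ev_Yc _ _ _ _ _ _ _ _ _ _ _ _ (1 : ℤ) 1 (by norm_num)]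
  simp only [ev_zero, one_pow, ev_neg_fun, ev_rv F r 1 1 (by norm_num : (1 : ℤ) * 1 = 1)]
  ring

theorem ev_yT_one : ev (yT m r B C D F G) ((2 * m + 1) * (2 * r + 1)) (1 : ℤ) =
    -(ev B (m + 1) 1 * ev G r 1) + ev C m 1 * ev F r 1 + ev D m 1 := by
  unfold yT
  rw [ev_Yc _ _ _ _ _ _ _ _ _ _ _ _ (1 : ℤ) 1 (by norm_num)]
  simp only [ev_zero, one_pow, ev_neg_fun, ev_rv F r 1 1 (by norm_num : (1 : ℤ) * 1 = 1),
    ev_rv G r 1 1 (by norm_num : (1 : ℤ) * 1 = 1)]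
  ring

end sums

theorem P_neg3 {G : Type} [AddCommGroup G] [Fintype G] (a b c d : G → ℤ) (s : G) :
    P a (fun x => -b x) (fun x => -c x) (fun x => -d x) s = P a b c d s := by
  unfold P X
  simp only [neg_mul_neg]

/-- two Golay numbers -/
theorem menon_golay {a b N : ℕ} (ha : 1 ≤ a) (hb : 1 ≤ b) (ga : GolayNumber a) (gb : GolayNumber b)
    (hN : N = (2 * a + 1) * (2 * b + 1)) :
    ∃ B : Fin (4 * N ^ 2) → Finset (Fin (4 * N ^ 2)),
      SD.IsSymDesign (4 * N ^ 2) (2 * N ^ 2 - N) (N ^ 2 - N) B := by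
  obtain ⟨P, Q, hPQ⟩ := gp_of_golayNumber ga
  obtain ⟨F, G, hFG⟩ := gp_of_golayNumber gb
  obtain ⟨A, B, C, D, hbase, hsum⟩ := compose b a hb ha P Q F G hPQ.1 hPQ.2.1 hFG.1 hFG.2.1
    hPQ.2.2 hFG.2.2
  obtain ⟨m, hm⟩ : ∃ m, m = 2 * b * a + b + a := ⟨_, rfl⟩
  rw [← hm] at hbase hsum
  have hm1 : 1 ≤ m := by omega
  obtain ⟨sA, sB, sC, sD⟩ := hsum 1 (by norm_num)
  simp only [one_pow, one_mul] at sA sB sC sD
  have hp := hPQ.2.2 ℤ 1 1 (by norm_num)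
  have hf := hFG.2.2 ℤ 1 1 (by norm_num)
  have hbase' := hbase.swap34
  have hFG' := hFG.neg_snd
  have hQP := hPQ.swap.neg_snd
  obtain ⟨t, ht⟩ : ∃ t, t = (2 * m + 1) * (2 * b + 1) := ⟨_, rfl⟩
  have ht0 : t ≠ 0 := by rw [ht]; positivity
  have : NeZero t := ⟨ht0⟩
  obtain ⟨t2, ht2⟩ : ∃ t2, t2 = 2 * a + 1 := ⟨_, rfl⟩
  have : NeZero t2 := ⟨by omega⟩
  obtain ⟨S0, S3, S1, S2, k0, k3, k1, k2, hP, s0, s3, s1, s2⟩ := quad_TGolay (K := ZMod t) ht2 ha hQP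
    (fun x => yQ m b A B D F (fun i => -G i) x.val) (fun x => yS m b A D C F (fun i => -G i) x.val)
    (fun x => yR m b A B C F (fun i => -G i) x.val) (fun x => yT m b B D C F (fun i => -G i) x.val)
    (fun x => by
      have h := yang_T hbase' hFG' x.val (by rw [← ht]; exact ZMod.val_lt x)
      exact h)
    (fun s hs => by
      have h := X_of_norm t (yQ m b A B D F (fun i => -G i)) (yR m b A B C F (fun i => -G i))
        (yS m b A D C F (fun i => -G i)) (yT m b B D C F (fun i => -G i))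
        ((4 * m + 2) * (2 * b + 1)) (fun R _ u v huv => by
          have := yang_norm (m := m) (r := b) hm1 hbase' hFG' u v huv
          rw [← ht] at this
          push_cast
          exact this) s hs
      linarith)
  have sQ : ∑ x : ZMod t, yQ m b A B D F (fun i => -G i) x.val =
      ev B (m + 1) 1 * ev F b 1 + ev D m 1 * (-ev G b 1) + ev A (m + 1) 1 := by
    rw [sum_zmod t (yQ m b A B D F (fun i => -G i)), ← ev_one, ht, ev_yQ_one, ev_neg_fun]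
  have sR : ∑ x : ZMod t, yR m b A B C F (fun i => -G i) x.val =
      -(ev A (m + 1) 1 * ev F b 1) + ev C m 1 * (-ev G b 1) + ev B (m + 1) 1 := by
    rw [sum_zmod t (yR m b A B C F (fun i => -G i)), ← ev_one, ht, ev_yR_one, ev_neg_fun]
  have sS : ∑ x : ZMod t, yS m b A D C F (fun i => -G i) x.val =
      -(ev A (m + 1) 1 * (-ev G b 1)) - ev C m 1 * ev F b 1 + ev D m 1 := by
    rw [sum_zmod t (yS m b A D C F (fun i => -G i)), ← ev_one, ht, ev_yS_one, ev_neg_fun]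
  have sT : ∑ x : ZMod t, yT m b B D C F (fun i => -G i) x.val =
      -(ev B (m + 1) 1 * (-ev G b 1)) + ev D m 1 * ev F b 1 + ev C m 1 := by
    rw [sum_zmod t (yT m b B D C F (fun i => -G i)), ← ev_one, ht, ev_yT_one, ev_neg_fun]
  have hNZ : (N : ℤ) = (ev P a 1 * ev P a 1 + ev Q a 1 * ev Q a 1 + 1) *
      (ev F b 1 * ev F b 1 + ev G b 1 * ev G b 1 + 1) := by
    rw [hp, hf, hN]; push_cast; ring
  rw [sQ, sR, sS, sT, ev_neg_fun, sA, sB, sC, sD] at s0 s1 s2 s3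
  have flip : ∀ z : ℤ, (z = 1 ∨ z = -1) → (-z = 1 ∨ -z = -1) := by
    intro z hz; rcases hz with h | h <;> subst h <;> simp
  refine menon_of_quad S0 (fun x => -S3 x) (fun x => -S1 x) (fun x => -S2 x) k0
    (fun x => flip _ (k3 x)) (fun x => flip _ (k1 x)) (fun x => flip _ (k2 x)) ?_ N ?_ ?_ ?_ ?_ ?_ ?_
  · intro s hs
    rw [P_neg3]; exact hP s hs
  · rw [hN]
    have h1 : 3 ≤ 2 * a + 1 := by omega
    have h2 : 3 ≤ 2 * b + 1 := by omega
    have := Nat.mul_le_mul h1 h2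
    omega
  · rw [Fintype.card_prod, ZMod.card, ZMod.card, ht, ht2, hN, hm]; ring
  · rw [s0, hNZ]; ring
  · rw [Finset.sum_neg_distrib, s3, hNZ]; ring
  · rw [Finset.sum_neg_distrib, s1, hNZ]; ring
  · rw [Finset.sum_neg_distrib, s2, hNZ]; ring

end Pool.Agent.H28BS
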