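import Mathlib

/-! Symmetric designs from sign matrices (the first part of `Pool.Agent.H114R2.Design`). -/

namespace Pool.Agent.H28BS.SD

open Finset Matrix

/-- a symmetric `(v, k, l)`-design on the point set `Fin v`, with blocks `B i`, `i : Fin v` -/
def IsSymDesign (v k l : ℕ) (B : Fin v → Finset (Fin v)) : Prop :=
  k < v ∧ 0 < l ∧ (∀ i, (B i).card = k) ∧
  (∀ x, (univ.filter (fun i => x ∈ B i)).card = k) ∧
  (∀ x y, x ≠ y → (univ.filter (fun i => x ∈ B i ∧ y ∈ B i)).card = l) ∧
  (∀ i j, i ≠ j → (B i ∩ B j).card = l)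

theorem count_one {ι : Type} [Fintype ι] [DecidableEq ι] (f : ι → ℤ)
    (hf : ∀ i, f i = 1 ∨ f i = -1) :
    2 * ((univ.filter (fun i => f i = 1)).card : ℤ) = Fintype.card ι + ∑ i, f i := by
  have h : ∀ i, 2 * (if f i = 1 then (1 : ℤ) else 0) = 1 + f i := by
    intro i
    rcases hf i with h | h <;> simp [h]
  have h1 : ((univ.filter (fun i => f i = 1)).card : ℤ) = ∑ i, (if f i = 1 then (1 : ℤ) else 0) := by
    simp
  rw [h1, Finset.mul_sum, Finset.sum_congr rfl (fun i _ => h i), Finset.sum_add_distrib]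
  simp

theorem count_two {ι : Type} [Fintype ι] [DecidableEq ι] (f g : ι → ℤ)
    (hf : ∀ i, f i = 1 ∨ f i = -1) (hg : ∀ i, g i = 1 ∨ g i = -1) :
    4 * ((univ.filter (fun i => f i = 1 ∧ g i = 1)).card : ℤ)
      = Fintype.card ι + ∑ i, f i + ∑ i, g i + ∑ i, f i * g i := by
  have h : ∀ i, 4 * (if f i = 1 ∧ g i = 1 then (1 : ℤ) else 0) = 1 + f i + g i + f i * g i := by
    intro i
    rcases hf i with h | h <;> rcases hg i with h' | h' <;> simp [h, h']
  have h1 : ((univ.filter (fun i => f i = 1 ∧ g i = 1)).card : ℤ)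
      = ∑ i, (if f i = 1 ∧ g i = 1 then (1 : ℤ) else 0) := by
    simp
  rw [h1, Finset.mul_sum, Finset.sum_congr rfl (fun i _ => h i), Finset.sum_add_distrib,
    Finset.sum_add_distrib, Finset.sum_add_distrib]
  simp

theorem design_of_matrix {v k l : ℕ} (M : Fin v → Fin v → ℤ) (hM : ∀ i j, M i j = 1 ∨ M i j = -1)
    (s c : ℤ) (hr : ∀ i, ∑ j, M i j = s) (hc : ∀ j, ∑ i, M i j = s)
    (hrr : ∀ i i', i ≠ i' → ∑ j, M i j * M i' j = c)
    (hcc : ∀ j j', j ≠ j' → ∑ i, M i j * M i j' = c)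
    (hk : 2 * (k : ℤ) = v + s) (hl : 4 * (l : ℤ) = v + 2 * s + c) (hkv : k < v) (hl0 : 0 < l) :
    IsSymDesign v k l (fun i => univ.filter (fun j => M i j = 1)) := by
  refine ⟨hkv, hl0, fun i => ?_, fun x => ?_, fun x y hxy => ?_, fun i j hij => ?_⟩
  · have := count_one (fun j => M i j) (fun j => hM i j)
    rw [Fintype.card_fin, hr] at this
    have h2 : (2 : ℤ) * ((univ.filter (fun j => M i j = 1)).card : ℤ) = 2 * (k : ℤ) := by
      rw [this, hk]
    have h3 := mul_left_cancel₀ (by norm_num : (2 : ℤ) ≠ 0) h2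
    exact_mod_cast h3
  · have := count_one (fun i => M i x) (fun i => hM i x)
    rw [Fintype.card_fin, hc] at this
    have h2 : (2 : ℤ) * ((univ.filter (fun i => M i x = 1)).card : ℤ) = 2 * (k : ℤ) := by
      rw [this, hk]
    have h3 := mul_left_cancel₀ (by norm_num : (2 : ℤ) ≠ 0) h2
    have h4 : (univ.filter (fun i => M i x = 1)).card = k := by exact_mod_cast h3
    simpa using h4
  · have := count_two (fun i => M i x) (fun i => M i y) (fun i => hM i x) (fun i => hM i y)
    rw [Fintype.card_fin, hc, hc, hcc x y hxy] at this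
    have h2 : (4 : ℤ) * ((univ.filter (fun i => M i x = 1 ∧ M i y = 1)).card : ℤ) = 4 * (l : ℤ) := by
      rw [this, hl]; ring
    have h3 := mul_left_cancel₀ (by norm_num : (4 : ℤ) ≠ 0) h2
    have h4 : (univ.filter (fun i => M i x = 1 ∧ M i y = 1)).card = l := by exact_mod_cast h3
    simpa using h4
  · have := count_two (fun x => M i x) (fun x => M j x) (fun x => hM i x) (fun x => hM j x)
    rw [Fintype.card_fin, hr, hr, hrr i j hij] at this
    have h2 : (4 : ℤ) * ((univ.filter (fun x => M i x = 1 ∧ M j x = 1)).card : ℤ) = 4 * (l : ℤ) := by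
      rw [this, hl]; ring
    have h3 := mul_left_cancel₀ (by norm_num : (4 : ℤ) ≠ 0) h2
    have h4 : (univ.filter (fun x => M i x = 1 ∧ M j x = 1)).card = l := by exact_mod_cast h3
    rw [← Finset.filter_and]
    exact h4

/-- rows and columns of a Hadamard matrix -/
theorem had_rows {N : ℕ} (hN : 0 < N) {H : Matrix (Fin N) (Fin N) ℤ}
    (hHH : H * Hᵀ = (N : ℤ) • 1) :
    (∀ i i', ∑ j, H i j * H i' j = if i = i' then (N : ℤ) else 0) ∧
    (∀ j j', ∑ i, H i j * H i j' = if j = j' then (N : ℤ) else 0) := by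
  have h2 : Hᵀ * H = (N : ℤ) • 1 := by
    have hQ : (H.map (Int.cast : ℤ → ℚ)) * ((N : ℚ)⁻¹ • (H.map (Int.cast : ℤ → ℚ))ᵀ) = 1 := by
      have h3 := congrArg (fun A : Matrix (Fin N) (Fin N) ℤ => A.map (Int.cast : ℤ → ℚ)) hHH
      beta_reduce at h3
      rw [show (H * Hᵀ).map (Int.cast : ℤ → ℚ) = (H.map (Int.cast : ℤ → ℚ)) * (H.map (Int.cast : ℤ → ℚ))ᵀ
        from by
          rw [← Matrix.transpose_map]
          exact (Matrix.map_mul (f := Int.castRingHom ℚ))] at h3
      rw [Matrix.mul_smul, h3]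
      ext i j
      rw [Matrix.smul_apply, Matrix.map_apply, Matrix.smul_apply, Matrix.one_apply, Matrix.one_apply]
      have : (N : ℚ) ≠ 0 := by exact_mod_cast hN.ne'
      by_cases hij : i = j
      · simp [hij, this]
      · simp [hij]
    have hQ2 := mul_eq_one_comm.mp hQ
    rw [Matrix.smul_mul] at hQ2
    ext i j
    have h4 := congrFun (congrFun hQ2 i) j
    rw [Matrix.smul_apply, Matrix.mul_apply] at h4
    rw [Matrix.mul_apply, Matrix.smul_apply]
    have hN' : (N : ℚ) ≠ 0 := by exact_mod_cast hN.ne'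
    have h5 : (∑ x, (H.map (Int.cast : ℤ → ℚ))ᵀ i x * (H.map (Int.cast : ℤ → ℚ)) x j)
        = (N : ℚ) * (1 : Matrix (Fin N) (Fin N) ℚ) i j := by
      rw [← h4, smul_eq_mul, ← mul_assoc, mul_inv_cancel₀ hN', one_mul]
    have h6 : ((∑ x, Hᵀ i x * H x j : ℤ) : ℚ) = (((N : ℤ) * (1 : Matrix (Fin N) (Fin N) ℤ) i j : ℤ) : ℚ) := by
      push_cast
      simp only [Matrix.transpose_apply, Matrix.map_apply] at h5 ⊢
      rw [h5, Matrix.one_apply, Matrix.one_apply]
      by_cases hij : i = j <;> simp [hij]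
    have h7 := Int.cast_injective h6
    simpa using h7
  constructor
  · intro i i'
    have := congrFun (congrFun hHH i) i'
    rw [Matrix.mul_apply, Matrix.smul_apply, Matrix.one_apply] at this
    simp only [Matrix.transpose_apply] at this
    rw [this]
    by_cases h : i = i' <;> simp [h]
  · intro i i'
    have := congrFun (congrFun h2 i) i'
    rw [Matrix.mul_apply, Matrix.smul_apply, Matrix.one_apply] at this
    simp only [Matrix.transpose_apply] at this
    rw [this]
    by_cases h : i = i' <;> simp [h]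

end Pool.Agent.H28BS.SD
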