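import Pool.Agent.H28BS.HadYang2

/-! `T`-functions on a finite abelian group `K` and a Golay pair of length `g` give four sign functions on
`ZMod (2g+1) × K` with vanishing total periodic autocorrelation. -/

set_option linter.unusedSectionVars false
set_option linter.unusedSimpArgs false

namespace Pool.Agent.H28BS

open Finset Pool.Agent.TH394

section seqs

/-- a sequence placed in `[0, g)` -/
def Lq (g : ℕ) (f : ℕ → ℤ) (i : ℕ) : ℤ := if i < g then f i else 0
/-- the unit in the middle -/
def Cq (g : ℕ) (i : ℕ) : ℤ := if i = g then 1 else 0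
/-- a sequence placed in `[g+1, 2g+1)` -/
def Rq (g : ℕ) (f : ℕ → ℤ) (i : ℕ) : ℤ := if g < i then f (i - (g + 1)) else 0

variable {R : Type} [CommRing R]

theorem ev_Lq (g : ℕ) (f : ℕ → ℤ) (x : R) : ev (Lq g f) (2 * g + 1) x = ev f g x := by
  rw [ev_cell1]
  have h1 : ev (Lq g f) g x = ev f g x := ev_congr (fun i hi => by unfold Lq; rw [if_pos hi]) x
  have h2 : ev (fun r => Lq g f (g + 1 + r)) g x = 0 := by
    rw [← ev_zero g x]
    exact ev_congr (fun i _ => by unfold Lq; rw [if_neg (by omega)]) x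
  have h3 : Lq g f g = 0 := by unfold Lq; rw [if_neg (by omega)]
  rw [h1, h2, h3]; simp

theorem ev_Cq (g : ℕ) (x : R) : ev (Cq g) (2 * g + 1) x = x ^ g := by
  rw [ev_cell1]
  have h1 : ev (Cq g) g x = 0 := by
    rw [← ev_zero g x]
    exact ev_congr (fun i hi => by unfold Cq; rw [if_neg (by omega)]) x
  have h2 : ev (fun r => Cq g (g + 1 + r)) g x = 0 := by
    rw [← ev_zero g x]
    exact ev_congr (fun i _ => by unfold Cq; rw [if_neg (by omega)]) x
  have h3 : Cq g g = 1 := by unfold Cq; rw [if_pos rfl]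
  rw [h1, h2, h3]; simp

theorem ev_Rq (g : ℕ) (f : ℕ → ℤ) (x : R) :
    ev (Rq g f) (2 * g + 1) x = x ^ (g + 1) * ev f g x := by
  rw [ev_cell1]
  have h1 : ev (Rq g f) g x = 0 := by
    rw [← ev_zero g x]
    exact ev_congr (fun i hi => by unfold Rq; rw [if_neg (by omega)]) x
  have h2 : ev (fun r => Rq g f (g + 1 + r)) g x = ev f g x :=
    ev_congr (fun i _ => by
      unfold Rq
      rw [if_pos (by omega)]
      congr 1
      omega) x
  have h3 : Rq g f g = 0 := by unfold Rq; rw [if_neg (by omega)]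
  rw [h1, h2, h3]; simp

end seqs

section prod

variable {K : Type} [AddCommGroup K] [Fintype K] [DecidableEq K] (t : ℕ) [NeZero t]

theorem fh'_dl (w : K → ℤ) : fh' (dl t w) =
    ∑ κ, (AddMonoidAlgebra.single ((0 : ZMod t), -κ) (w κ) : AddMonoidAlgebra ℤ (ZMod t × K)) := by
  unfold fh' dl
  rw [Fintype.sum_prod_type, Finset.sum_eq_single (0 : ZMod t)]
  · simp
  · intro x _ hx
    refine Finset.sum_eq_zero (fun κ _ => ?_)
    simp [hx]
  · intro h; exact absurd (Finset.mem_univ _) h

theorem fh'_prod_gen (q : ℕ → ℤ) (w : K → ℤ) :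
    fh' (fun p : ZMod t × K => q p.1.val * w p.2) =
      ev q t (AddMonoidAlgebra.single ((-1 : ZMod t), (0 : K)) (1 : ℤ) :
        AddMonoidAlgebra ℤ (ZMod t × K)) * fh' (dl t w) := by
  rw [fh'_dl, ev_single, Finset.sum_mul_sum]
  unfold fh'
  rw [Fintype.sum_prod_type]
  have h : ∀ i : ℕ, ∑ κ : K, (AddMonoidAlgebra.single (-((i : ZMod t), κ)) (q i * w κ) :
      AddMonoidAlgebra ℤ (ZMod t × K)) = ∑ κ : K,
      AddMonoidAlgebra.single (i • ((-1 : ZMod t), (0 : K))) (q i) *
      AddMonoidAlgebra.single ((0 : ZMod t), -κ) (w κ) := by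
    intro i
    refine Finset.sum_congr rfl (fun κ _ => ?_)
    rw [AddMonoidAlgebra.single_mul_single]
    congr 1
    simp [Prod.ext_iff]
  rw [← Finset.sum_congr rfl (fun i _ => h i), ← sum_zmod t]
  refine Finset.sum_congr rfl (fun x _ => ?_)
  refine Finset.sum_congr rfl (fun κ _ => ?_)
  rw [ZMod.natCast_zmod_val]

/-- the function composed with the inversion -/
def nf (w : K → ℤ) (κ : K) : ℤ := w (-κ)

theorem fh_dl_nf (w : K → ℤ) : fh (dl t (nf w)) = fh' (dl t w) := by
  rw [fh_dl, fh'_dl, ← Equiv.sum_comp (Equiv.neg K)]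
  refine Finset.sum_congr rfl (fun κ _ => ?_)
  simp [nf]

theorem fh'_dl_nf (w : K → ℤ) : fh' (dl t (nf w)) = fh (dl t w) := by
  rw [fh_dl, fh'_dl, ← Equiv.sum_comp (Equiv.neg K)]
  refine Finset.sum_congr rfl (fun κ _ => ?_)
  simp [nf]

theorem fh'_dl_neg (w : K → ℤ) : fh' (dl t (fun κ => -w κ)) = -fh' (dl t w) := by
  rw [← fh'_neg]
  congr 1
  funext p
  unfold dl
  split_ifs <;> simp

theorem fh'_dl_add (w x : K → ℤ) : fh' (dl t (fun κ => w κ + x κ)) = fh' (dl t w) + fh' (dl t x) := by
  rw [← fh'_add]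
  congr 1
  funext p
  unfold dl
  split_ifs <;> simp

/-- the combination of five sequences with five weights -/
def cm5 (a b c d e : ℕ → ℤ) (v w x y z : K → ℤ) (p : ZMod t × K) : ℤ :=
  a p.1.val * v p.2 + b p.1.val * w p.2 + c p.1.val * x p.2 + d p.1.val * y p.2 + e p.1.val * z p.2

theorem fh_cm5 (a b c d e : ℕ → ℤ) (v w x y z : K → ℤ) :
    fh (cm5 t a b c d e v w x y z) =
      ev a t (AddMonoidAlgebra.single ((1 : ZMod t), (0 : K)) (1 : ℤ)) * fh (dl t v) +
      ev b t (AddMonoidAlgebra.single ((1 : ZMod t), (0 : K)) (1 : ℤ)) * fh (dl t w) +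
      ev c t (AddMonoidAlgebra.single ((1 : ZMod t), (0 : K)) (1 : ℤ)) * fh (dl t x) +
      ev d t (AddMonoidAlgebra.single ((1 : ZMod t), (0 : K)) (1 : ℤ)) * fh (dl t y) +
      ev e t (AddMonoidAlgebra.single ((1 : ZMod t), (0 : K)) (1 : ℤ)) * fh (dl t z) := by
  have h : cm5 t a b c d e v w x y z = fun p : ZMod t × K => (fun p : ZMod t × K =>
      (fun p : ZMod t × K => (fun p : ZMod t × K => a p.1.val * v p.2 + b p.1.val * w p.2) p +
        c p.1.val * x p.2) p + d p.1.val * y p.2) p + e p.1.val * z p.2 := rfl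
  rw [h, fh_add, fh_add, fh_add, fh_add, fh_prod, fh_prod, fh_prod, fh_prod, fh_prod]

theorem fh'_cm5 (a b c d e : ℕ → ℤ) (v w x y z : K → ℤ) :
    fh' (cm5 t a b c d e v w x y z) =
      ev a t (AddMonoidAlgebra.single ((-1 : ZMod t), (0 : K)) (1 : ℤ)) * fh' (dl t v) +
      ev b t (AddMonoidAlgebra.single ((-1 : ZMod t), (0 : K)) (1 : ℤ)) * fh' (dl t w) +
      ev c t (AddMonoidAlgebra.single ((-1 : ZMod t), (0 : K)) (1 : ℤ)) * fh' (dl t x) +
      ev d t (AddMonoidAlgebra.single ((-1 : ZMod t), (0 : K)) (1 : ℤ)) * fh' (dl t y) +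
      ev e t (AddMonoidAlgebra.single ((-1 : ZMod t), (0 : K)) (1 : ℤ)) * fh' (dl t z) := by
  have h : cm5 t a b c d e v w x y z = fun p : ZMod t × K => (fun p : ZMod t × K =>
      (fun p : ZMod t × K => (fun p : ZMod t × K => a p.1.val * v p.2 + b p.1.val * w p.2) p +
        c p.1.val * x p.2) p + d p.1.val * y p.2) p + e p.1.val * z p.2 := rfl
  rw [h, fh'_add, fh'_add, fh'_add, fh'_add, fh'_prod_gen, fh'_prod_gen, fh'_prod_gen, fh'_prod_gen,
    fh'_prod_gen]

end prod

/-- the composition of `(A, B, C, D)` with `(1, f, s)` -/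
theorem tgolay_identity {R : Type} [CommRing R] (A A' B B' C C' D D' f f' s s' x x' k k' : R)
    (hx : x * x' = 1) (hk : k * k' = 1) :
    (k * f' * D - s * C + x * k * (A + D) - x * x * k * f * A - x * x * k * s * B) *
      (k' * f * D' - s' * C' + x' * k' * (A' + D') - x' * x' * k' * f' * A' - x' * x' * k' * s' * B') +
    (k * s' * D + f * C + x * k * (C + B) + x * x * k * (k * s') * A - x * x * k * (k * f') * B) *
      (k' * s * D' + f' * C' + x' * k' * (C' + B') + x' * x' * k' * (k' * s) * A' -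
        x' * x' * k' * (k' * f) * B') +
    (-(f * B') + s * A' + x * k * (C' - B') - x * x * k * (k * f') * C' - x * x * k * s * D') *
      (-(f' * B) + s' * A + x' * k' * (C - B) - x' * x' * k' * (k' * f) * C - x' * x' * k' * s' * D) +
    (k * f' * A' + k * s' * B' + x * k * (A' - D') + x * x * k * f * D' - x * x * k * (k * s') * C') *
      (k' * f * A + k' * s * B + x' * k' * (A - D) + x' * x' * k' * f' * D -
        x' * x' * k' * (k' * s) * C) =
    2 * (A * A' + B * B' + C * C' + D * D') * (1 + f * f' + s * s') := by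
  linear_combination (A * A' * f * f' * k * k' + A * A' * f * f' * k * k' * x * x' - A * A' * f * k *
    k' * x - A * A' * f' * k * k' * x' + A * A' * k * k * k' * k' * s * s' + A * A' * k * k * k' * k' *
    s * s' * x * x' + 2 * A * A' * k * k' - A * B' * f * k * k * k' * k' * s' - A * B' * f * k * k * k'
    * k' * s' * x * x' + A * B' * f * k * k' * s' + A * B' * f * k * k' * s' * x * x' + A * B' * k * k *
    k' * s' * x - A * B' * k * k' * s' * x' - A' * B * f' * k * k * k' * k' * s - A' * B * f' * k * k *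
    k' * k' * s * x * x' + A' * B * f' * k * k' * s + A' * B * f' * k * k' * s * x * x' + A' * B * k *
    k' * k' * s * x' - A' * B * k * k' * s * x + B * B' * f * f' * k * k * k' * k' + B * B' * f * f' * k
    * k * k' * k' * x * x' - B * B' * f * k * k' * k' * x' - B * B' * f' * k * k * k' * x + 2 * B * B' *
    k * k' + B * B' * k * k' * s * s' + B * B' * k * k' * s * s' * x * x' + C * C' * f * f' * k * k * k'
    * k' + C * C' * f * f' * k * k * k' * k' * x * x' - C * C' * f * k * k' * k' * x' - C * C' * f' * k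
    * k * k' * x + C * C' * k * k * k' * k' * s * s' + C * C' * k * k * k' * k' * s * s' * x * x' + 2 *
    C * C' * k * k' + C * D' * k * k' * k' * s * x' - C * D' * k * k' * s * x + C' * D * k * k * k' * s'
    * x - C' * D * k * k' * s' * x' + D * D' * f * f' * k * k' + D * D' * f * f' * k * k' * x * x' - D *
    D' * f * k * k' * x - D * D' * f' * k * k' * x' + 2 * D * D' * k * k' + D * D' * k * k' * s * s' + D
    * D' * k * k' * s * s' * x * x') * hx + (2 * A * A' + 2 * A * A' * f * f' + A * A' * k * k' * s * s'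
    + A * A' * s * s' - A * B' * f * k * k' * s' + A * B' * f * s' + A * B' * k * s' * x - A * C' * f *
    k * s' * x * x + A * D' * k * s * s' * x * x - A' * B * f' * k * k' * s + A' * B * f' * s + A' * B *
    k' * s * x' - A' * C * f' * k' * s * x' * x' + A' * D * k' * s * s' * x' * x' + 2 * B * B' + B * B'
    * f * f' + B * B' * f * f' * k * k' - B * B' * f * k' * x' - B * B' * f' * k * x + 2 * B * B' * s *
    s' - B * C' * k * s * s' * x * x - B * D' * f' * k * s * x * x - B' * C * k' * s * s' * x' * x' - B'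
    * D * f * k' * s' * x' * x' + 2 * C * C' + C * C' * f * f' + C * C' * f * f' * k * k' - C * C' * f *
    k' * x' - C * C' * f' * k * x + C * C' * k * k' * s * s' + C * C' * s * s' + C * D' * k' * s * x' +
    C' * D * k * s' * x + 2 * D * D' + 2 * D * D' * f * f' + 2 * D * D' * s * s') * hk

end Pool.Agent.H28BS
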