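import Pool.Agent.H28BS.TGolay3

/-! The four sign functions obtained from `T`-functions and a Golay pair, with their sums. -/

set_option linter.unusedSectionVars false

namespace Pool.Agent.H28BS

open Finset Pool.Agent.TH394

section

variable {K : Type} [AddCommGroup K] [Fintype K] [DecidableEq K]

theorem sum_prod_seq (t : ℕ) [NeZero t] (a : ℕ → ℤ) (v : K → ℤ) :
    ∑ p : ZMod t × K, a p.1.val * v p.2 = ev a t (1 : ℤ) * ∑ κ, v κ := by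
  rw [Fintype.sum_prod_type, ev_one, ← sum_zmod t a, Finset.sum_mul_sum]

theorem sum_cm5 (t : ℕ) [NeZero t] (a b c d e : ℕ → ℤ) (v w x y z : K → ℤ) :
    ∑ p, cm5 t a b c d e v w x y z p = ev a t (1 : ℤ) * ∑ κ, v κ + ev b t (1 : ℤ) * ∑ κ, w κ +
      ev c t (1 : ℤ) * ∑ κ, x κ + ev d t (1 : ℤ) * ∑ κ, y κ + ev e t (1 : ℤ) * ∑ κ, z κ := by
  unfold cm5
  rw [Finset.sum_add_distrib, Finset.sum_add_distrib, Finset.sum_add_distrib, Finset.sum_add_distrib,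
    sum_prod_seq, sum_prod_seq, sum_prod_seq, sum_prod_seq, sum_prod_seq]

theorem sum_nf (w : K → ℤ) : ∑ κ, nf w κ = ∑ κ, w κ :=
  Equiv.sum_comp (Equiv.neg K) w

/-- `T`-functions on `K` and a Golay pair of length `g` give four sign functions of order `(2g+1) |K|`. -/
theorem quad_TGolay {g t : ℕ} [NeZero t] (ht : t = 2 * g + 1) (hg : 1 ≤ g) {F G : ℕ → ℤ}
    (hFG : GP g F G) (a b c d : K → ℤ) (hT : Two a b c d)
    (hP : ∀ s, s ≠ 0 → X a a s + X b b s + X c c s + X d d s = 0) :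
    ∃ S0 S3 S1 S2 : ZMod t × K → ℤ, (∀ p, S0 p = 1 ∨ S0 p = -1) ∧ (∀ p, S3 p = 1 ∨ S3 p = -1) ∧
      (∀ p, S1 p = 1 ∨ S1 p = -1) ∧ (∀ p, S2 p = 1 ∨ S2 p = -1) ∧
      (∀ s, s ≠ 0 → P S0 S3 S1 S2 s = 0) ∧
      ∑ p, S0 p = ev F g 1 * (∑ κ, d κ) - ev G g 1 * (∑ κ, c κ) + (∑ κ, a κ + ∑ κ, d κ) -
        ev F g 1 * (∑ κ, a κ) - ev G g 1 * (∑ κ, b κ) ∧
      ∑ p, S3 p = ev G g 1 * (∑ κ, d κ) + ev F g 1 * (∑ κ, c κ) + (∑ κ, c κ + ∑ κ, b κ) +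
        ev G g 1 * (∑ κ, a κ) - ev F g 1 * (∑ κ, b κ) ∧
      ∑ p, S1 p = -(ev F g 1 * (∑ κ, b κ)) + ev G g 1 * (∑ κ, a κ) + (∑ κ, c κ - ∑ κ, b κ) -
        ev F g 1 * (∑ κ, c κ) - ev G g 1 * (∑ κ, d κ) ∧
      ∑ p, S2 p = ev F g 1 * (∑ κ, a κ) + ev G g 1 * (∑ κ, b κ) + (∑ κ, a κ - ∑ κ, d κ) +
        ev F g 1 * (∑ κ, d κ) - ev G g 1 * (∑ κ, c κ) := by
  -- the four functions
  let S0 := cm5 (K := K) t (Lq g (rv g F)) (Lq g G) (Cq g) (Rq g F) (Rq g G)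
    d (fun κ => -c κ) (fun κ => a κ + d κ) (fun κ => -a κ) (fun κ => -b κ)
  let S3 := cm5 (K := K) t (Lq g (rv g G)) (Lq g F) (Cq g) (Rq g (rv g G)) (Rq g (rv g F))
    d c (fun κ => c κ + b κ) a (fun κ => -b κ)
  let S1 := cm5 (K := K) t (Lq g F) (Lq g G) (Cq g) (Rq g (rv g F)) (Rq g G)
    (fun κ => -nf b κ) (nf a) (fun κ => nf c κ + (fun κ => -nf b κ) κ) (fun κ => -nf c κ)
    (fun κ => -nf d κ)
  let S2 := cm5 (K := K) t (Lq g (rv g F)) (Lq g (rv g G)) (Cq g) (Rq g F) (Rq g (rv g G))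
    (nf a) (nf b) (fun κ => nf a κ + (fun κ => -nf d κ) κ) (nf d) (fun κ => -nf c κ)
  have hF : ∀ i, i < g → Sgn (F i) := hFG.1
  have hG : ∀ i, i < g → Sgn (G i) := hFG.2.1
  have hrF : ∀ i, i < g → Sgn (rv g F i) := fun i hi => hF _ (by omega)
  have hrG : ∀ i, i < g → Sgn (rv g G i) := fun i hi => hG _ (by omega)
  -- values
  have val : ∀ (q1 q2 q3 q4 : ℕ → ℤ) (v w x y z : K → ℤ), (∀ i, i < g → Sgn (q1 i)) →
      (∀ i, i < g → Sgn (q2 i)) → (∀ i, i < g → Sgn (q3 i)) → (∀ i, i < g → Sgn (q4 i)) →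
      (∀ κ, (Sgn (v κ) ∧ w κ = 0) ∨ (v κ = 0 ∧ Sgn (w κ))) → (∀ κ, Sgn (x κ)) →
      (∀ κ, (Sgn (y κ) ∧ z κ = 0) ∨ (y κ = 0 ∧ Sgn (z κ))) → ∀ p : ZMod t × K,
      Sgn (cm5 t (Lq g q1) (Lq g q2) (Cq g) (Rq g q3) (Rq g q4) v w x y z p) := by
    intro q1 q2 q3 q4 v w x y z h1 h2 h3 h4 h5 h6 h7 p
    unfold cm5 Lq Cq Rq
    have hv : p.1.val < 2 * g + 1 := by rw [← ht]; exact ZMod.val_lt p.1
    rcases lt_trichotomy p.1.val g with h | h | h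
    · rw [if_pos h, if_pos h, if_neg (by omega), if_neg (by omega), if_neg (by omega)]
      rcases h5 p.2 with ⟨k1, k2⟩ | ⟨k1, k2⟩
      · rw [k2]; simpa using (h1 _ h).mul k1
      · rw [k1]; simpa using (h2 _ h).mul k2
    · rw [if_neg (by omega), if_neg (by omega), if_pos h, if_neg (by omega), if_neg (by omega)]
      simpa using h6 p.2
    · rw [if_neg (by omega), if_neg (by omega), if_neg (by omega), if_pos h, if_pos h]
      have h8 : p.1.val - (g + 1) < g := by omega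
      rcases h7 p.2 with ⟨k1, k2⟩ | ⟨k1, k2⟩
      · rw [k2]; simpa using (h3 _ h8).mul k1
      · rw [k1]; simpa using (h4 _ h8).mul k2
  have hS0 : ∀ p, S0 p = 1 ∨ S0 p = -1 := by
    refine val _ _ _ _ _ _ _ _ _ hrF hG hF hG ?_ ?_ ?_
    · intro κ
      rcases hT κ with ⟨h1, h2, h3, h4⟩ | ⟨h1, h2, h3, h4⟩
      · right; exact ⟨h4, h2.neg⟩
      · left; exact ⟨h4, by simp [h2]⟩
    · intro κ
      rcases hT κ with ⟨h1, h2, h3, h4⟩ | ⟨h1, h2, h3, h4⟩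
      · simpa [h4] using h1
      · simpa [h1] using h4
    · intro κ
      rcases hT κ with ⟨h1, h2, h3, h4⟩ | ⟨h1, h2, h3, h4⟩
      · left; exact ⟨h1.neg, by simp [h3]⟩
      · right; exact ⟨by simp [h1], h3.neg⟩
  have hS3 : ∀ p, S3 p = 1 ∨ S3 p = -1 := by
    refine val _ _ _ _ _ _ _ _ _ hrG hF hrG hrF ?_ ?_ ?_
    · intro κ
      rcases hT κ with ⟨h1, h2, h3, h4⟩ | ⟨h1, h2, h3, h4⟩
      · right; exact ⟨h4, h2⟩
      · left; exact ⟨h4, h2⟩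
    · intro κ
      rcases hT κ with ⟨h1, h2, h3, h4⟩ | ⟨h1, h2, h3, h4⟩
      · simpa [h3] using h2
      · simpa [h2] using h3
    · intro κ
      rcases hT κ with ⟨h1, h2, h3, h4⟩ | ⟨h1, h2, h3, h4⟩
      · left; exact ⟨h1, by simp [h3]⟩
      · right; exact ⟨h1, h3.neg⟩
  have hS1 : ∀ p, S1 p = 1 ∨ S1 p = -1 := by
    refine val _ _ _ _ _ _ _ _ _ hF hG hrF hG ?_ ?_ ?_
    · intro κ
      unfold nf
      rcases hT (-κ) with ⟨h1, h2, h3, h4⟩ | ⟨h1, h2, h3, h4⟩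
      · right; exact ⟨by simp [h3], h1⟩
      · left; exact ⟨h3.neg, h1⟩
    · intro κ
      unfold nf
      rcases hT (-κ) with ⟨h1, h2, h3, h4⟩ | ⟨h1, h2, h3, h4⟩
      · simpa [h3] using h2
      · simpa [h2] using h3.neg
    · intro κ
      unfold nf
      rcases hT (-κ) with ⟨h1, h2, h3, h4⟩ | ⟨h1, h2, h3, h4⟩
      · left; exact ⟨h2.neg, by simp [h4]⟩
      · right; exact ⟨by simp [h2], h4.neg⟩
  have hS2 : ∀ p, S2 p = 1 ∨ S2 p = -1 := by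
    refine val _ _ _ _ _ _ _ _ _ hrF hrG hF hrG ?_ ?_ ?_
    · intro κ
      unfold nf
      rcases hT (-κ) with ⟨h1, h2, h3, h4⟩ | ⟨h1, h2, h3, h4⟩
      · left; exact ⟨h1, h3⟩
      · right; exact ⟨h1, h3⟩
    · intro κ
      unfold nf
      rcases hT (-κ) with ⟨h1, h2, h3, h4⟩ | ⟨h1, h2, h3, h4⟩
      · simpa [h4] using h1
      · simpa [h1] using h4.neg
    · intro κ
      unfold nf
      rcases hT (-κ) with ⟨h1, h2, h3, h4⟩ | ⟨h1, h2, h3, h4⟩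
      · right; exact ⟨h4, h2.neg⟩
      · left; exact ⟨h4, by simp [h2]⟩
  have L1 : ∀ f : ℕ → ℤ, ev (Lq g f) t (1 : ℤ) = ev f g 1 := by
    intro f; rw [ht]; exact ev_Lq g f 1
  have C1 : ev (Cq g) t (1 : ℤ) = 1 := by rw [ht, ev_Cq, one_pow]
  have R1 : ∀ f : ℕ → ℤ, ev (Rq g f) t (1 : ℤ) = ev f g 1 := by
    intro f; rw [ht, ev_Rq, one_pow, one_mul]
  have V1 : ∀ f : ℕ → ℤ, ev (rv g f) g (1 : ℤ) = ev f g 1 := by
    intro f; rw [ev_rv f g 1 1 (by norm_num), one_pow, one_mul]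
  refine ⟨S0, S3, S1, S2, hS0, hS3, hS1, hS2, ?_, ?_, ?_, ?_, ?_⟩
  rotate_left
  · change ∑ p, cm5 t _ _ _ _ _ _ _ _ _ _ p = _
    rw [sum_cm5, L1, L1, C1, R1, R1, V1, Finset.sum_neg_distrib, Finset.sum_neg_distrib,
      Finset.sum_neg_distrib, Finset.sum_add_distrib]
    ring
  · change ∑ p, cm5 t _ _ _ _ _ _ _ _ _ _ p = _
    rw [sum_cm5, L1, L1, C1, R1, R1, V1, V1, Finset.sum_neg_distrib, Finset.sum_add_distrib]
    ring
  · change ∑ p, cm5 t _ _ _ _ _ _ _ _ _ _ p = _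
    rw [sum_cm5, L1, L1, C1, R1, R1, V1, Finset.sum_neg_distrib, Finset.sum_neg_distrib,
      Finset.sum_neg_distrib, Finset.sum_add_distrib, Finset.sum_neg_distrib, sum_nf, sum_nf, sum_nf,
      sum_nf]
    ring
  · change ∑ p, cm5 t _ _ _ _ _ _ _ _ _ _ p = _
    rw [sum_cm5, L1, L1, C1, R1, R1, V1, V1, Finset.sum_neg_distrib, Finset.sum_add_distrib,
      Finset.sum_neg_distrib, sum_nf, sum_nf, sum_nf, sum_nf]
    ring
  intro s hs
  -- the identity in the group ring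
  obtain ⟨x, hxd⟩ : ∃ x : AddMonoidAlgebra ℤ (ZMod t × K), x = AddMonoidAlgebra.single ((1 : ZMod t), (0 : K)) (1 : ℤ) :=
    ⟨_, rfl⟩
  obtain ⟨x', hxd'⟩ : ∃ x' : AddMonoidAlgebra ℤ (ZMod t × K),
      x' = AddMonoidAlgebra.single ((-1 : ZMod t), (0 : K)) (1 : ℤ) := ⟨_, rfl⟩
  have hUV : x * x' = 1 := by
    rw [hxd, hxd', AddMonoidAlgebra.single_mul_single]
    simp only [AddMonoidAlgebra.one_def, Prod.mk_add_mk, add_neg_cancel, add_zero, mul_one]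
    rfl
  have hVU : x' * x = 1 := by rw [mul_comm]; exact hUV
  have hN := hFG.2.2 _ x x' hUV
  have hk : x ^ (g - 1) * x' ^ (g - 1) = 1 := by rw [← mul_pow, hUV, one_pow]
  have k0 := fh_cm5 (K := K) t (Lq g (rv g F)) (Lq g G) (Cq g) (Rq g F) (Rq g G)
    d (fun κ => -c κ) (fun κ => a κ + d κ) (fun κ => -a κ) (fun κ => -b κ)
  have l0 := fh'_cm5 (K := K) t (Lq g (rv g F)) (Lq g G) (Cq g) (Rq g F) (Rq g G)
    d (fun κ => -c κ) (fun κ => a κ + d κ) (fun κ => -a κ) (fun κ => -b κ)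
  have k3 := fh_cm5 (K := K) t (Lq g (rv g G)) (Lq g F) (Cq g) (Rq g (rv g G)) (Rq g (rv g F))
    d c (fun κ => c κ + b κ) a (fun κ => -b κ)
  have l3 := fh'_cm5 (K := K) t (Lq g (rv g G)) (Lq g F) (Cq g) (Rq g (rv g G)) (Rq g (rv g F))
    d c (fun κ => c κ + b κ) a (fun κ => -b κ)
  have k1 := fh_cm5 (K := K) t (Lq g F) (Lq g G) (Cq g) (Rq g (rv g F)) (Rq g G)
    (fun κ => -nf b κ) (nf a) (fun κ => nf c κ + (fun κ => -nf b κ) κ) (fun κ => -nf c κ)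
    (fun κ => -nf d κ)
  have l1 := fh'_cm5 (K := K) t (Lq g F) (Lq g G) (Cq g) (Rq g (rv g F)) (Rq g G)
    (fun κ => -nf b κ) (nf a) (fun κ => nf c κ + (fun κ => -nf b κ) κ) (fun κ => -nf c κ)
    (fun κ => -nf d κ)
  have k2 := fh_cm5 (K := K) t (Lq g (rv g F)) (Lq g (rv g G)) (Cq g) (Rq g F) (Rq g (rv g G))
    (nf a) (nf b) (fun κ => nf a κ + (fun κ => -nf d κ) κ) (nf d) (fun κ => -nf c κ)
  have l2 := fh'_cm5 (K := K) t (Lq g (rv g F)) (Lq g (rv g G)) (Cq g) (Rq g F) (Rq g (rv g G))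
    (nf a) (nf b) (fun κ => nf a κ + (fun κ => -nf d κ) κ) (nf d) (fun κ => -nf c κ)
  have eL : ∀ {R : Type} [CommRing R] (f : ℕ → ℤ) (y : R), ev (Lq g f) t y = ev f g y := by
    intro R _ f y; rw [ht]; exact ev_Lq g f y
  have eC : ∀ {R : Type} [CommRing R] (y : R), ev (Cq g) t y = y * y ^ (g - 1) := by
    intro R _ y; rw [ht, ev_Cq, ← pow_succ']; congr 1; omega
  have eR : ∀ {R : Type} [CommRing R] (f : ℕ → ℤ) (y : R),
      ev (Rq g f) t y = y * y * y ^ (g - 1) * ev f g y := by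
    intro R _ f y
    rw [ht, ev_Rq, mul_assoc y y, ← pow_succ', ← pow_succ']
    have : g - 1 + 1 + 1 = g + 1 := by omega
    rw [this]
  rw [← hxd] at k0 k1 k2 k3
  rw [← hxd'] at l0 l1 l2 l3
  simp only [eL, eC, eR, ev_rv F g x x' hUV, ev_rv G g x x' hUV, fh_dl_neg, fh_dl_add, fh_dl_nf]
    at k0 k1 k2 k3
  simp only [eL, eC, eR, ev_rv F g x' x hVU, ev_rv G g x' x hVU, fh'_dl_neg, fh'_dl_add, fh'_dl_nf]
    at l0 l1 l2 l3
  have key := tgolay_identity (fh (dl t a)) (fh' (dl t a)) (fh (dl t b)) (fh' (dl t b))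
    (fh (dl t c)) (fh' (dl t c)) (fh (dl t d)) (fh' (dl t d)) (ev F g x) (ev F g x') (ev G g x)
    (ev G g x') x x' (x ^ (g - 1)) (x' ^ (g - 1)) hUV hk
  have hid : fh S0 * fh' S0 + fh S3 * fh' S3 + fh S1 * fh' S1 + fh S2 * fh' S2 =
      ((2 * (2 * g + 1) : ℕ) : AddMonoidAlgebra ℤ (ZMod t × K)) *
      (fh (dl t a) * fh' (dl t a) + fh (dl t b) * fh' (dl t b) + fh (dl t c) * fh' (dl t c) +
        fh (dl t d) * fh' (dl t d)) := by
    have e1 : 1 + ev F g x * ev F g x' + ev G g x * ev G g x' = 1 + 2 * (g : AddMonoidAlgebra ℤ (ZMod t × K)) := by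
      linear_combination hN
    rw [e1] at key
    change fh (cm5 _ _ _ _ _ _ _ _ _ _ _) * fh' (cm5 _ _ _ _ _ _ _ _ _ _ _) +
      fh (cm5 _ _ _ _ _ _ _ _ _ _ _) * fh' (cm5 _ _ _ _ _ _ _ _ _ _ _) +
      fh (cm5 _ _ _ _ _ _ _ _ _ _ _) * fh' (cm5 _ _ _ _ _ _ _ _ _ _ _) +
      fh (cm5 _ _ _ _ _ _ _ _ _ _ _) * fh' (cm5 _ _ _ _ _ _ _ _ _ _ _) = _
    rw [k0, l0, k3, l3, k1, l1, k2, l2]
    push_cast
    linear_combination key
  have hc := congrArg (fun x : AddMonoidAlgebra ℤ (ZMod t × K) => x.coeff s) hid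
  beta_reduce at hc
  rw [coeff_natCast_mul] at hc
  simp only [AddMonoidAlgebra.coeff_add, Finsupp.add_apply, coeff_fh, X_dl] at hc
  have hz : (if s.1 = 0 then X a a s.2 else 0) + (if s.1 = 0 then X b b s.2 else 0) +
      (if s.1 = 0 then X c c s.2 else 0) + (if s.1 = 0 then X d d s.2 else 0) = 0 := by
    by_cases h : s.1 = 0
    · simp only [if_pos h]
      refine hP s.2 (fun h' => hs ?_)
      exact Prod.ext h h'
    · simp only [if_neg h]; norm_num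
  rw [hz, mul_zero] at hc
  unfold P
  exact hc

end

end Pool.Agent.H28BS
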