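import Mathlib

/-! Williamson functions of order `(q+1)/2`, `q ≡ 1 (mod 4)` a prime power (Turyn, Whiteman). -/

set_option autoImplicit false

namespace Pool.Agent.H28BS

open Finset

/-- the squares in the norm-one group of `F(√g)` -/
structure TK (F : Type) [Field F] (g : F) where
  x : F
  y : F
  h : ∃ u v : F, u ^ 2 - g * v ^ 2 = 1 ∧ x = u ^ 2 + g * v ^ 2 ∧ y = 2 * u * v

namespace TK

variable {F : Type} [Field F] {g : F}

theorem ext' {p q : TK F g} (h1 : p.x = q.x) (h2 : p.y = q.y) : p = q := by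
  cases p; cases q; simp only at h1 h2; subst h1; subst h2; rfl

instance : Add (TK F g) := ⟨fun p q => ⟨p.x * q.x + g * p.y * q.y, p.x * q.y + p.y * q.x, by
  obtain ⟨u, v, h1, h2, h3⟩ := p.h
  obtain ⟨u', v', h1', h2', h3'⟩ := q.h
  refine ⟨u * u' + g * v * v', u * v' + v * u', ?_, ?_, ?_⟩
  · have : (u * u' + g * v * v') ^ 2 - g * (u * v' + v * u') ^ 2 =
      (u ^ 2 - g * v ^ 2) * (u' ^ 2 - g * v' ^ 2) := by ring
    rw [this, h1, h1', one_mul]
  · rw [h2, h2', h3, h3']; ring
  · rw [h2, h2', h3, h3']; ring⟩⟩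

instance : Zero (TK F g) := ⟨⟨1, 0, 1, 0, by ring, by ring, by ring⟩⟩

instance : Neg (TK F g) := ⟨fun p => ⟨p.x, -p.y, by
  obtain ⟨u, v, h1, h2, h3⟩ := p.h
  exact ⟨u, -v, by rw [← h1]; ring, by rw [h2]; ring, by rw [h3]; ring⟩⟩⟩

theorem add_x (p q : TK F g) : (p + q).x = p.x * q.x + g * p.y * q.y := rfl
theorem add_y (p q : TK F g) : (p + q).y = p.x * q.y + p.y * q.x := rfl
theorem neg_x (p : TK F g) : (-p).x = p.x := rfl
theorem neg_y (p : TK F g) : (-p).y = -p.y := rfl
theorem zero_x : (0 : TK F g).x = 1 := rfl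
theorem zero_y : (0 : TK F g).y = 0 := rfl

theorem norm_one (p : TK F g) : p.x ^ 2 - g * p.y ^ 2 = 1 := by
  obtain ⟨u, v, h1, h2, h3⟩ := p.h
  rw [h2, h3]
  have : (u ^ 2 + g * v ^ 2) ^ 2 - g * (2 * u * v) ^ 2 = (u ^ 2 - g * v ^ 2) ^ 2 := by ring
  rw [this, h1]; ring

instance : AddCommGroup (TK F g) where
  add_assoc a b c := by
    apply ext' <;> simp only [add_x, add_y] <;> ring
  zero_add a := by
    apply ext' <;> simp only [add_x, add_y, zero_x, zero_y] <;> ring
  add_zero a := by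
    apply ext' <;> simp only [add_x, add_y, zero_x, zero_y] <;> ring
  add_comm a b := by
    apply ext' <;> simp only [add_x, add_y] <;> ring
  neg_add_cancel a := by
    have := norm_one a
    apply ext'
    · simp only [add_x, neg_x, neg_y, zero_x]; rw [← this]; ring
    · simp only [add_y, neg_x, neg_y, zero_y]; ring
  nsmul := nsmulRec
  zsmul := zsmulRec

noncomputable instance [Fintype F] : Fintype (TK F g) :=
  Fintype.ofInjective (fun p : TK F g => (p.x, p.y)) (fun p q h => by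
    simp only [Prod.mk.injEq] at h; exact ext' h.1 h.2)

variable {i : F} (hi : i ^ 2 = -1) (hg : ¬ IsSquare g) (h2 : (2 : F) ≠ 0)

include hi hg in
theorem no_neg (v c : F) (hc : c ≠ 0) : c ^ 2 ≠ -(g * v ^ 2) := by
  intro h
  have hv : v ≠ 0 := by
    rintro rfl
    apply hc
    have : c ^ 2 = 0 := by rw [h]; ring
    exact pow_eq_zero_iff (two_ne_zero) |>.1 this
  apply hg
  refine ⟨i * c / v, ?_⟩
  have : g * v ^ 2 = (i * c) ^ 2 := by linear_combination (-c ^ 2) * hi + h
  field_simp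
  linear_combination this

include hi hg in
theorem x_ne (p : TK F g) : p.x ≠ 0 := by
  intro h
  have := norm_one p
  rw [h] at this
  exact no_neg hi hg p.y 1 one_ne_zero (by linear_combination -this)

include hi hg h2 in
theorem eq_zero_of_y (p : TK F g) (h : p.y = 0) : p = 0 := by
  obtain ⟨u, v, h1, hx, hy⟩ := p.h
  rw [h] at hy
  have : u = 0 ∨ v = 0 := by
    rcases mul_eq_zero.1 hy.symm with h' | h'
    · rcases mul_eq_zero.1 h' with h'' | h''
      · exact absurd h'' h2
      · exact Or.inl h''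
    · exact Or.inr h'
  rcases this with rfl | rfl
  · exact absurd (by linear_combination -h1 : (1 : F) ^ 2 = -(g * v ^ 2)) (no_neg hi hg v 1 one_ne_zero)
  · apply ext'
    · rw [zero_x, hx, ← h1]; ring
    · rw [zero_y, h]

/-- the parametrisation of the nonzero vectors of the plane by scalars, a bit and the group -/
def Phi (g : F) (w : Fˣ × Bool × TK F g) : F × F :=
  match w.2.1 with
  | false => ((w.1 : F) * w.2.2.x, (w.1 : F) * w.2.2.y)
  | true => ((w.1 : F) * (g * w.2.2.y), (w.1 : F) * w.2.2.x)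

theorem Phi_false (c : Fˣ) (p : TK F g) : Phi g (c, false, p) = ((c : F) * p.x, (c : F) * p.y) := rfl
theorem Phi_true (c : Fˣ) (p : TK F g) : Phi g (c, true, p) = ((c : F) * (g * p.y), (c : F) * p.x) := rfl

include hi hg h2 in
theorem inj_aux (c c' : F) (hc : c ≠ 0) (p p' : TK F g) (hx : c * p.x = c' * p'.x)
    (hy : c * p.y = c' * p'.y) : c = c' ∧ p = p' := by
  have n1 := norm_one p
  have n2 := norm_one p'
  have hcc : c ^ 2 = c' ^ 2 := by
    have e1 : c ^ 2 = (c * p.x) ^ 2 - g * (c * p.y) ^ 2 := by linear_combination (-c ^ 2) * n1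
    have e2 : c' ^ 2 = (c' * p'.x) ^ 2 - g * (c' * p'.y) ^ 2 := by linear_combination (-c' ^ 2) * n2
    rw [e1, e2, hx, hy]
  have key : p - p' = 0 := by
    apply eq_zero_of_y hi hg h2
    rw [sub_eq_add_neg, add_y, neg_x, neg_y]
    have : c * c' * (p.x * -p'.y + p.y * p'.x) = 0 := by
      linear_combination (-c' * p'.y) * hx + (c' * p'.x) * hy
    have hc' : c' ≠ 0 := by
      rintro rfl
      apply hc
      have : c ^ 2 = 0 := by rw [hcc]; ring
      exact pow_eq_zero_iff (two_ne_zero) |>.1 this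
    rcases mul_eq_zero.1 this with h | h
    · exact absurd h (mul_ne_zero hc hc')
    · exact h
  have hpp : p = p' := sub_eq_zero.1 key
  subst hpp
  exact ⟨mul_right_cancel₀ (x_ne hi hg p) hx, rfl⟩

include hi hg h2 in
theorem Phi_inj : Function.Injective (Phi (F := F) g) := by
  have hgz : g ≠ 0 := by rintro rfl; exact hg ⟨0, by ring⟩
  rintro ⟨c, e, p⟩ ⟨c', e', p'⟩ h
  have mixed : ∀ (c c' : Fˣ) (p p' : TK F g), Phi g (c, false, p) ≠ Phi g (c', true, p') := by
    intro c c' p p' h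
    rw [Phi_false, Phi_true, Prod.mk.injEq] at h
    apply no_neg hi hg (c' : F) (c : F) c.ne_zero
    have n1 := norm_one p
    have n2 := norm_one p'
    have e1 : (c : F) ^ 2 = (c * p.x) ^ 2 - g * (c * p.y) ^ 2 := by linear_combination (-(c : F) ^ 2) * n1
    rw [e1, h.1, h.2]
    linear_combination (-g * (c' : F) ^ 2) * n2
  cases e <;> cases e'
  · rw [Phi_false, Phi_false, Prod.mk.injEq] at h
    obtain ⟨k1, k2⟩ := inj_aux hi hg h2 c c' c.ne_zero p p' h.1 h.2
    rw [Units.ext k1, k2]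
  · exact absurd h (mixed c c' p p')
  · exact absurd h.symm (mixed c' c p' p)
  · rw [Phi_true, Phi_true, Prod.mk.injEq] at h
    obtain ⟨k1, k2⟩ := inj_aux hi hg h2 c c' c.ne_zero p p' h.2
      (mul_left_cancel₀ hgz (by linear_combination h.1))
    rw [Units.ext k1, k2]

/-- a norm-one element lies in the group up to sign -/
theorem surj_one (hi : i ^ 2 = -1) (h2 : (2 : F) ≠ 0) (hg : ¬ IsSquare g)
    (hsq : ∀ a b : F, ¬ IsSquare a → ¬ IsSquare b → IsSquare (a * b))
    (a b : F) (h1 : a ^ 2 - g * b ^ 2 = 1) :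
    ∃ (e : F) (p : TK F g), (e = 1 ∨ e = -1) ∧ a = e * p.x ∧ b = e * p.y := by
  have hgz : g ≠ 0 := by rintro rfl; exact hg ⟨0, by ring⟩
  by_cases ha : a = -1
  · subst ha
    have hb : b = 0 := by
      have : g * b ^ 2 = 0 := by linear_combination -h1
      rcases mul_eq_zero.1 this with h | h
      · exact absurd h hgz
      · exact pow_eq_zero_iff (two_ne_zero) |>.1 h
    refine ⟨-1, 0, Or.inr rfl, ?_, ?_⟩
    · rw [zero_x]; ring
    · rw [zero_y, hb]; ring
  · have ht : 2 * (1 + a) ≠ 0 := mul_ne_zero h2 (fun h => ha (by linear_combination h))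
    by_cases hs : IsSquare (2 * (1 + a))
    · obtain ⟨d, hd⟩ := hs
      have hd0 : d ≠ 0 := by rintro rfl; exact ht (by rw [hd]; ring)
      refine ⟨1, ⟨a, b, (1 + a) / d, b / d, ?_, ?_, ?_⟩, Or.inl rfl, by ring, by ring⟩
      · field_simp; linear_combination hd + h1
      · field_simp; linear_combination (-a) * hd + h1
      · field_simp; linear_combination (-b) * hd
    · obtain ⟨d, hd⟩ : IsSquare (-(g * (2 * (1 + a)))) := by
        obtain ⟨e, he⟩ := hsq _ _ hg hs
        exact ⟨i * e, by rw [he]; linear_combination (-e ^ 2) * hi⟩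
      have hd0 : d ≠ 0 := by
        rintro rfl
        exact mul_ne_zero hgz ht (by linear_combination -hd)
      refine ⟨-1, ⟨-a, -b, g * b / d, (1 + a) / d, ?_, ?_, ?_⟩, Or.inr rfl, by ring, by ring⟩
      · field_simp; linear_combination hd - g * h1
      · field_simp; linear_combination (a) * hd + g * h1
      · field_simp; linear_combination (b) * hd

theorem surj_sq (hi : i ^ 2 = -1) (h2 : (2 : F) ≠ 0) (hg : ¬ IsSquare g)
    (hsq : ∀ a b : F, ¬ IsSquare a → ¬ IsSquare b → IsSquare (a * b))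
    (a b : F) (h1 : a ≠ 0 ∨ b ≠ 0) (hs : IsSquare (a ^ 2 - g * b ^ 2)) :
    ∃ (c : Fˣ) (p : TK F g), a = c * p.x ∧ b = c * p.y := by
  obtain ⟨d, hd⟩ := hs
  have hd0 : d ≠ 0 := by
    rintro rfl
    have e : a ^ 2 = g * b ^ 2 := by linear_combination hd
    have hb : b ≠ 0 := by
      rintro rfl
      have : a ^ 2 = 0 := by rw [e]; ring
      have : a = 0 := pow_eq_zero_iff (two_ne_zero) |>.1 this
      rcases h1 with h | h
      · exact h this
      · exact h rfl
    apply hg
    refine ⟨a / b, ?_⟩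
    field_simp
    linear_combination -e
  obtain ⟨e, p, he, h3, h4⟩ := surj_one hi h2 hg hsq (a / d) (b / d) (by
    field_simp; linear_combination hd)
  have he0 : d * e ≠ 0 := mul_ne_zero hd0 (by rcases he with rfl | rfl <;> simp)
  refine ⟨Units.mk0 (d * e) he0, p, ?_, ?_⟩
  · rw [Units.val_mk0, mul_assoc, ← h3]; field_simp
  · rw [Units.val_mk0, mul_assoc, ← h4]; field_simp

theorem Phi_surj (hi : i ^ 2 = -1) (h2 : (2 : F) ≠ 0) (hg : ¬ IsSquare g)
    (hsq : ∀ a b : F, ¬ IsSquare a → ¬ IsSquare b → IsSquare (a * b))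
    (w : F × F) (hw : w ≠ (0, 0)) : ∃ z, Phi g z = w := by
  have hgz : g ≠ 0 := by rintro rfl; exact hg ⟨0, by ring⟩
  obtain ⟨a, b⟩ := w
  have h1 : a ≠ 0 ∨ b ≠ 0 := by
    by_contra h
    push Not at h
    exact hw (by rw [h.1, h.2])
  by_cases hs : IsSquare (a ^ 2 - g * b ^ 2)
  · obtain ⟨c, p, e1, e2⟩ := surj_sq hi h2 hg hsq a b h1 hs
    exact ⟨(c, false, p), by rw [Phi_false, ← e1, ← e2]⟩
  · have hs' : IsSquare (b ^ 2 - g * (a / g) ^ 2) := by
      obtain ⟨e, he⟩ := hsq _ _ hg hs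
      refine ⟨i * e / g, ?_⟩
      field_simp
      linear_combination -he + (-e ^ 2) * hi
    obtain ⟨c, p, e1, e2⟩ := surj_sq hi h2 hg hsq b (a / g) (by
      rcases h1 with h | h
      · exact Or.inr (div_ne_zero h hgz)
      · exact Or.inl h) hs'
    refine ⟨(c, true, p), ?_⟩
    rw [Phi_true, ← e1]
    have : (c : F) * (g * p.y) = g * (c * p.y) := by ring
    rw [this, ← e2]
    field_simp

theorem Phi_ne (hgz : ¬ IsSquare g) (hi : i ^ 2 = -1) (w : Fˣ × Bool × TK F g) : Phi g w ≠ (0, 0) := by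
  obtain ⟨c, e, p⟩ := w
  cases e
  · rw [Phi_false]; intro h
    rw [Prod.mk.injEq] at h
    exact mul_ne_zero c.ne_zero (x_ne hi hgz p) h.1
  · rw [Phi_true]; intro h
    rw [Prod.mk.injEq] at h
    exact mul_ne_zero c.ne_zero (x_ne hi hgz p) h.2

end TK

end Pool.Agent.H28BS
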