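import Pool.Agent.H28BS.TGolay3

/-! Weighing matrices of all orders `4 m`, `m` large, from base sequences and `T`-sequences. -/

set_option linter.unusedSectionVars false

namespace Pool.Agent.H28BS

open Finset Matrix Pool.Agent.TH394

def IsWeighing (n k : ℕ) : Prop :=
  ∃ A : Matrix (Fin n) (Fin n) ℤ, (∀ i j, A i j = 0 ∨ A i j = 1 ∨ A i j = -1) ∧
    Aᵀ * A = (k : ℤ) • 1 ∧ A * Aᵀ = (k : ℤ) • 1

def Tern (z : ℤ) : Prop := z = 0 ∨ z = 1 ∨ z = -1

theorem Tern.neg {z : ℤ} (h : Tern z) : Tern (-z) := by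
  rcases h with h | h | h <;> subst h <;> simp [Tern]

theorem Sgn.tern {z : ℤ} (h : Sgn z) : Tern z := Or.inr h

theorem transpose_mul_of {n k : ℕ} (hk : 0 < k) {H : Matrix (Fin n) (Fin n) ℤ}
    (hHH : H * Hᵀ = (k : ℤ) • 1) : Hᵀ * H = (k : ℤ) • 1 := by
  have hQ : (H.map (Int.cast : ℤ → ℚ)) * ((k : ℚ)⁻¹ • (H.map (Int.cast : ℤ → ℚ))ᵀ) = 1 := by
    have h3 := congrArg (fun A : Matrix (Fin n) (Fin n) ℤ => A.map (Int.cast : ℤ → ℚ)) hHH
    beta_reduce at h3
    rw [show (H * Hᵀ).map (Int.cast : ℤ → ℚ) = (H.map (Int.cast : ℤ → ℚ)) * (H.map (Int.cast : ℤ → ℚ))ᵀ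
      from by
        rw [← Matrix.transpose_map]
        exact (Matrix.map_mul (f := Int.castRingHom ℚ))] at h3
    rw [Matrix.mul_smul, h3]
    ext i j
    rw [Matrix.smul_apply, Matrix.map_apply, Matrix.smul_apply, Matrix.one_apply, Matrix.one_apply]
    have : (k : ℚ) ≠ 0 := by exact_mod_cast hk.ne'
    by_cases hij : i = j
    · simp [hij, this]
    · simp [hij]
  have hQ2 := mul_eq_one_comm.mp hQ
  rw [Matrix.smul_mul] at hQ2
  ext i j
  have h4 := congrFun (congrFun hQ2 i) j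
  rw [Matrix.smul_apply, Matrix.mul_apply] at h4
  rw [Matrix.mul_apply, Matrix.smul_apply]
  have hN' : (k : ℚ) ≠ 0 := by exact_mod_cast hk.ne'
  have h5 : (∑ x, (H.map (Int.cast : ℤ → ℚ))ᵀ i x * (H.map (Int.cast : ℤ → ℚ)) x j)
      = (k : ℚ) * (1 : Matrix (Fin n) (Fin n) ℚ) i j := by
    rw [← h4, smul_eq_mul, ← mul_assoc, mul_inv_cancel₀ hN', one_mul]
  have h6 : ((∑ x, Hᵀ i x * H x j : ℤ) : ℚ) = (((k : ℤ) * (1 : Matrix (Fin n) (Fin n) ℤ) i j : ℤ) : ℚ) := by
    push_cast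
    simp only [Matrix.transpose_apply, Matrix.map_apply] at h5 ⊢
    rw [h5, Matrix.one_apply, Matrix.one_apply]
    by_cases hij : i = j <;> simp [hij]
  have h7 := Int.cast_injective h6
  simpa using h7

section

variable {G : Type} [AddCommGroup G] [Fintype G] [DecidableEq G]

theorem gs_tern (a b c d : G → ℤ) (ha : ∀ x, Tern (a x)) (hb : ∀ x, Tern (b x))
    (hc : ∀ x, Tern (c x)) (hd : ∀ x, Tern (d x)) (i j : Fin 4) (x y : G) :
    Tern (gs a b c d i x j y) := by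
  fin_cases i <;> fin_cases j <;>
    simp only [gs] <;>
    first
      | exact ha _ | exact hb _ | exact hc _ | exact hd _
      | exact (hb _).neg | exact (hc _).neg | exact (hd _).neg

/-- the total periodic autocorrelation is `k` at zero and vanishes elsewhere -/
def Quad (k : ℕ) (a b c d : G → ℤ) : Prop := ∀ s, P a b c d s = if s = 0 then (k : ℤ) else 0

theorem weigh_of_quad {k : ℕ} (hk : 0 < k) (a b c d : G → ℤ) (ha : ∀ x, Tern (a x))
    (hb : ∀ x, Tern (b x)) (hc : ∀ x, Tern (c x)) (hd : ∀ x, Tern (d x)) (h : Quad k a b c d)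
    {N : ℕ} (hN : N = 4 * Fintype.card G) : IsWeighing N k := by
  let e : Fin N ≃ Fin 4 × G := (Fintype.equivFinOfCardEq (by simp [hN])).symm
  let M : Matrix (Fin N) (Fin N) ℤ := Matrix.of fun i j => gs a b c d (e i).1 (e i).2 (e j).1 (e j).2
  have hMM : M * Mᵀ = (k : ℤ) • 1 := by
    ext i i'
    rw [Matrix.mul_apply, Matrix.smul_apply, Matrix.one_apply]
    simp only [Matrix.transpose_apply, M, Matrix.of_apply, smul_eq_mul]
    rw [Equiv.sum_comp e (fun q : Fin 4 × G => gs a b c d (e i).1 (e i).2 q.1 q.2 *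
      gs a b c d (e i').1 (e i').2 q.1 q.2), Fintype.sum_prod_type, gs_inner]
    by_cases h1 : i = i'
    · subst h1
      rw [if_pos rfl, if_pos rfl, sub_self, h 0, if_pos rfl, mul_one]
    · rw [if_neg h1, mul_zero]
      by_cases h2 : (e i).1 = (e i').1
      · have h3 : (e i).2 - (e i').2 ≠ 0 := fun h4 =>
          h1 (e.injective (Prod.ext h2 (sub_eq_zero.mp h4)))
        rw [if_pos h2, h, if_neg h3]
      · rw [if_neg h2]
  exact ⟨M, fun i j => gs_tern a b c d ha hb hc hd _ _ _ _, transpose_mul_of hk hMM, hMM⟩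

theorem X_lin (p q : ℤ) (f g : G → ℤ) (s : G) :
    X (fun x => p * f x + q * g x) (fun x => p * f x + q * g x) s =
      p ^ 2 * X f f s + q ^ 2 * X g g s + p * q * (X f g s + X g f s) := by
  unfold X
  rw [Finset.mul_sum, Finset.mul_sum, ← Finset.sum_add_distrib, ← Finset.sum_add_distrib,
    Finset.mul_sum, ← Finset.sum_add_distrib]
  exact Finset.sum_congr rfl fun x _ => by ring

theorem X_addsub (f g : G → ℤ) (s : G) :
    X (fun x => f x + g x) (fun x => f x + g x) s + X (fun x => f x - g x) (fun x => f x - g x) s =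
      2 * (X f f s + X g g s) := by
  have h1 := X_lin 1 1 f g s
  have h2 := X_lin 1 (-1) f g s
  simp only [one_mul, neg_mul, ← sub_eq_add_neg] at h1 h2
  rw [h1, h2]
  ring

/-- sums and differences of the pairs `a, c` and `b, d` -/
theorem Quad.addsub {k : ℕ} {a b c d : G → ℤ} (h : Quad k a b c d) :
    Quad (2 * k) (fun x => a x + c x) (fun x => a x - c x) (fun x => b x + d x)
      (fun x => b x - d x) := by
  intro s
  have h1 := X_addsub a c s
  have h2 := X_addsub b d s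
  have h3 := h s
  unfold P at h3 ⊢
  split_ifs at h3 ⊢ <;> push_cast <;> linarith

/-- halves: `2 f = a + b`, `2 g = a - b`, `2 f' = c + d`, `2 g' = c - d` -/
theorem Quad.halves {k : ℕ} {a b c d f g f' g' : G → ℤ} (h : Quad (2 * k) a b c d)
    (h1 : ∀ x, a x = f x + g x) (h2 : ∀ x, b x = f x - g x) (h3 : ∀ x, c x = f' x + g' x)
    (h4 : ∀ x, d x = f' x - g' x) : Quad k f g f' g' := by
  intro s
  have e1 := X_addsub f g s
  have e2 := X_addsub f' g' s
  have h5 := h s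
  have ea : a = fun x => f x + g x := funext h1
  have eb : b = fun x => f x - g x := funext h2
  have ec : c = fun x => f' x + g' x := funext h3
  have ed : d = fun x => f' x - g' x := funext h4
  unfold P at h5 ⊢
  rw [ea, eb, ec, ed] at h5
  split_ifs at h5 ⊢ <;> push_cast at h5 <;> linarith

/-- weight `3 k` from four functions of weight `k` -/
theorem Quad.three {k : ℕ} {a b c d : G → ℤ} (h : Quad k a b c d) :
    Quad (3 * k) (fun x => a x + b x + c x) (fun x => -a x + b x - d x)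
      (fun x => -a x + c x + d x) (fun x => b x - c x + d x) := by
  intro s
  have h3 := h s
  have key : P (fun x => a x + b x + c x) (fun x => -a x + b x - d x)
      (fun x => -a x + c x + d x) (fun x => b x - c x + d x) s = 3 * P a b c d s := by
    unfold P X
    simp only [Finset.mul_sum, ← Finset.sum_add_distrib]
    exact Finset.sum_congr rfl fun x _ => by ring
  rw [key, h3]
  split_ifs <;> push_cast <;> ring

end

section

variable (t : ℕ) [NeZero t]

theorem quad_of_norm (q1 q2 q3 q4 : ℕ → ℤ) (N : ℕ)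
    (h : ∀ (R : Type) [CommRing R] (u v : R), u * v = 1 →
      ev q1 t u * ev q1 t v + ev q2 t u * ev q2 t v + ev q3 t u * ev q3 t v + ev q4 t u * ev q4 t v =
        N) :
    Quad N (fun x : ZMod t => q1 x.val) (fun x : ZMod t => q2 x.val) (fun x : ZMod t => q3 x.val)
      (fun x : ZMod t => q4 x.val) := by
  intro s
  have hUV : (AddMonoidAlgebra.single (1 : ZMod t) (1 : ℤ) : AddMonoidAlgebra ℤ (ZMod t)) *
      AddMonoidAlgebra.single (-1 : ZMod t) (1 : ℤ) = 1 := by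
    rw [AddMonoidAlgebra.single_mul_single]
    simp only [AddMonoidAlgebra.one_def, add_neg_cancel, mul_one]
  have h1 := h _ _ _ hUV
  rw [← fh_seq, ← fh'_seq, ← fh_seq, ← fh'_seq, ← fh_seq, ← fh'_seq, ← fh_seq, ← fh'_seq] at h1
  have hc := congrArg (fun x : AddMonoidAlgebra ℤ (ZMod t) => x.coeff s) h1
  beta_reduce at hc
  rw [← mul_one ((N : ℕ) : AddMonoidAlgebra ℤ (ZMod t)), coeff_natCast_mul] at hc
  simp only [AddMonoidAlgebra.coeff_add, Finsupp.add_apply, coeff_fh] at hc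
  unfold P
  rw [hc, AddMonoidAlgebra.one_def, AddMonoidAlgebra.coeff_single, Finsupp.single_apply]
  by_cases h2 : s = 0
  · rw [if_pos h2, if_pos h2.symm, mul_one]
  · rw [if_neg h2, if_neg (fun h => h2 h.symm), mul_zero]

end

/-- truncation -/
def tr (L : ℕ) (q : ℕ → ℤ) : ℕ → ℤ := fun i => if i < L then q i else 0

theorem ev_tr {R : Type} [CommRing R] {L t : ℕ} (hLt : L ≤ t) (q : ℕ → ℤ) (u : R) :
    ev (tr L q) t u = ev q L u := by
  obtain ⟨r, rfl⟩ := Nat.exists_eq_add_of_le hLt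
  rw [ev_split, ev_congr (b := q) (fun i hi => by unfold tr; rw [if_pos hi]),
    ev_congr (a := fun i => tr L q (L + i)) (b := fun _ => 0)
      (fun i _ => by unfold tr; rw [if_neg (by omega)]), ev_zero, mul_zero, add_zero]

/-- base sequences -/
theorem weigh_base {n : ℕ} {A B C D : ℕ → ℤ} (h : IsBase n A B C D) {m : ℕ} (hm : n + 1 ≤ m) :
    IsWeighing (4 * m) (2 * (2 * n + 1)) ∧ IsWeighing (4 * m) (2 * n + 1) := by
  have : NeZero m := ⟨by omega⟩
  have hq := quad_of_norm m (tr (n + 1) A) (tr (n + 1) B) (tr n C) (tr n D) (2 * (2 * n + 1))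
    (fun R _ u v huv => by
      rw [ev_tr hm, ev_tr hm, ev_tr hm, ev_tr hm, ev_tr (by omega : n ≤ m),
        ev_tr (by omega : n ≤ m), ev_tr (by omega : n ≤ m), ev_tr (by omega : n ≤ m),
        base_norm_ring h u v huv]
      push_cast
      ring)
  obtain ⟨hA, -, hB, -, hC, -, hD, -, -⟩ := h
  have tt : ∀ (L : ℕ) (q : ℕ → ℤ), (∀ i, i < L → (q i = 1 ∨ q i = -1)) → ∀ i, Tern (tr L q i) := by
    intro L q hq i
    unfold tr
    split_ifs with hi
    · exact Or.inr (hq i hi)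
    · exact Or.inl rfl
  have halves : ∀ (L : ℕ) (p q : ℕ → ℤ), (∀ i, i < L → (p i = 1 ∨ p i = -1)) →
      (∀ i, i < L → (q i = 1 ∨ q i = -1)) → ∃ f g : ℕ → ℤ, (∀ i, Tern (f i)) ∧ (∀ i, Tern (g i)) ∧
        (∀ i, tr L p i = f i + g i) ∧ ∀ i, tr L q i = f i - g i := by
    intro L p q hp hq
    refine ⟨fun i => (tr L p i + tr L q i) / 2, fun i => (tr L p i - tr L q i) / 2, fun i => ?_,
      fun i => ?_, fun i => ?_, fun i => ?_⟩ <;>
    · unfold tr
      try unfold Tern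
      dsimp only
      split_ifs with hi
      · rcases hp i hi with h1 | h1 <;> rcases hq i hi with h2 | h2 <;> rw [h1, h2] <;> norm_num
      · norm_num
  have hcard : 4 * m = 4 * Fintype.card (ZMod m) := by rw [ZMod.card]
  refine ⟨weigh_of_quad (by omega) _ _ _ _ (fun x => tt _ _ hA _) (fun x => tt _ _ hB _)
    (fun x => tt _ _ hC _) (fun x => tt _ _ hD _) hq hcard, ?_⟩
  obtain ⟨f, g, tf, tg, e1, e2⟩ := halves (n + 1) A B hA hB
  obtain ⟨f', g', tf', tg', e3, e4⟩ := halves n C D hC hD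
  exact weigh_of_quad (by omega) (fun x : ZMod m => f x.val) (fun x => g x.val) (fun x => f' x.val)
    (fun x => g' x.val) (fun x => tf _) (fun x => tg _) (fun x => tf' _) (fun x => tg' _)
    (hq.halves (fun x => e1 _) (fun x => e2 _) (fun x => e3 _) (fun x => e4 _)) hcard

/-- base sequences and a Golay pair -/
theorem weigh_yang {m r : ℕ} (hm : 1 ≤ m) {A B C D : ℕ → ℤ} (hb : IsBase m A B C D) {F G : ℕ → ℤ}
    (hFG : GP r F G) {M : ℕ} (hM : (2 * m + 1) * (2 * r + 1) ≤ M) {j : ℕ} (hj : 1 ≤ j) (hj4 : j ≤ 4) :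
    IsWeighing (4 * M) (j * ((2 * m + 1) * (2 * r + 1))) := by
  obtain ⟨L, hL⟩ : ∃ L, L = (2 * m + 1) * (2 * r + 1) := ⟨_, rfl⟩
  have hL0 : 0 < L := by rw [hL]; positivity
  rw [← hL] at hM ⊢
  have : NeZero M := ⟨by omega⟩
  obtain ⟨q, hq⟩ : ∃ q, q = tr L (yQ m r A B C F G) := ⟨_, rfl⟩
  obtain ⟨r', hr'⟩ : ∃ r', r' = tr L (yR m r A B D F G) := ⟨_, rfl⟩
  obtain ⟨s, hs⟩ : ∃ s, s = tr L (yS m r A C D F G) := ⟨_, rfl⟩
  obtain ⟨t, ht⟩ : ∃ t, t = tr L (yT m r B C D F G) := ⟨_, rfl⟩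
  have hQ := quad_of_norm M q r' s t (2 * L) (fun R _ u v huv => by
    rw [hq, hr', hs, ht, ev_tr hM, ev_tr hM, ev_tr hM, ev_tr hM, ev_tr hM, ev_tr hM, ev_tr hM,
      ev_tr hM, hL, yang_norm hm hb hFG u v huv]
    push_cast
    ring)
  have hv : ∀ i, (Sgn (q i) ∧ Sgn (r' i) ∧ s i = 0 ∧ t i = 0) ∨
      (q i = 0 ∧ r' i = 0 ∧ Sgn (s i) ∧ Sgn (t i)) ∨ (q i = 0 ∧ r' i = 0 ∧ s i = 0 ∧ t i = 0) := by
    intro i
    rw [hq, hr', hs, ht]
    unfold tr
    by_cases hi : i < L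
    · simp only [if_pos hi]
      rcases yang_T hb hFG i (by rw [← hL]; exact hi) with h | h
      · exact Or.inl h
      · exact Or.inr (Or.inl h)
    · exact Or.inr (Or.inr ⟨if_neg hi, if_neg hi, if_neg hi, if_neg hi⟩)
  -- the four functions with disjoint supports
  obtain ⟨a, ha⟩ : ∃ a : ℕ → ℤ, a = fun i => (q i + r' i) / 2 := ⟨_, rfl⟩
  obtain ⟨b, hb'⟩ : ∃ b : ℕ → ℤ, b = fun i => (q i - r' i) / 2 := ⟨_, rfl⟩
  obtain ⟨c, hc⟩ : ∃ c : ℕ → ℤ, c = fun i => (s i + t i) / 2 := ⟨_, rfl⟩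
  obtain ⟨d, hd⟩ : ∃ d : ℕ → ℤ, d = fun i => (s i - t i) / 2 := ⟨_, rfl⟩
  have hab : ∀ i, q i = a i + b i ∧ r' i = a i - b i ∧ s i = c i + d i ∧ t i = c i - d i := by
    intro i
    rw [ha, hb', hc, hd]
    dsimp only
    rcases hv i with ⟨h1 | h1, h2 | h2, h3, h4⟩ | ⟨h1, h2, h3 | h3, h4 | h4⟩ | ⟨h1, h2, h3, h4⟩ <;>
      rw [h1, h2, h3, h4] <;> norm_num
  have hT : ∀ i, (Tern (a i) ∧ b i = 0 ∧ c i = 0 ∧ d i = 0) ∨ (a i = 0 ∧ Tern (b i) ∧ c i = 0 ∧ d i = 0) ∨
      (a i = 0 ∧ b i = 0 ∧ Tern (c i) ∧ d i = 0) ∨ (a i = 0 ∧ b i = 0 ∧ c i = 0 ∧ Tern (d i)) := by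
    intro i
    rw [ha, hb', hc, hd]
    unfold Tern
    dsimp only
    rcases hv i with ⟨h1 | h1, h2 | h2, h3, h4⟩ | ⟨h1, h2, h3 | h3, h4 | h4⟩ | ⟨h1, h2, h3, h4⟩ <;>
      rw [h1, h2, h3, h4] <;> norm_num
  have hQ1 : Quad L (fun x : ZMod M => a x.val) (fun x => b x.val) (fun x => c x.val)
      (fun x => d x.val) :=
    hQ.halves (fun x => (hab _).1) (fun x => (hab _).2.1) (fun x => (hab _).2.2.1)
      (fun x => (hab _).2.2.2)
  have hcard : 4 * M = 4 * Fintype.card (ZMod M) := by rw [ZMod.card]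
  have hz : ∀ i, Tern (a i) ∧ Tern (b i) ∧ Tern (c i) ∧ Tern (d i) := by
    intro i
    have z : Tern 0 := Or.inl rfl
    rcases hT i with ⟨h1, h2, h3, h4⟩ | ⟨h1, h2, h3, h4⟩ | ⟨h1, h2, h3, h4⟩ | ⟨h1, h2, h3, h4⟩
    · exact ⟨h1, by rw [h2]; exact z, by rw [h3]; exact z, by rw [h4]; exact z⟩
    · exact ⟨by rw [h1]; exact z, h2, by rw [h3]; exact z, by rw [h4]; exact z⟩
    · exact ⟨by rw [h1]; exact z, by rw [h2]; exact z, h3, by rw [h4]; exact z⟩
    · exact ⟨by rw [h1]; exact z, by rw [h2]; exact z, by rw [h3]; exact z, h4⟩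
  have hcases : ∀ (p1 p2 p3 p4 : ℤ), Tern p1 → Tern p2 → Tern p3 → Tern p4 → ∀ i,
      Tern (p1 * a i + p2 * b i + p3 * c i + p4 * d i) := by
    intro p1 p2 p3 p4 k1 k2 k3 k4 i
    have mm : ∀ {x y : ℤ}, Tern x → Tern y → Tern (x * y) := by
      intro x y hx hy
      rcases hx with h | h | h <;> rcases hy with h' | h' | h' <;> subst h <;> subst h' <;>
        simp [Tern]
    rcases hT i with ⟨h1, h2, h3, h4⟩ | ⟨h1, h2, h3, h4⟩ | ⟨h1, h2, h3, h4⟩ | ⟨h1, h2, h3, h4⟩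
    · rw [h2, h3, h4]; simpa using mm k1 h1
    · rw [h1, h3, h4]; simpa using mm k2 h2
    · rw [h1, h2, h4]; simpa using mm k3 h3
    · rw [h1, h2, h3]; simpa using mm k4 h4
  have z0 : Tern 0 := Or.inl rfl
  have z1 : Tern 1 := Or.inr (Or.inl rfl)
  have z2 : Tern (-1) := Or.inr (Or.inr rfl)
  have hj' : j = 1 ∨ j = 2 ∨ j = 3 ∨ j = 4 := by omega
  rcases hj' with rfl | rfl | rfl | rfl
  · rw [one_mul]
    exact weigh_of_quad hL0 _ _ _ _ (fun x => (hz _).1) (fun x => (hz _).2.1)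
      (fun x => (hz _).2.2.1) (fun x => (hz _).2.2.2) hQ1 hcard
  · refine weigh_of_quad (by omega) _ _ _ _ (fun x => ?_) (fun x => ?_) (fun x => ?_) (fun x => ?_)
      hQ1.addsub hcard
    · have := hcases 1 0 1 0 z1 z0 z1 z0 x.val
      convert this using 1; ring
    · have := hcases 1 0 (-1) 0 z1 z0 z2 z0 x.val
      convert this using 1; ring
    · have := hcases 0 1 0 1 z0 z1 z0 z1 x.val
      convert this using 1; ring
    · have := hcases 0 1 0 (-1) z0 z1 z0 z2 x.val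
      convert this using 1; ring
  · refine weigh_of_quad (by omega) _ _ _ _ (fun x => ?_) (fun x => ?_) (fun x => ?_) (fun x => ?_)
      hQ1.three hcard
    · have := hcases 1 1 1 0 z1 z1 z1 z0 x.val
      convert this using 1; ring
    · have := hcases (-1) 1 0 (-1) z2 z1 z0 z2 x.val
      convert this using 1; ring
    · have := hcases (-1) 0 1 1 z2 z0 z1 z1 x.val
      convert this using 1; ring
    · have := hcases 0 1 (-1) 1 z0 z1 z2 z1 x.val
      convert this using 1; ring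
  · have e : 4 * L = 2 * (2 * L) := by ring
    rw [e]
    refine weigh_of_quad (by omega) _ _ _ _ (fun x => ?_) (fun x => ?_) (fun x => ?_) (fun x => ?_)
      hQ1.addsub.addsub hcard
    · have := hcases 1 1 1 1 z1 z1 z1 z1 x.val
      convert this using 1; ring
    · have := hcases 1 (-1) 1 (-1) z1 z2 z1 z2 x.val
      convert this using 1; ring
    · have := hcases 1 1 (-1) (-1) z1 z1 z2 z2 x.val
      convert this using 1; ring
    · have := hcases 1 (-1) (-1) 1 z1 z2 z2 z1 x.val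
      convert this using 1; ring

end Pool.Agent.H28BS
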