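import Pool.Agent.H28BS.Exist

/-! Base sequences and a Golay pair give four sequences of length `(2r+1)(2m+1)` with complementary
supports in pairs (Yang). -/

namespace Pool.Agent.H28BS

open Finset

/-- The norm identity for base sequences in every commutative ring. -/
theorem base_norm_ring {n : ℕ} {A B C D : ℕ → ℤ} (h : IsBase n A B C D) {R : Type} [CommRing R]
    (u v : R) (huv : u * v = 1) :
    ev A (n + 1) u * ev A (n + 1) v + ev B (n + 1) u * ev B (n + 1) v + ev C n u * ev C n v +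
      ev D n u * ev D n v = 4 * n + 2 := by
  obtain ⟨hA, hA0, hB, hB0, hC, hC0, hD, hD0, hN⟩ := h
  have h1 : ∀ (m : ℕ) (a : ℕ → ℤ), (∀ i, i < m → (a i = 1 ∨ a i = -1)) →
      ∑ i ∈ range m, a i * a i = (m : ℤ) := by
    intro m a ha
    have : ∀ i ∈ range m, a i * a i = 1 := by
      intro i hi
      rcases ha i (Finset.mem_range.mp hi) with h | h <;> rw [h] <;> norm_num
    rw [Finset.sum_congr rfl this]; simp
  have e1 := ev_mul_ev A (n + 1) u v huv hA0
  have e2 := ev_mul_ev B (n + 1) u v huv hB0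
  have e3 := ev_mul_ev C n u v huv hC0
  have e4 := ev_mul_ev D n u v huv hD0
  rw [h1 (n + 1) A hA] at e1
  rw [h1 (n + 1) B hB] at e2
  rw [h1 n C hC] at e3
  rw [h1 n D hD] at e4
  have hext : ∀ (a : ℕ → ℤ), (∀ i, n ≤ i → a i = 0) →
      ∑ j ∈ range n, ((∑ i ∈ range n, a i * a (i + (j + 1)) : ℤ) : R) * (u ^ (j + 1) + v ^ (j + 1)) =
      ∑ j ∈ range (n + 1), ((∑ i ∈ range n, a i * a (i + (j + 1)) : ℤ) : R) *
        (u ^ (j + 1) + v ^ (j + 1)) := by
    intro a ha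
    rw [Finset.sum_range_succ]
    have : ∑ i ∈ range n, a i * a (i + (n + 1)) = 0 :=
      Finset.sum_eq_zero (fun i _ => by rw [ha (i + (n + 1)) (by omega), mul_zero])
    rw [this]; simp
  have hz : ∑ j ∈ range (n + 1), ((∑ i ∈ range (n + 1), A i * A (i + (j + 1)) : ℤ) : R) *
        (u ^ (j + 1) + v ^ (j + 1)) +
      ∑ j ∈ range (n + 1), ((∑ i ∈ range (n + 1), B i * B (i + (j + 1)) : ℤ) : R) *
        (u ^ (j + 1) + v ^ (j + 1)) +
      ∑ j ∈ range n, ((∑ i ∈ range n, C i * C (i + (j + 1)) : ℤ) : R) * (u ^ (j + 1) + v ^ (j + 1)) +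
      ∑ j ∈ range n, ((∑ i ∈ range n, D i * D (i + (j + 1)) : ℤ) : R) *
        (u ^ (j + 1) + v ^ (j + 1)) = 0 := by
    rw [hext C hC0, hext D hD0, ← Finset.sum_add_distrib, ← Finset.sum_add_distrib,
      ← Finset.sum_add_distrib]
    refine Finset.sum_eq_zero (fun j _ => ?_)
    have h3 := hN (j + 1) (by omega)
    rw [Finset.sum_add_distrib, Finset.sum_add_distrib] at h3
    have h4 : ((∑ i ∈ range (n + 1), A i * A (i + (j + 1)) : ℤ) : R) +
        ((∑ i ∈ range (n + 1), B i * B (i + (j + 1)) : ℤ) : R) +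
        (((∑ i ∈ range n, C i * C (i + (j + 1)) : ℤ) : R) +
        ((∑ i ∈ range n, D i * D (i + (j + 1)) : ℤ) : R)) = 0 := by
      rw [← Int.cast_add, ← Int.cast_add, ← Int.cast_add, h3, Int.cast_zero]
    linear_combination (u ^ (j + 1) + v ^ (j + 1)) * h4
  rw [e1, e2, e3, e4]
  push_cast at hz ⊢
  linear_combination hz

/-- a sequence of `2r+1` cells of length `2m+1`, each cell an `a`-slot and a `c`-slot -/
def Yc (m r : ℕ) (a1 c1 f1 g1 a2 c2 f2 g2 a3 c3 : ℕ → ℤ) (k : ℕ) : ℤ :=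
  if k / (2 * m + 1) = 2 * r then
    (if k % (2 * m + 1) < m + 1 then a3 (k % (2 * m + 1)) else c3 (k % (2 * m + 1) - (m + 1)))
  else if k / (2 * m + 1) % 2 = 0 then
    (if k % (2 * m + 1) < m + 1 then f1 (k / (2 * m + 1) / 2) * a1 (m - k % (2 * m + 1))
      else g1 (k / (2 * m + 1) / 2) * c1 (2 * m - k % (2 * m + 1)))
  else
    (if k % (2 * m + 1) < m + 1 then f2 (k / (2 * m + 1) / 2) * a2 (m - k % (2 * m + 1))
      else g2 (k / (2 * m + 1) / 2) * c2 (2 * m - k % (2 * m + 1)))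

theorem sum_even_odd {M : Type} [AddCommMonoid M] (h : ℕ → M) (r : ℕ) :
    ∑ i ∈ range (2 * r), h i = ∑ j ∈ range r, (h (2 * j) + h (2 * j + 1)) := by
  induction r with
  | zero => simp
  | succ r ih =>
    have : 2 * (r + 1) = 2 * r + 1 + 1 := by ring
    rw [this, Finset.sum_range_succ, Finset.sum_range_succ, ih, Finset.sum_range_succ]
    abel

theorem ev_cell3 {R : Type} [CommRing R] (f : ℕ → ℤ) (m : ℕ) (u : R) :
    ev f (2 * m + 1) u = ev f (m + 1) u + u ^ (m + 1) * ev (fun r => f (m + 1 + r)) m u := by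
  have h : 2 * m + 1 = (m + 1) + m := by ring
  rw [h, ev_split]

theorem ev_Yc {R : Type} [CommRing R] (m r : ℕ) (a1 c1 f1 g1 a2 c2 f2 g2 a3 c3 : ℕ → ℤ) (u v : R)
    (huv : u * v = 1) :
    ev (Yc m r a1 c1 f1 g1 a2 c2 f2 g2 a3 c3) ((2 * m + 1) * (2 * r + 1)) u =
      u ^ m * ev a1 (m + 1) v * ev f1 r ((u ^ (2 * m + 1)) ^ 2) +
      u ^ (m + 1) * (u ^ (m - 1) * ev c1 m v) * ev g1 r ((u ^ (2 * m + 1)) ^ 2) +
      u ^ (2 * m + 1) * (u ^ m * ev a2 (m + 1) v * ev f2 r ((u ^ (2 * m + 1)) ^ 2) +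
      u ^ (m + 1) * (u ^ (m - 1) * ev c2 m v) * ev g2 r ((u ^ (2 * m + 1)) ^ 2)) +
      ((u ^ (2 * m + 1)) ^ 2) ^ r * (ev a3 (m + 1) u + u ^ (m + 1) * ev c3 m u) := by
  rw [ev_cells, Finset.sum_range_succ, sum_even_odd]
  have e1 : ∀ j ∈ range r,
      ((u ^ (2 * m + 1)) ^ (2 * j) *
        ev (fun ρ => Yc m r a1 c1 f1 g1 a2 c2 f2 g2 a3 c3 ((2 * m + 1) * (2 * j) + ρ)) (2 * m + 1) u +
      (u ^ (2 * m + 1)) ^ (2 * j + 1) *
        ev (fun ρ => Yc m r a1 c1 f1 g1 a2 c2 f2 g2 a3 c3 ((2 * m + 1) * (2 * j + 1) + ρ))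
          (2 * m + 1) u) =
      (u ^ m * ev a1 (m + 1) v) * ((f1 j : R) * ((u ^ (2 * m + 1)) ^ 2) ^ j) +
      (u ^ (m + 1) * (u ^ (m - 1) * ev c1 m v)) * ((g1 j : R) * ((u ^ (2 * m + 1)) ^ 2) ^ j) +
      ((u ^ (2 * m + 1) * (u ^ m * ev a2 (m + 1) v)) * ((f2 j : R) * ((u ^ (2 * m + 1)) ^ 2) ^ j) +
      (u ^ (2 * m + 1) * (u ^ (m + 1) * (u ^ (m - 1) * ev c2 m v))) *
        ((g2 j : R) * ((u ^ (2 * m + 1)) ^ 2) ^ j)) := by
    intro j hj
    rw [Finset.mem_range] at hj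
    rw [ev_cell3, ev_cell3]
    have h1 : ev (fun ρ => Yc m r a1 c1 f1 g1 a2 c2 f2 g2 a3 c3 ((2 * m + 1) * (2 * j) + ρ)) (m + 1) u =
        f1 j * (u ^ m * ev a1 (m + 1) v) := by
      have := ev_rev a1 (m + 1) u v huv
      rw [Nat.add_sub_cancel] at this
      rw [← this, ← ev_smul]
      refine ev_congr (fun ρ hρ => ?_) u
      simp only [Yc]
      rw [cell_mod m (2 * j) ρ (by omega), cell_div m (2 * j) ρ (by omega), if_neg (by omega),
        if_pos (by omega), if_pos hρ]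
      have : 2 * j / 2 = j := by omega
      rw [this]
    have h2 : ev (fun ρ => Yc m r a1 c1 f1 g1 a2 c2 f2 g2 a3 c3
        ((2 * m + 1) * (2 * j) + (m + 1 + ρ))) m u = g1 j * (u ^ (m - 1) * ev c1 m v) := by
      rw [← ev_rev c1 m u v huv, ← ev_smul]
      refine ev_congr (fun ρ hρ => ?_) u
      simp only [Yc]
      rw [cell_mod m (2 * j) (m + 1 + ρ) (by omega), cell_div m (2 * j) (m + 1 + ρ) (by omega),
        if_neg (by omega), if_pos (by omega), if_neg (by omega)]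
      have h3 : 2 * j / 2 = j := by omega
      have h4 : 2 * m - (m + 1 + ρ) = m - 1 - ρ := by omega
      rw [h3, h4]
    have h3 : ev (fun ρ => Yc m r a1 c1 f1 g1 a2 c2 f2 g2 a3 c3 ((2 * m + 1) * (2 * j + 1) + ρ))
        (m + 1) u = f2 j * (u ^ m * ev a2 (m + 1) v) := by
      have := ev_rev a2 (m + 1) u v huv
      rw [Nat.add_sub_cancel] at this
      rw [← this, ← ev_smul]
      refine ev_congr (fun ρ hρ => ?_) u
      simp only [Yc]
      rw [cell_mod m (2 * j + 1) ρ (by omega), cell_div m (2 * j + 1) ρ (by omega), if_neg (by omega),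
        if_neg (by omega), if_pos hρ]
      have : (2 * j + 1) / 2 = j := by omega
      rw [this]
    have h4 : ev (fun ρ => Yc m r a1 c1 f1 g1 a2 c2 f2 g2 a3 c3
        ((2 * m + 1) * (2 * j + 1) + (m + 1 + ρ))) m u = g2 j * (u ^ (m - 1) * ev c2 m v) := by
      rw [← ev_rev c2 m u v huv, ← ev_smul]
      refine ev_congr (fun ρ hρ => ?_) u
      simp only [Yc]
      rw [cell_mod m (2 * j + 1) (m + 1 + ρ) (by omega), cell_div m (2 * j + 1) (m + 1 + ρ) (by omega),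
        if_neg (by omega), if_neg (by omega), if_neg (by omega)]
      have h3 : (2 * j + 1) / 2 = j := by omega
      have h4 : 2 * m - (m + 1 + ρ) = m - 1 - ρ := by omega
      rw [h3, h4]
    rw [h1, h2, h3, h4, pow_succ (u ^ (2 * m + 1)) (2 * j), pow_mul (u ^ (2 * m + 1)) 2 j]
    ring
  have e2 : ev (fun ρ => Yc m r a1 c1 f1 g1 a2 c2 f2 g2 a3 c3 ((2 * m + 1) * (2 * r) + ρ))
      (2 * m + 1) u = ev a3 (m + 1) u + u ^ (m + 1) * ev c3 m u := by
    rw [ev_cell3]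
    congr 1
    · refine ev_congr (fun ρ hρ => ?_) u
      simp only [Yc]
      rw [cell_mod m (2 * r) ρ (by omega), cell_div m (2 * r) ρ (by omega), if_pos rfl, if_pos hρ]
    · congr 1
      refine ev_congr (fun ρ hρ => ?_) u
      simp only [Yc]
      rw [cell_mod m (2 * r) (m + 1 + ρ) (by omega), cell_div m (2 * r) (m + 1 + ρ) (by omega),
        if_pos rfl, if_neg (by omega), Nat.add_sub_cancel_left]
  rw [Finset.sum_congr rfl e1, e2, Finset.sum_add_distrib, Finset.sum_add_distrib,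
    Finset.sum_add_distrib, ← Finset.mul_sum, ← Finset.mul_sum, ← Finset.mul_sum, ← Finset.mul_sum,
    pow_mul (u ^ (2 * m + 1)) 2 r]
  unfold ev
  ring

end Pool.Agent.H28BS
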