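import Pool.Agent.H28BS.Yang

/-! The four complementary sequences of length `(2m+1)(2r+1)`. -/

namespace Pool.Agent.H28BS

open Finset

/-- the octonion product of `(A,B,C,D)` and `(1,F,G)` in the form used by Yang -/
theorem yang_identity {R : Type} [CommRing R] (A A' B B' C C' D D' F F' G G' α α' ν ν' μ μ' γ γ' δ δ'
    κ κ' N r : R) (hα : α * α' = 1) (hν : ν * ν' = 1) (hμ : μ * μ' = 1) (hγ : γ * γ' = 1)
    (hδ : δ * δ' = 1) (hκ : κ = ν * α * μ') (hκ' : κ' = ν' * α' * μ)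
    (e4 : A * A' + B * B' + C * C' + D * D' = N) (e5 : F * F' + G * G' = 2 * r) :
    (α * B' * F + κ * C' * G + δ * A) * (α' * B * F' + κ' * C * G' + δ' * A') +
    (-(α * A' * F) + κ * D' * (γ * G') + δ * B) *
      (-(α' * A * F') + κ' * D * (γ' * G) + δ' * B') +
    (ν * (-(α * A' * G) - κ * D' * (γ * F')) + δ * (μ * C)) *
      (ν' * (-(α' * A * G') - κ' * D * (γ' * F)) + δ' * (μ' * C')) +
    (ν * (-(α * B' * (γ * G')) + κ * C' * (γ * F')) + δ * (μ * D)) *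
      (ν' * (-(α' * B * (γ' * G)) + κ' * C * (γ' * F)) + δ' * (μ' * D')) =
      N * (2 * r + 1) := by
  subst hκ hκ'
  linear_combination (B * B' * F * F' + A * A' * F * F') * hα +
    (C * C' * G * G' + D * D' * G * G' + D * D' * F * F' + C * C' * F * F') *
      (α * α' * μ * μ' * hν + μ * μ' * hα + hμ) +
    (A * A' + B * B') * hδ +
    ((ν * α * μ') * (ν' * α' * μ)) * (D * D' * G * G' + D * D' * F * F' + C * C' * F * F') * hγ +
    A * A' * G * G' * (α * α' * hν + hα) +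
    (D * D' * F * F' + C * C' * F * F') * ((ν * α * μ') * (ν' * α' * μ)) * γ * γ' * hν +
    (C * C' + D * D') * (μ * μ' * hδ + hμ) +
    B * B' * G * G' * (α * α' * γ * γ' * hν + γ * γ' * hα + hγ) -
    (α * B' * F * (ν' * α' * μ) * C * G' + (ν * α * μ') * α' * C' * B * G * F') * (γ * γ' * hν + hγ) +
    (α * A' * G * (ν' * α' * μ) * D * γ' * F + (ν * α * μ') * D' * γ * F' * α' * A * G') * hν +
    (1 + F * F' + G * G') * e4 + N * e5

/-- the reversed second Golay sequence etc. -/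
def rv (r : ℕ) (f : ℕ → ℤ) (i : ℕ) : ℤ := f (r - 1 - i)

/-- first sequence -/
def yQ (m r : ℕ) (A B C : ℕ → ℤ) (F G : ℕ → ℤ) : ℕ → ℤ :=
  Yc m r B C F G (fun _ => 0) (fun _ => 0) (fun _ => 0) (fun _ => 0) A (fun _ => 0)
/-- second sequence -/
def yR (m r : ℕ) (A B D : ℕ → ℤ) (F G : ℕ → ℤ) : ℕ → ℤ :=
  Yc m r A D (fun i => -F i) (rv r G) (fun _ => 0) (fun _ => 0) (fun _ => 0) (fun _ => 0) B (fun _ => 0)
/-- third sequence -/
def yS (m r : ℕ) (A C D : ℕ → ℤ) (F G : ℕ → ℤ) : ℕ → ℤ :=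
  Yc m r (fun _ => 0) (fun _ => 0) (fun _ => 0) (fun _ => 0) A D (fun i => -G i)
    (fun i => -rv r F i) (fun _ => 0) C
/-- fourth sequence -/
def yT (m r : ℕ) (B C D : ℕ → ℤ) (F G : ℕ → ℤ) : ℕ → ℤ :=
  Yc m r (fun _ => 0) (fun _ => 0) (fun _ => 0) (fun _ => 0) B C (fun i => -rv r G i)
    (rv r F) (fun _ => 0) D

theorem ev_rv {R : Type} [CommRing R] (f : ℕ → ℤ) (r : ℕ) (w w' : R) (h : w * w' = 1) :
    ev (rv r f) r w = w ^ (r - 1) * ev f r w' := ev_rev f r w w' h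

theorem yang_norm {m r : ℕ} (hm : 1 ≤ m) {A B C D : ℕ → ℤ} (hb : IsBase m A B C D)
    {F G : ℕ → ℤ} (hFG : GP r F G) {R : Type} [CommRing R] (u v : R) (huv : u * v = 1) :
    ev (yQ m r A B C F G) ((2 * m + 1) * (2 * r + 1)) u *
        ev (yQ m r A B C F G) ((2 * m + 1) * (2 * r + 1)) v +
      ev (yR m r A B D F G) ((2 * m + 1) * (2 * r + 1)) u *
        ev (yR m r A B D F G) ((2 * m + 1) * (2 * r + 1)) v +
      ev (yS m r A C D F G) ((2 * m + 1) * (2 * r + 1)) u *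
        ev (yS m r A C D F G) ((2 * m + 1) * (2 * r + 1)) v +
      ev (yT m r B C D F G) ((2 * m + 1) * (2 * r + 1)) u *
        ev (yT m r B C D F G) ((2 * m + 1) * (2 * r + 1)) v =
      (4 * m + 2) * (2 * r + 1) := by
  have huv' : v * u = 1 := by rw [mul_comm]; exact huv
  have hw : (u ^ (2 * m + 1)) ^ 2 * (v ^ (2 * m + 1)) ^ 2 = 1 := by
    rw [← mul_pow, ← mul_pow, huv, one_pow, one_pow]
  have hw' : (v ^ (2 * m + 1)) ^ 2 * (u ^ (2 * m + 1)) ^ 2 = 1 := by rw [mul_comm]; exact hw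
  have key : ∀ x y : R, x * y = 1 → (x ^ (2 * m + 1)) ^ 2 * (y ^ (2 * m + 1)) ^ 2 = 1 →
      ev (yQ m r A B C F G) ((2 * m + 1) * (2 * r + 1)) x =
        x ^ m * ev B (m + 1) y * ev F r ((x ^ (2 * m + 1)) ^ 2) +
        x ^ (2 * m) * ev C m y * ev G r ((x ^ (2 * m + 1)) ^ 2) +
        ((x ^ (2 * m + 1)) ^ 2) ^ r * ev A (m + 1) x ∧
      ev (yR m r A B D F G) ((2 * m + 1) * (2 * r + 1)) x =
        -(x ^ m * ev A (m + 1) y * ev F r ((x ^ (2 * m + 1)) ^ 2)) +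
        x ^ (2 * m) * ev D m y * (((x ^ (2 * m + 1)) ^ 2) ^ (r - 1) * ev G r ((y ^ (2 * m + 1)) ^ 2)) +
        ((x ^ (2 * m + 1)) ^ 2) ^ r * ev B (m + 1) x ∧
      ev (yS m r A C D F G) ((2 * m + 1) * (2 * r + 1)) x =
        x ^ (2 * m + 1) * (-(x ^ m * ev A (m + 1) y * ev G r ((x ^ (2 * m + 1)) ^ 2)) -
        x ^ (2 * m) * ev D m y * (((x ^ (2 * m + 1)) ^ 2) ^ (r - 1) * ev F r ((y ^ (2 * m + 1)) ^ 2))) +
        ((x ^ (2 * m + 1)) ^ 2) ^ r * (x ^ (m + 1) * ev C m x) ∧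
      ev (yT m r B C D F G) ((2 * m + 1) * (2 * r + 1)) x =
        x ^ (2 * m + 1) * (-(x ^ m * ev B (m + 1) y *
        (((x ^ (2 * m + 1)) ^ 2) ^ (r - 1) * ev G r ((y ^ (2 * m + 1)) ^ 2))) +
        x ^ (2 * m) * ev C m y * (((x ^ (2 * m + 1)) ^ 2) ^ (r - 1) * ev F r ((y ^ (2 * m + 1)) ^ 2))) +
        ((x ^ (2 * m + 1)) ^ 2) ^ r * (x ^ (m + 1) * ev D m x) := by
    intro x y hxy hww
    have hx : x ^ (m + 1) * x ^ (m - 1) = x ^ (2 * m) := by rw [← pow_add]; congr 1; omega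
    refine ⟨?_, ?_, ?_, ?_⟩
    · unfold yQ; rw [ev_Yc _ _ _ _ _ _ _ _ _ _ _ _ x y hxy]
      simp only [ev_zero]
      rw [← hx]; ring
    · unfold yR; rw [ev_Yc _ _ _ _ _ _ _ _ _ _ _ _ x y hxy]
      simp only [ev_zero, ev_neg_fun]
      rw [ev_rv G r _ _ hww, ← hx]; ring
    · unfold yS; rw [ev_Yc _ _ _ _ _ _ _ _ _ _ _ _ x y hxy]
      simp only [ev_zero, ev_neg_fun]
      rw [ev_rv F r _ _ hww, ← hx]; ring
    · unfold yT; rw [ev_Yc _ _ _ _ _ _ _ _ _ _ _ _ x y hxy]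
      simp only [ev_zero, ev_neg_fun]
      rw [ev_rv F r _ _ hww, ev_rv G r _ _ hww, ← hx]; ring
  obtain ⟨q1, r1, s1, t1⟩ := key u v huv hw
  obtain ⟨q2, r2, s2, t2⟩ := key v u huv' hw'
  have hm2 : ∀ x y : R, x * y = 1 → x ^ (2 * m) = x ^ (2 * m + 1) * x ^ m * y ^ (m + 1) := by
    intro x y hxy
    have h1 : x ^ (2 * m + 1) * x ^ m = x ^ (2 * m) * x ^ (m + 1) := by
      rw [← pow_add, ← pow_add]; congr 1; omega
    rw [h1, mul_assoc, ← mul_pow, hxy, one_pow, mul_one]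
  have hpw : ∀ k : ℕ, u ^ k * v ^ k = 1 := fun k => by rw [← mul_pow, huv, one_pow]
  have hid := yang_identity (ev A (m + 1) u) (ev A (m + 1) v) (ev B (m + 1) u) (ev B (m + 1) v)
    (ev C m u) (ev C m v) (ev D m u) (ev D m v) (ev F r ((u ^ (2 * m + 1)) ^ 2))
    (ev F r ((v ^ (2 * m + 1)) ^ 2)) (ev G r ((u ^ (2 * m + 1)) ^ 2)) (ev G r ((v ^ (2 * m + 1)) ^ 2))
    (u ^ m) (v ^ m) (u ^ (2 * m + 1)) (v ^ (2 * m + 1)) (u ^ (m + 1)) (v ^ (m + 1))
    (((u ^ (2 * m + 1)) ^ 2) ^ (r - 1)) (((v ^ (2 * m + 1)) ^ 2) ^ (r - 1))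
    (((u ^ (2 * m + 1)) ^ 2) ^ r) (((v ^ (2 * m + 1)) ^ 2) ^ r) (u ^ (2 * m)) (v ^ (2 * m))
    (4 * m + 2) (r : R) (hpw m) (hpw _) (hpw _) (by rw [← mul_pow, hw, one_pow])
    (by rw [← mul_pow, hw, one_pow]) (hm2 u v huv) (hm2 v u huv') (base_norm_ring hb u v huv)
    (hFG.2.2 R _ _ hw)
  rw [q1, r1, s1, t1, q2, r2, s2, t2]
  exact hid

/-- values of the four sequences: two signs and two zeros -/
theorem yang_T {m r : ℕ} {A B C D : ℕ → ℤ} (hb : IsBase m A B C D)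
    {F G : ℕ → ℤ} (hFG : GP r F G) (k : ℕ) (hk : k < (2 * m + 1) * (2 * r + 1)) :
    (Sgn (yQ m r A B C F G k) ∧ Sgn (yR m r A B D F G k) ∧ yS m r A C D F G k = 0 ∧
      yT m r B C D F G k = 0) ∨
    (yQ m r A B C F G k = 0 ∧ yR m r A B D F G k = 0 ∧ Sgn (yS m r A C D F G k) ∧
      Sgn (yT m r B C D F G k)) := by
  obtain ⟨hA, _, hB, _, hC, _, hD, _, _⟩ := hb
  obtain ⟨hF, hG, _⟩ := hFG
  have hi : k / (2 * m + 1) < 2 * r + 1 := Nat.div_lt_of_lt_mul hk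
  have hρ : k % (2 * m + 1) < 2 * m + 1 := Nat.mod_lt _ (by omega)
  unfold yQ yR yS yT Yc
  generalize k / (2 * m + 1) = i at hi
  generalize k % (2 * m + 1) = ρ at hρ
  by_cases h1 : i = 2 * r
  · simp only [if_pos h1]
    by_cases h2 : ρ < m + 1
    · simp only [if_pos h2]; left
      exact ⟨hA _ h2, hB _ h2, trivial, trivial⟩
    · simp only [if_neg h2]; right
      exact ⟨trivial, trivial, hC _ (by omega), hD _ (by omega)⟩
  · simp only [if_neg h1]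
    have hi2 : i / 2 < r := by omega
    have hrv : ∀ f : ℕ → ℤ, (∀ j, j < r → Sgn (f j)) → Sgn (rv r f (i / 2)) := by
      intro f hf; unfold rv; exact hf _ (by omega)
    by_cases h3 : i % 2 = 0
    · simp only [if_pos h3]
      by_cases h2 : ρ < m + 1
      · simp only [if_pos h2]; left
        refine ⟨(hF _ hi2).mul (hB _ (by omega)), (hF _ hi2).neg.mul (hA _ (by omega)), ?_, ?_⟩ <;> simp
      · simp only [if_neg h2]; left
        refine ⟨(hG _ hi2).mul (hC _ (by omega)), (hrv G hG).mul (hD _ (by omega)), ?_, ?_⟩ <;> simp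
    · simp only [if_neg h3]
      by_cases h2 : ρ < m + 1
      · simp only [if_pos h2]; right
        refine ⟨by simp, by simp, (hG _ hi2).neg.mul (hA _ (by omega)),
          (hrv G hG).neg.mul (hB _ (by omega))⟩
      · simp only [if_neg h2]; right
        refine ⟨by simp, by simp, (hrv F hF).neg.mul (hD _ (by omega)), (hrv F hF).mul (hC _ (by omega))⟩

end Pool.Agent.H28BS
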